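import Pool.Agent.H73.D2.Tle
import Pool.Agent.H31.W1.H80.GEN.Chn

/-!
# The windows of `TL`

`Wdat`: four windows `o 0 = w - q₀` (frame), `o 1 = w`, `o 2 = w + Q` (ball), `o 3` (deep), with the
balls of `BalE`, the row label against the deep ball (`ROut1`), and the numbers. The letters at one
sample.
-/

set_option autoImplicit false

namespace Pool.W.V1E

open Pool.V1E

open Finset Real MvPolynomial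
open Pool.KA Pool.KSAT Pool.PB Pool.GEN Pool.D2R Pool.D2G30 Pool.ISO Pool.CHT Pool.CHX
open Pool.PB.Trl (rt rt_mem t_rt)
open Pool.K2S (Sub)

/-- **The data of four windows.** -/
structure Wdat {m J : ℕ} (F : Pool.KA.Fam m J) (c : ℕ → Fin m) (r D n M ar MB q₀ Q x u p e : ℕ)
    (s : ℕ → ℕ) (qe : Fin r → ℕ) (o : ℕ → ℕ) (z g gc gT g₀ : ℕ → ℕ → ℕ) (B : F.Ω → Prop)
    (G T : ℕ → Pool.GEN.PtT F → ℕ → MvPolynomial (Option (Fin m)) ℝ)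
    (H TH : ℕ → Pool.GEN.LnT F → ℕ → MvPolynomial (Option (Fin m)) ℝ)
    (Ht : Pool.GEN.LnT F → MvPolynomial (Option (Fin m)) ℝ) : Prop where
  hc : Set.InjOn c (Set.Iio (r + 1))
  bal : Pool.D2R.BalE F c r n M ar o z g gc gT g₀ (2 ^ u) B G T
  n3 : 3 ≤ n
  o1 : o 1 = o 0 + q₀
  o2 : o 2 = o 1 + Q
  o3 : o 2 ≤ o 3
  oa : o 3 ≤ ar
  oJ : o 3 ≤ J
  z02 : ∃ q ≤ M, z 0 q = o 2 - o 0
  z03 : ∃ q ≤ M, z 0 q = o 3 - o 0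
  z12 : ∃ q ≤ M, z 1 q = o 2 - o 1
  z23 : ∃ q ≤ M, z 2 q = o 3 - o 2
  dG : ∀ k y l, (G k y l).totalDegree ≤ D
  pG : ∀ k y l, Pool.GEN.DepC c l (G k y l)
  dH : ∀ k s l, (H k s l).totalDegree ≤ D
  pH : ∀ k s l, Pool.GEN.DepC c l (H k s l)
  dt : ∀ s, (Ht s).totalDegree ≤ D
  pt : ∀ s, Pool.GEN.DepC c r (Ht s)
  ch3 : Pool.W.GEN.ChOK F c (r + 1) (fun _ => D) (o 3) (o 3) e (g₀ 3) B (G 3) (H 3)
  ro : Pool.D2R.ROut1 F c r (o 1) (o 3) (ar - o 3) (g₀ 3) (gT 3) p (2 ^ u) B (G 3) (H 3) (T 3) (TH 3) Ht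
  hTH : ∀ j < r, ∀ s, TH 3 s j = Pool.GEN.Hno (c j) (fun s => H 3 s j) s
  cl0 : ∀ ω, B ω → ∀ l < r, G 0 (Pool.PB.ptr F J ω) l = H 0 (Pool.KSAT.slam F (o 0) ω) l
  cl1 : ∀ ω, B ω → G 1 (Pool.PB.ptr F J ω) r = H 1 (Pool.KSAT.slam F (o 1) ω) r
  own0 : ∀ ω, B ω → ∀ l < r, ∀ τ ∈ Set.Icc (0 : ℝ) 1,
    |(Pool.GEN.dv (o 0) (fun s _ => H 0 s l) (c l) (Pool.KSAT.slam F (o 0) ω)).eval τ| ≤ 2 ^ u / 2 ^ g₀ 0 l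
  own1 : ∀ ω, B ω → ∀ τ ∈ Set.Icc (0 : ℝ) 1,
    |(Pool.GEN.dv (o 1) (fun s _ => H 1 s r) (c r) (Pool.KSAT.slam F (o 1) ω)).eval τ| ≤ 2 ^ u / 2 ^ g₀ 1 r
  vel2 : ∀ ω, B ω → |Pool.GEN.bd F ω (some (c r)) - Pool.D2R.dd (G 2 (Pool.PB.ptr F J ω) r) (Pool.GEN.bt F ω) (Pool.GEN.bd F ω)| ≤
    2 ^ u * 2 ^ o 2 / 2 ^ g₀ 2 r
  near1 : ∀ ω, B ω → ∀ b, |eval b (Pool.GEN.Gno (c r) J J (fun y => G 1 y r) (Pool.PB.ptr F J ω)) -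
    eval b (G 1 (Pool.PB.ptr F J ω) r)| ≤ 2 / 2 ^ g₀ 1 r
  pos0 : ∀ ω, B ω → ∀ l < r, |F.x ω (c l) -
    eval (Pool.GEN.bt F ω) (Pool.GEN.Gno (c l) J J (fun y => G 0 y l) (Pool.PB.ptr F J ω))| ≤ 1 / 2 ^ (g 0 l + (o 2 - o 0))
  pos2 : ∀ ω, B ω → |F.x ω (c r) - eval (Pool.GEN.bt F ω) (G 2 (Pool.PB.ptr F J ω) r)| ≤ 1 / 2 ^ g₀ 2 r
  n0 : ∀ j < r, s j ≤ g₀ 0 j + q₀ + x
  n2a : ∀ j < r, g₀ 2 j ≤ s j + Q + x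
  n2b : ∀ j < r, s j + Q ≤ g₀ 2 j + x
  n2c : ∀ j < r, g₀ 2 j ≤ g 0 j + (o 2 - o 0) + x
  n3a : ∀ j < r, g₀ 3 j ≤ g 0 j + (o 3 - o 0) + x
  n3b : ∀ j < r, g₀ 3 j ≤ s j + (o 3 - o 1) + x
  n3c : ∀ j < r, gT 3 j ≤ g₀ 3 j + (ar - o 3) + x
  m1 : s r ≤ g 1 r + x
  m1' : s r ≤ g₀ 1 r + x
  m2 : s r + MB ≤ g₀ 2 r + x
  m2' : s r + MB ≤ g 2 r + x
  m3 : s r + (o 3 - o 1) + (MB - Q) ≤ g₀ 3 r + x
  mp : s r + (ar - o 1) + (MB - Q) ≤ p + x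
  QM : Q ≤ MB
  q0M : MB + Q ≤ q₀
  qeM : ∀ i, MB + Q ≤ qe i
  cl2 : ∀ ω, B ω → G 2 (Pool.PB.ptr F J ω) r = H 2 (Pool.KSAT.slam F (o 2) ω) r
  ch1 : Pool.W.GEN.ChOK F c (r + 1) (fun _ => D) (o 1) (o 1) e (g₀ 1) B (G 1) (H 1)
  rad0 : Pool.W.GEN.ChOK F c (r + 1) (fun _ => D) (o 2) (o 0) e (fun l => g 0 l + (o 2 - o 0)) B
    (fun y l => Pool.GEN.Gno (c l) J J (fun y => G 0 y l) y) (fun s l => Pool.GEN.Hno (c l) (fun s => H 0 s l) s)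
  n2d : ∀ j < r, g 0 j + (o 2 - o 0) ≤ s j + Q + x
  z01 : ∃ q ≤ M, z 0 q = o 1 - o 0
  n1c : ∀ j < r, g₀ 1 j ≤ g 0 j + (o 1 - o 0) + x
  n1d : ∀ j < r, g₀ 1 j ≤ s j + x
  ch2 : Pool.W.GEN.ChOK F c (r + 1) (fun _ => D) (o 2) (o 2) e (g₀ 2) B (G 2) (H 2)
  m1u : g₀ 1 r ≤ s r + x

section sub

variable {m J : ℕ} {F : Pool.KA.Fam m J} {c : ℕ → Fin m} {r D n M ar MB q₀ Q x u p e : ℕ}
  {s : ℕ → ℕ} {qe : Fin r → ℕ} {o : ℕ → ℕ} {z g gc gT g₀ : ℕ → ℕ → ℕ} {B : F.Ω → Prop}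
  {G T : ℕ → Pool.GEN.PtT F → ℕ → MvPolynomial (Option (Fin m)) ℝ}
  {H TH : ℕ → Pool.GEN.LnT F → ℕ → MvPolynomial (Option (Fin m)) ℝ}
  {Ht : Pool.GEN.LnT F → MvPolynomial (Option (Fin m)) ℝ}

/-- Smaller events. -/
theorem Wdat.sub (W : Pool.W.V1E.Wdat F c r D n M ar MB q₀ Q x u p e s qe o z g gc gT g₀ B G T H TH Ht)
    {B' : F.Ω → Prop} (h : Pool.K2S.Sub B' B) :
    Pool.W.V1E.Wdat F c r D n M ar MB q₀ Q x u p e s qe o z g gc gT g₀ B' G T H TH Ht where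
  hc := W.hc
  bal := ⟨fun k hk ω hω => W.bal.inc k hk ω (h ω hω),
    fun k hk k' hk' q hq h1 h2 ω hω => W.bal.bal k hk k' hk' q hq h1 h2 ω (h ω hω)⟩
  n3 := W.n3
  o1 := W.o1
  o2 := W.o2
  o3 := W.o3
  oa := W.oa
  oJ := W.oJ
  z02 := W.z02
  z03 := W.z03
  z12 := W.z12
  z23 := W.z23
  dG := W.dG
  pG := W.pG
  dH := W.dH
  pH := W.pH
  dt := W.dt
  pt := W.pt
  ch3 := W.ch3.sub h
  ro := W.ro.sub h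
  hTH := W.hTH
  cl0 := fun ω hω => W.cl0 ω (h ω hω)
  cl1 := fun ω hω => W.cl1 ω (h ω hω)
  own0 := fun ω hω => W.own0 ω (h ω hω)
  own1 := fun ω hω => W.own1 ω (h ω hω)
  vel2 := fun ω hω => W.vel2 ω (h ω hω)
  near1 := fun ω hω => W.near1 ω (h ω hω)
  pos0 := fun ω hω => W.pos0 ω (h ω hω)
  pos2 := fun ω hω => W.pos2 ω (h ω hω)
  n0 := W.n0
  n2a := W.n2a
  n2b := W.n2b
  n2c := W.n2c
  n3a := W.n3a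
  n3b := W.n3b
  n3c := W.n3c
  m1 := W.m1
  m1' := W.m1'
  m2 := W.m2
  m2' := W.m2'
  m3 := W.m3
  mp := W.mp
  QM := W.QM
  q0M := W.q0M
  qeM := W.qeM
  cl2 := fun ω hω => W.cl2 ω (h ω hω)
  ch1 := W.ch1.sub h
  rad0 := W.rad0.sub h
  n2d := W.n2d
  z01 := W.z01
  n1c := W.n1c
  n1d := W.n1d
  ch2 := W.ch2.sub h
  m1u := W.m1u

end sub

/-! ### General facts -/


section one

variable {m J : ℕ} {F : Pool.KA.Fam m J} {c : ℕ → Fin m} {r D n M ar MB q₀ Q x u p e : ℕ}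
  {s : ℕ → ℕ} {qe : Fin r → ℕ} {o : ℕ → ℕ} {z g gc gT g₀ : ℕ → ℕ → ℕ} {B : F.Ω → Prop}
  {G T : ℕ → Pool.GEN.PtT F → ℕ → MvPolynomial (Option (Fin m)) ℝ}
  {H TH : ℕ → Pool.GEN.LnT F → ℕ → MvPolynomial (Option (Fin m)) ℝ}
  {Ht : Pool.GEN.LnT F → MvPolynomial (Option (Fin m)) ℝ}

theorem Wdat.hcr (W : Pool.W.V1E.Wdat F c r D n M ar MB q₀ Q x u p e s qe o z g gc gT g₀ B G T H TH Ht) :
    Set.InjOn c (Set.Iio r) := W.hc.mono fun y hy => by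
  rw [Set.mem_Iio] at hy ⊢
  omega

/-- The frame of the line is the frame of the point. -/
theorem Wdat.fr (W : Pool.W.V1E.Wdat F c r D n M ar MB q₀ Q x u p e s qe o z g gc gT g₀ B G T H TH Ht)
    {ω : F.Ω} (hω : B ω) :
    Pool.V1E.frH F r q₀ (H 0) (Pool.KSAT.slam F (o 1) ω) = Pool.V1E.trn r (G 0 (Pool.PB.ptr F J ω)) := by
  have h1 : Pool.D2R.co q₀ (Pool.KSAT.slam F (o 1) ω) = Pool.KSAT.slam F (o 0) ω := by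
    have h2 := Pool.D2R.co_slam F (w := o 0) (a := o 1) (by rw [W.o1]; omega)
      (by have := W.oJ; have := W.o3; have := W.o2; omega) ω
    rwa [W.o1, Nat.add_sub_cancel_left, ← W.o1] at h2
  funext l
  unfold Pool.V1E.frH Pool.V1E.trn
  split_ifs with hl
  · rw [h1, W.cl0 ω hω l hl]
  · rfl


/-- The corner. -/
theorem Wdat.crn (W : Pool.W.V1E.Wdat F c r D n M ar MB q₀ Q x u p e s qe o z g gc gT g₀ B G T H TH Ht)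
    (ω : F.Ω) : Pool.V1E.crF F c s r (o 1) Q (G 0) ω =
      fun i => ⌊2 ^ Q * Pool.V1E.yp c s r (Pool.V1E.trn r (G 0 (Pool.PB.ptr F J ω))) (Pool.GEN.bt F ω) (some i)⌋ := by
  have h1J : o 1 ≤ J := by have := W.oJ; have := W.o3; have := W.o2; omega
  funext i
  unfold Pool.V1E.crF Pool.V1E.cL
  rw [Pool.V1E.hL_yp h1J]


end one

end Pool.W.V1E
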