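import Pool.Agent.H73.D2.Tlg
import Pool.Agent.H31.W3.H73.D2.Tle

/-!
# The estimates at one sample

`W_bd`: the chart of the ball and its gradient at the nodes; `W_pos`: the position, the velocity;
`W_val`, `W_vel`, `W_cl`: the value, the velocity and the closed gradient at the position of the
sample.
-/

set_option autoImplicit false

namespace Pool.W.V1E

open Pool.V1E

open Finset Real MvPolynomial
open Pool.KA Pool.KSAT Pool.PB Pool.GEN Pool.D2R Pool.D2G30 Pool.ISO Pool.CHT Pool.CHX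
open Pool.PB.Trl (rt rt_mem t_rt)


/-- **The chart of the ball and its gradient in the tube.** -/
theorem W_bd (D r : ℕ) : ∃ C : ℕ, ∀ {m J : ℕ} {F : Pool.KA.Fam m J} {c : ℕ → Fin m}
    {n M ar MB q₀ Q x u p e : ℕ} {s : ℕ → ℕ} {qe : Fin r → ℕ} {o : ℕ → ℕ}
    {z g gc gT g₀ : ℕ → ℕ → ℕ} {B : F.Ω → Prop}
    {G T : ℕ → Pool.GEN.PtT F → ℕ → MvPolynomial (Option (Fin m)) ℝ}
    {H TH : ℕ → Pool.GEN.LnT F → ℕ → MvPolynomial (Option (Fin m)) ℝ}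
    {Ht : Pool.GEN.LnT F → MvPolynomial (Option (Fin m)) ℝ},
    Pool.W.V1E.Wdat F c r D n M ar MB q₀ Q x u p e s qe o z g gc gT g₀ B G T H TH Ht → ∀ ω, B ω →
    ∀ X : Fin r → ℝ, (∀ i, 0 ≤ X i) → (∀ i, X i ≤ 1) →
    |eval X (Pool.V1E.PfR c s r Q (Pool.GEN.bt F ω none) (fun i => ⌊2 ^ Q * Pool.V1E.yp c s r (Pool.V1E.trn r (G 0 (Pool.PB.ptr F J ω)))
      (Pool.GEN.bt F ω) (some i)⌋) (Pool.V1E.trn r (G 0 (Pool.PB.ptr F J ω))) (G 2 (Pool.PB.ptr F J ω) r - G 1 (Pool.PB.ptr F J ω) r))| ≤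
      2 ^ (C * (u + x + 1)) ∧
    |eval X (Pool.V1E.PgR c s r (o 1) Q (Pool.GEN.bt F ω none) (fun i => ⌊2 ^ Q * Pool.V1E.yp c s r
      (Pool.V1E.trn r (G 0 (Pool.PB.ptr F J ω))) (Pool.GEN.bt F ω) (some i)⌋) (Pool.V1E.trn r (G 0 (Pool.PB.ptr F J ω)))
      (G 2 (Pool.PB.ptr F J ω) r - G 1 (Pool.PB.ptr F J ω) r) 0)| ≤ 2 ^ (C * (u + x + 1)) ∧
    ∀ i : Fin r, |eval X (Pool.V1E.PgR c s r (o 1) Q (Pool.GEN.bt F ω none) (fun i => ⌊2 ^ Q * Pool.V1E.yp c s r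
      (Pool.V1E.trn r (G 0 (Pool.PB.ptr F J ω))) (Pool.GEN.bt F ω) (some i)⌋) (Pool.V1E.trn r (G 0 (Pool.PB.ptr F J ω)))
      (G 2 (Pool.PB.ptr F J ω) r - G 1 (Pool.PB.ptr F J ω) r) i.succ)| ≤ 2 ^ (C * (u + x + 1)) := by
  obtain ⟨C₁, htb⟩ := Pool.V1E.tub_bd D r
  refine ⟨2 * C₁ + 3, ?_⟩
  intro m J F c n M ar MB q₀ Q x u p e s qe o z g gc gT g₀ B G T H TH Ht W ω hω X hX0 hX1
  have hU1 : (1 : ℝ) ≤ 2 ^ u := one_le_pow₀ (by norm_num)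
  have h1J : o 1 ≤ J := by have := W.oJ; have := W.o3; have := W.o2; omega
  have hQM := W.QM
  obtain ⟨P, hP⟩ : ∃ P, P = Pool.V1E.trn r (G 0 (Pool.PB.ptr F J ω)) := ⟨_, rfl⟩
  rw [← hP]
  have hPd : ∀ l, (P l).totalDegree ≤ D := fun l => by
    rw [hP]
    exact Pool.V1E.trn_deg (W.dG 0 _) l
  have hPp : ∀ l, Pool.GEN.DepC c l (P l) := fun l => by
    rw [hP]
    exact Pool.V1E.trn_dep (W.pG 0 _) l
  have hPe : ∀ l < r, P l = G 0 (Pool.PB.ptr F J ω) l := fun l hl => by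
    rw [hP]
    exact Pool.V1E.trn_eq hl
  -- the constants
  obtain ⟨κ', hκ'⟩ : ∃ κ' : ℕ → ℝ, ∀ l b, eval b (Pool.GEN.Gno (c l) J J (fun y => G 0 y l) (Pool.PB.ptr F J ω)) =
      eval b (G 0 (Pool.PB.ptr F J ω) l) + κ' l := by
    refine ⟨fun l => ((Pool.PB.ptr F J ω).1 (c l) : ℝ) / 2 ^ J -
      eval (Pool.GEN.bho J J (Pool.PB.ptr F J ω)) (G 0 (Pool.PB.ptr F J ω) l), fun l b => ?_⟩
    unfold Pool.GEN.Gno
    rw [map_add, eval_C]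
  obtain ⟨κ₁, hκ₁⟩ : ∃ κ₁ : ℝ, ∀ b, eval b (Pool.GEN.Gno (c r) J J (fun y => G 1 y r) (Pool.PB.ptr F J ω)) =
      eval b (G 1 (Pool.PB.ptr F J ω) r) + κ₁ := by
    refine ⟨((Pool.PB.ptr F J ω).1 (c r) : ℝ) / 2 ^ J -
      eval (Pool.GEN.bho J J (Pool.PB.ptr F J ω)) (G 1 (Pool.PB.ptr F J ω) r), fun b => ?_⟩
    unfold Pool.GEN.Gno
    rw [map_add, eval_C]
  obtain ⟨q02, hq02, hz02⟩ := W.z02
  obtain ⟨q12, hq12, hz12⟩ := W.z12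
  have h02 : o 0 ≤ o 2 := by have := W.o1; have := W.o2; omega
  have h12 : o 1 ≤ o 2 := by have := W.o2; omega
  have hQe : o 2 - o 1 = Q := by have := W.o2; omega
  obtain ⟨M₁, hM₁⟩ : ∃ M₁ : ℝ, M₁ = 2 ^ u / 2 ^ min (g 1 r + Q) (g₀ 2 r) := ⟨_, rfl⟩
  have hM10 : 0 ≤ M₁ := by rw [hM₁]; positivity
  have hMs : 2 ^ s r * M₁ * 2 ^ Q ≤ 2 ^ (u + x) := by
    rw [hM₁]
    have h1 : s r + Q ≤ min (g 1 r + Q) (g₀ 2 r) + x := by
      rcases le_total (g 1 r + Q) (g₀ 2 r) with h | h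
      · rw [min_eq_left h]
        have := W.m1
        omega
      · rw [min_eq_right h]
        have := W.m2
        omega
    have h2 := Pool.V1E.p2_div h1
    calc 2 ^ s r * (2 ^ u / 2 ^ min (g 1 r + Q) (g₀ 2 r)) * 2 ^ Q =
        2 ^ u * (2 ^ (s r + Q) / 2 ^ min (g 1 r + Q) (g₀ 2 r)) := by
          rw [pow_add]
          ring
      _ ≤ 2 ^ u * 2 ^ x := mul_le_mul_of_nonneg_left h2 (by positivity)
      _ = _ := by rw [← pow_add]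
  have hMs' : 2 ^ s r * M₁ ≤ 2 ^ (u + x) := by
    refine le_trans ?_ hMs
    exact le_mul_of_one_le_right (by positivity) (one_le_pow₀ (by norm_num))
  obtain ⟨f1, f2, f3⟩ := htb (c := c) (s := s) (w := o 1) (Q := Q) (a := o 2) (p := u + x + 1)
    (q := x) (t := Pool.GEN.bt F ω none) (M := M₁) (M₀ := 2 / 2 ^ g₀ 1 r) (κ₁ := κ₁) (P := P)
    (Gb := G 2 (Pool.PB.ptr F J ω)) (κ := fun l => F.x ω (c l) - eval (Pool.GEN.bt F ω) (P l)) (gb := g₀ 2)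
    (A := G 2 (Pool.PB.ptr F J ω) r) (Pd := G 1 (Pool.PB.ptr F J ω) r)
    (k := fun i => ⌊2 ^ Q * Pool.V1E.yp c s r P (Pool.GEN.bt F ω) (some i)⌋) W.hcr (W.dG 2 _) (W.pG 2 _) hPd hPp
    (W.pG 2 _ r) (W.pG 1 _ r) (W.dG 2 _ r) (W.dG 1 _ r) hM10 (fun l hl => W.n2a l hl)
    (fun l hl => W.n2b l hl) (fun l hl b hb => by
      have h1 := W.bal.bal 0 (Nat.zero_le n) 2 (by have := W.n3; omega) q02 hq02 h02 hz02 ω hω l
        hl.le b hb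
      have h2 := W.pos0 ω hω l hl
      rw [hκ' l] at h1 h2
      rw [hPe l hl]
      have e1 : eval b (G 0 (Pool.PB.ptr F J ω) l) + (F.x ω (c l) - eval (Pool.GEN.bt F ω) (G 0 (Pool.PB.ptr F J ω) l)) -
          eval b (G 2 (Pool.PB.ptr F J ω) l) =
          (eval b (G 0 (Pool.PB.ptr F J ω) l) + κ' l - eval b (G 2 (Pool.PB.ptr F J ω) l)) +
          (F.x ω (c l) - (eval (Pool.GEN.bt F ω) (G 0 (Pool.PB.ptr F J ω) l) + κ' l)) := by ring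
      rw [e1]
      refine (abs_add_le _ _).trans ((add_le_add h1 h2).trans ?_)
      have h3 : g₀ 2 l ≤ min (g 0 l + (o 2 - o 0)) (g₀ 2 l) + x := by
        rcases le_total (g 0 l + (o 2 - o 0)) (g₀ 2 l) with h | h
        · rw [min_eq_left h]
          exact W.n2c l hl
        · rw [min_eq_right h]
          omega
      have h4 := Pool.V1E.p2_div h3
      have h5 := Pool.V1E.p2_div (W.n2c l hl)
      have hg0 : (0 : ℝ) < 2 ^ g₀ 2 l := by positivity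
      rw [le_div_iff₀ hg0, add_mul]
      calc 2 ^ u / 2 ^ min (g 0 l + (o 2 - o 0)) (g₀ 2 l) * 2 ^ g₀ 2 l +
          1 / 2 ^ (g 0 l + (o 2 - o 0)) * 2 ^ g₀ 2 l =
          2 ^ u * (2 ^ g₀ 2 l / 2 ^ min (g 0 l + (o 2 - o 0)) (g₀ 2 l)) +
            2 ^ g₀ 2 l / 2 ^ (g 0 l + (o 2 - o 0)) := by ring
        _ ≤ 2 ^ u * 2 ^ x + 2 ^ x := add_le_add (mul_le_mul_of_nonneg_left h4 (by positivity)) h5
        _ ≤ 2 ^ u * 2 ^ x + 2 ^ u * 2 ^ x := by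
            have : (0 : ℝ) < 2 ^ x := by positivity
            nlinarith
        _ = _ := by
            rw [pow_succ, pow_add]
            ring) (fun b hb => by
      have h1 := W.bal.bal 1 (by have := W.n3; omega) 2 (by have := W.n3; omega) q12 hq12 h12 hz12
        ω hω r le_rfl b hb
      rw [hκ₁, hQe] at h1
      rw [hM₁]
      exact h1) (by
      have h1 := W.near1 ω hω (Pool.GEN.bt F ω)
      rw [hκ₁, add_sub_cancel_left] at h1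
      exact h1) (fun i => rfl) X hX0 hX1
  have hY : (2 : ℝ) ^ (C₁ * (u + x + 1 + x + 1)) * 2 ^ (u + x) + 2 ^ (x + 1) ≤
      2 ^ ((2 * C₁ + 3) * (u + x + 1)) := by
    have h1 : C₁ * (u + x + 1 + x + 1) ≤ 2 * C₁ * (u + x + 1) := by nlinarith
    have h2 : (2 : ℝ) ^ (C₁ * (u + x + 1 + x + 1)) * 2 ^ (u + x) ≤
        2 ^ (2 * C₁ * (u + x + 1) + (u + x)) := by
      rw [← pow_add]
      exact pow_le_pow_right₀ (by norm_num) (by omega)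
    have h3 : (2 : ℝ) ^ (x + 1) ≤ 2 ^ (2 * C₁ * (u + x + 1) + (u + x + 1)) :=
      pow_le_pow_right₀ (by norm_num) (by omega)
    have h4 : (2 : ℝ) ^ (2 * C₁ * (u + x + 1) + (u + x)) ≤
        2 ^ (2 * C₁ * (u + x + 1) + (u + x + 1)) := pow_le_pow_right₀ (by norm_num) (by omega)
    have h5 : (2 : ℝ) ^ (2 * C₁ * (u + x + 1) + (u + x + 1)) * 2 ≤
        2 ^ ((2 * C₁ + 3) * (u + x + 1)) := by
      rw [← pow_succ]
      refine pow_le_pow_right₀ (by norm_num) ?_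
      nlinarith
    linarith
  have hM0 : 2 ^ s r * (2 / 2 ^ g₀ 1 r) ≤ (2 : ℝ) ^ (x + 1) := by
    have h1 := Pool.V1E.p2_div W.m1'
    calc 2 ^ s r * (2 / 2 ^ g₀ 1 r) = 2 * ((2 : ℝ) ^ s r / 2 ^ g₀ 1 r) := by ring
      _ ≤ 2 * 2 ^ x := mul_le_mul_of_nonneg_left h1 (by norm_num)
      _ = _ := by rw [pow_succ]; ring
  have hx1 : (0 : ℝ) < 2 ^ (x + 1) := by positivity
  have hC0 : (0 : ℝ) ≤ 2 ^ (C₁ * (u + x + 1 + x + 1)) := by positivity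
  refine ⟨f1.trans ?_, f2.trans ?_, fun i => (f3 i).trans ?_⟩
  · rw [mul_add]
    have h1 : 2 ^ s r * (2 ^ (C₁ * (u + x + 1 + x + 1)) * M₁) ≤
        2 ^ (C₁ * (u + x + 1 + x + 1)) * 2 ^ (u + x) := by
      calc 2 ^ s r * (2 ^ (C₁ * (u + x + 1 + x + 1)) * M₁) =
          2 ^ (C₁ * (u + x + 1 + x + 1)) * (2 ^ s r * M₁) := by ring
        _ ≤ _ := mul_le_mul_of_nonneg_left hMs' hC0
    linarith
  · have h2 : (2 : ℝ) ^ o 2 = 2 ^ o 1 * 2 ^ Q := by rw [W.o2, pow_add]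
    have h1 : 2 ^ s r / 2 ^ o 1 * (2 ^ (C₁ * (u + x + 1 + x + 1)) * M₁ * 2 ^ o 2) =
        2 ^ (C₁ * (u + x + 1 + x + 1)) * (2 ^ s r * M₁ * 2 ^ Q) := by
      rw [h2]
      field_simp
    rw [h1]
    have h3 := mul_le_mul_of_nonneg_left hMs hC0
    linarith
  · have h1 : 2 ^ s r * (2 ^ (C₁ * (u + x + 1 + x + 1)) * M₁ * 2 ^ Q) =
        2 ^ (C₁ * (u + x + 1 + x + 1)) * (2 ^ s r * M₁ * 2 ^ Q) := by ring
    rw [h1]
    have h3 := mul_le_mul_of_nonneg_left hMs hC0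
    linarith

/-- **The position and the velocity.** -/
theorem W_pos (D : ℕ) : ∃ C : ℕ, ∀ {m J : ℕ} {F : Pool.KA.Fam m J} {c : ℕ → Fin m}
    {r n M ar MB q₀ Q x u p e : ℕ} {s : ℕ → ℕ} {qe : Fin r → ℕ} {o : ℕ → ℕ}
    {z g gc gT g₀ : ℕ → ℕ → ℕ} {B : F.Ω → Prop}
    {G T : ℕ → Pool.GEN.PtT F → ℕ → MvPolynomial (Option (Fin m)) ℝ}
    {H TH : ℕ → Pool.GEN.LnT F → ℕ → MvPolynomial (Option (Fin m)) ℝ}
    {Ht : Pool.GEN.LnT F → MvPolynomial (Option (Fin m)) ℝ},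
    Pool.W.V1E.Wdat F c r D n M ar MB q₀ Q x u p e s qe o z g gc gT g₀ B G T H TH Ht → ∀ ω, B ω →
    ∀ i : Fin r, |Pool.V1E.scF F c s r (o 1) q₀ Q qe (G 0) (H 0) ω i| ≤ 1 ∧
    |Pool.V1E.scF F c s r (o 1) q₀ Q qe (G 0) (H 0) ω i +
      Pool.V1E.xL c s r (o 1) Q (Pool.V1E.frH F r q₀ (H 0) (Pool.KSAT.slam F (o 1) ω)) (Pool.KSAT.slam F (o 1) ω) i -
      Pool.V1E.frc c s r Q (Pool.V1E.trn r (G 0 (Pool.PB.ptr F J ω))) (Pool.GEN.bt F ω) i| ≤ 2 ^ (C * (u + x + 1)) / 2 ^ MB ∧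
    |Pool.V1E.Xe r qe (Pool.V1E.eL c s r (o 1) qe (Pool.V1E.frH F r q₀ (H 0) (Pool.KSAT.slam F (o 1) ω)) (Pool.KSAT.slam F (o 1) ω)) i.succ| ≤
      2 ^ (C * (u + x + 1)) ∧
    |(Polynomial.derivative (Pool.V1E.hL c s r (o 1) (Pool.V1E.trn r (G 0 (Pool.PB.ptr F J ω))) (Pool.KSAT.slam F (o 1) ω)
        (some i))).eval (Pool.PB.Trl.rt F (o 1) ω) -
      Pool.V1E.Xe r qe (Pool.V1E.eL c s r (o 1) qe (Pool.V1E.frH F r q₀ (H 0) (Pool.KSAT.slam F (o 1) ω)) (Pool.KSAT.slam F (o 1) ω)) i.succ| ≤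
      2 ^ (C * (u + x + 1)) / 2 ^ MB := by
  obtain ⟨C₃, hC₃, hhl⟩ := Pool.V1E.hL_near D
  obtain ⟨C₄, hC₄⟩ := pow_unbounded_of_one_lt C₃ (one_lt_two (α := ℝ))
  refine ⟨C₄ + 3, ?_⟩
  intro m J F c r n M ar MB q₀ Q x u p e s qe o z g gc gT g₀ B G T H TH Ht W ω hω i
  have h1J : o 1 ≤ J := by have := W.oJ; have := W.o3; have := W.o2; omega
  have hfr := W.fr hω
  obtain ⟨L, hL'⟩ : ∃ L, L = Pool.KSAT.slam F (o 1) ω := ⟨_, rfl⟩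
  have hco : Pool.D2R.co q₀ L = Pool.KSAT.slam F (o 0) ω := by
    have h2 := Pool.D2R.co_slam F (w := o 0) (a := o 1) (by rw [W.o1]; omega) h1J ω
    rw [hL']
    rwa [W.o1, Nat.add_sub_cancel_left, ← W.o1] at h2
  have hu := Pool.PB.Trl.rt_mem F (o 1) ω
  have hU1 : (1 : ℝ) ≤ 2 ^ u := one_le_pow₀ (by norm_num)
  have hfs := hhl (c := c) (s := s) (d := r) (wb := o 0) (q₀ := q₀) (H₀ := H 0) (L := L)
    (M := 2 ^ u / 2 ^ g₀ 0 i) (i := i) (W.dH 0 _ _) (fun τ hτ => by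
      rw [hco]
      exact W.own0 ω hω i i.2 τ hτ) (Pool.PB.Trl.rt F (o 1) ω) hu
  rw [← W.o1, hL', hfr] at hfs
  obtain ⟨a1, a2, a3⟩ := hfs
  have hfs0 := (hhl (c := c) (s := s) (d := r) (wb := o 0) (q₀ := q₀) (H₀ := H 0) (L := L)
    (M := 2 ^ u / 2 ^ g₀ 0 i) (i := i) (W.dH 0 _ _) (fun τ hτ => by
      rw [hco]
      exact W.own0 ω hω i i.2 τ hτ) 0 ⟨le_rfl, zero_le_one⟩).1
  rw [← W.o1, hL', hfr] at hfs0
  rw [hfr]
  obtain ⟨Λ, hΛ⟩ : ∃ Λ : ℝ, Λ = C₃ * (2 ^ s i * (2 ^ u / 2 ^ g₀ 0 i) / 2 ^ q₀) := ⟨_, rfl⟩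
  rw [← hΛ] at a1 a2 a3 hfs0
  have hΛ1 : Λ ≤ 2 ^ (C₄ + u + x) := by
    have h2 : (2 : ℝ) ^ s i / 2 ^ (g₀ 0 i + q₀) ≤ 2 ^ x := Pool.V1E.p2_div (W.n0 i i.2)
    have e1 : Λ = C₃ * (2 ^ u * (2 ^ s i / 2 ^ (g₀ 0 i + q₀))) := by
      rw [hΛ, pow_add]
      field_simp
    have e2 : (2 : ℝ) ^ (C₄ + u + x) = 2 ^ C₄ * (2 ^ u * 2 ^ x) := by
      rw [pow_add, pow_add, mul_assoc]
    rw [e1, e2]
    exact mul_le_mul hC₄.le (mul_le_mul_of_nonneg_left h2 (by positivity)) (by positivity)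
      (by positivity)
  have hΛ0 : 0 ≤ Λ := (abs_nonneg _).trans a1
  have hq0 : Λ / 2 ^ q₀ ≤ 2 ^ (C₄ + u + x) / 2 ^ (MB + Q) :=
    div_le_div₀ (by positivity) hΛ1 (by positivity) (pow_le_pow_right₀ (by norm_num) W.q0M)
  have hqe : (1 : ℝ) / 2 ^ qe i ≤ 1 / 2 ^ (MB + Q) :=
    one_div_le_one_div_of_le (by positivity) (pow_le_pow_right₀ (by norm_num) (W.qeM i))
  have hsum : Λ / 2 ^ q₀ + 1 / 2 ^ qe i ≤ 2 ^ (C₄ + u + x + 1) / 2 ^ (MB + Q) := by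
    refine (add_le_add hq0 hqe).trans ?_
    rw [← add_div]
    refine div_le_div_of_nonneg_right ?_ (by positivity)
    have h1 : (1 : ℝ) ≤ 2 ^ (C₄ + u + x) := one_le_pow₀ (by norm_num)
    rw [pow_succ]
    linarith
  have hexp : C₄ + u + x + 2 ≤ (C₄ + 3) * (u + x + 1) := by nlinarith
  have hY : (2 : ℝ) ^ (C₄ + u + x + 2) ≤ 2 ^ ((C₄ + 3) * (u + x + 1)) :=
    pow_le_pow_right₀ (by norm_num) hexp
  -- the position
  have hpn := Pool.V1E.pos_near (Q := Q) (qe := qe i) hu a3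
    (sr := Pool.V1E.scF F c s r (o 1) q₀ Q qe (G 0) (H 0) ω i) (by
      unfold Pool.V1E.scF Pool.V1E.sC
      rw [hfr]
      rfl)
  have hfrc : Pool.V1E.frc c s r Q (Pool.V1E.trn r (G 0 (Pool.PB.ptr F J ω))) (Pool.GEN.bt F ω) i =
      Int.fract (2 ^ Q * (Pool.V1E.hL c s r (o 1) (Pool.V1E.trn r (G 0 (Pool.PB.ptr F J ω))) (Pool.KSAT.slam F (o 1) ω)
        (some i)).eval (Pool.PB.Trl.rt F (o 1) ω)) := by
    rw [Pool.V1E.hL_yp h1J]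
    rfl
  rw [hfrc]
  have hXe : Pool.V1E.Xe r qe (Pool.V1E.eL c s r (o 1) qe (Pool.V1E.trn r (G 0 (Pool.PB.ptr F J ω))) (Pool.KSAT.slam F (o 1) ω)) i.succ =
      ((⌊2 ^ qe i * (Polynomial.derivative (Pool.V1E.hL c s r (o 1) (Pool.V1E.trn r (G 0 (Pool.PB.ptr F J ω)))
        (Pool.KSAT.slam F (o 1) ω) (some i))).eval 0⌋ : ℤ) : ℝ) / 2 ^ qe i := rfl
  rw [hXe]
  obtain ⟨v0, hv0⟩ : ∃ v0 : ℝ, v0 = (Polynomial.derivative (Pool.V1E.hL c s r (o 1)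
    (Pool.V1E.trn r (G 0 (Pool.PB.ptr F J ω))) (Pool.KSAT.slam F (o 1) ω) (some i))).eval 0 := ⟨_, rfl⟩
  rw [← hv0] at a2 hfs0 ⊢
  have hv : |((⌊2 ^ qe i * v0⌋ : ℤ) : ℝ) / 2 ^ qe i - v0| ≤ 1 / 2 ^ qe i := by
    have h1 := Int.floor_le ((2 : ℝ) ^ qe i * v0)
    have h2 := Int.lt_floor_add_one ((2 : ℝ) ^ qe i * v0)
    have hp : (0 : ℝ) < 2 ^ qe i := by positivity
    have e1 : ((⌊2 ^ qe i * v0⌋ : ℤ) : ℝ) / 2 ^ qe i - v0 =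
        (((⌊2 ^ qe i * v0⌋ : ℤ) : ℝ) - 2 ^ qe i * v0) / 2 ^ qe i := by
      field_simp
    rw [e1, abs_div, abs_of_pos hp]
    refine div_le_div_of_nonneg_right ?_ hp.le
    rw [abs_le]
    constructor <;> linarith
  refine ⟨hpn.1, ?_, ?_, ?_⟩
  · refine hpn.2.trans ?_
    calc 2 * (2 ^ Q * (Λ / 2 ^ q₀ + 1 / 2 ^ qe i)) ≤
        2 * (2 ^ Q * (2 ^ (C₄ + u + x + 1) / 2 ^ (MB + Q))) := by
          refine mul_le_mul_of_nonneg_left (mul_le_mul_of_nonneg_left hsum (by positivity))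
            (by norm_num)
      _ = 2 ^ (C₄ + u + x + 2) / 2 ^ MB := by
          rw [pow_add 2 MB Q, pow_succ 2 (C₄ + u + x + 1)]
          field_simp
      _ ≤ _ := div_le_div_of_nonneg_right hY (by positivity)
  · have h1 : |((⌊2 ^ qe i * v0⌋ : ℤ) : ℝ) / 2 ^ qe i| ≤ |v0| + 1 / 2 ^ qe i := by
      have := abs_sub_abs_le_abs_sub (((⌊2 ^ qe i * v0⌋ : ℤ) : ℝ) / 2 ^ qe i) v0
      linarith
    have h2 : (1 : ℝ) / 2 ^ qe i ≤ 1 := by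
      rw [div_le_one (by positivity)]
      exact one_le_pow₀ (by norm_num)
    have h3 : (1 : ℝ) ≤ 2 ^ (C₄ + u + x) := one_le_pow₀ (by norm_num)
    have h4 : (2 : ℝ) ^ (C₄ + u + x) * 2 ≤ 2 ^ ((C₄ + 3) * (u + x + 1)) := by
      rw [← pow_succ]
      exact pow_le_pow_right₀ (by norm_num) (by omega)
    linarith
  · rw [abs_sub_comm] at hv
    have h1 : |(Polynomial.derivative (Pool.V1E.hL c s r (o 1) (Pool.V1E.trn r (G 0 (Pool.PB.ptr F J ω)))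
        (Pool.KSAT.slam F (o 1) ω) (some i))).eval (Pool.PB.Trl.rt F (o 1) ω) -
        ((⌊2 ^ qe i * v0⌋ : ℤ) : ℝ) / 2 ^ qe i| ≤ Λ / 2 ^ q₀ + 1 / 2 ^ qe i := by
      have := abs_add_le ((Polynomial.derivative (Pool.V1E.hL c s r (o 1) (Pool.V1E.trn r (G 0 (Pool.PB.ptr F J ω)))
        (Pool.KSAT.slam F (o 1) ω) (some i))).eval (Pool.PB.Trl.rt F (o 1) ω) - v0)
        (v0 - ((⌊2 ^ qe i * v0⌋ : ℤ) : ℝ) / 2 ^ qe i)
      rw [sub_add_sub_cancel] at this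
      linarith
    refine h1.trans (hsum.trans ?_)
    have h2 : (2 : ℝ) ^ (C₄ + u + x + 1) ≤ 2 ^ ((C₄ + 3) * (u + x + 1)) :=
      pow_le_pow_right₀ (by norm_num) (by omega)
    exact div_le_div₀ (by positivity) h2 (by positivity)
      (pow_le_pow_right₀ (by norm_num) (by omega))

end Pool.W.V1E
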