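import Pool.Agent.H73.D2.Tli
import Pool.Agent.H31.W3.H73.D2.Tlc
import Pool.Agent.H31.W3.H73.D2.Tle
import Pool.Agent.H31.W1.H80.GEN.Chn

/-!
# The value, the velocity and the closed gradient at the position of the sample
-/

set_option autoImplicit false

namespace Pool.W.V1E

open Pool.V1E

open Finset Real MvPolynomial
open Pool.KA Pool.KSAT Pool.PB Pool.GEN Pool.D2R Pool.D2G30 Pool.ISO Pool.CHT Pool.CHX
open Pool.PB.Trl (rt rt_mem t_rt)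

section

variable {m J : ℕ} {F : Pool.KA.Fam m J} {c : ℕ → Fin m} {r D n M ar MB q₀ Q x u p e : ℕ}
  {s : ℕ → ℕ} {qe : Fin r → ℕ} {o : ℕ → ℕ} {z g gc gT g₀ : ℕ → ℕ → ℕ} {B : F.Ω → Prop}
  {G T : ℕ → Pool.GEN.PtT F → ℕ → MvPolynomial (Option (Fin m)) ℝ}
  {H TH : ℕ → Pool.GEN.LnT F → ℕ → MvPolynomial (Option (Fin m)) ℝ}
  {Ht : Pool.GEN.LnT F → MvPolynomial (Option (Fin m)) ℝ}

/-- **The value.** -/
theorem W_val (W : Pool.W.V1E.Wdat F c r D n M ar MB q₀ Q x u p e s qe o z g gc gT g₀ B G T H TH Ht)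
    {ω : F.Ω} (hω : B ω) :
    |(Pool.V1E.nL c s r (o 1) (H 1 (Pool.KSAT.slam F (o 1) ω) r) (Pool.KSAT.slam F (o 1) ω)).eval (Pool.PB.Trl.rt F (o 1) ω) -
      eval (Pool.V1E.frc c s r Q (Pool.V1E.trn r (G 0 (Pool.PB.ptr F J ω))) (Pool.GEN.bt F ω)) (Pool.V1E.PfR c s r Q (Pool.GEN.bt F ω none)
        (fun i => ⌊2 ^ Q * Pool.V1E.yp c s r (Pool.V1E.trn r (G 0 (Pool.PB.ptr F J ω))) (Pool.GEN.bt F ω) (some i)⌋)
        (Pool.V1E.trn r (G 0 (Pool.PB.ptr F J ω))) (G 2 (Pool.PB.ptr F J ω) r - G 1 (Pool.PB.ptr F J ω) r))| ≤ 2 ^ x / 2 ^ MB := by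
  have h1J : o 1 ≤ J := by have := W.oJ; have := W.o3; have := W.o2; omega
  have e : (fun o' => (Pool.GEN.lc (o 1) (Pool.KSAT.slam F (o 1) ω) o').eval (Pool.PB.Trl.rt F (o 1) ω)) = Pool.GEN.bt F ω :=
    funext fun o' => Pool.GEN.eval_lc F h1J ω o'
  have hR : Pool.GEN.DepC c r (G 2 (Pool.PB.ptr F J ω) r - G 1 (Pool.PB.ptr F J ω) r) := fun b b' h0 h1 => by
    rw [map_sub, map_sub, W.pG 2 _ r b b' h0 h1, W.pG 1 _ r b b' h0 h1]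
  rw [Pool.V1E.pf_frc W.hcr (Pool.V1E.trn_dep (W.pG 0 _)) (Pool.GEN.bt F ω) hR]
  unfold Pool.V1E.nL
  rw [Polynomial.eval_mul, Polynomial.eval_C, Polynomial.eval_sub, Pool.D2G30.eval_aev, e,
    Pool.GEN.eval_lc F h1J ω, ← W.cl1 ω hω, map_sub]
  have e1 : 2 ^ s r * (Pool.GEN.bt F ω (some (c r)) - eval (Pool.GEN.bt F ω) (G 1 (Pool.PB.ptr F J ω) r)) -
      2 ^ s r * (eval (Pool.GEN.bt F ω) (G 2 (Pool.PB.ptr F J ω) r) - eval (Pool.GEN.bt F ω) (G 1 (Pool.PB.ptr F J ω) r)) =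
      2 ^ s r * (F.x ω (c r) - eval (Pool.GEN.bt F ω) (G 2 (Pool.PB.ptr F J ω) r)) := by
    show 2 ^ s r * (F.x ω (c r) - _) - _ = _
    ring
  rw [e1, abs_mul, abs_of_pos (show (0 : ℝ) < 2 ^ s r by positivity)]
  refine (mul_le_mul_of_nonneg_left (W.pos2 ω hω) (by positivity)).trans ?_
  rw [mul_one_div, div_le_div_iff₀ (by positivity) (by positivity), ← pow_add, ← pow_add]
  exact pow_le_pow_right₀ (by norm_num) (by have := W.m2; omega)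

/-- **The velocity.** -/
theorem W_vel (W : Pool.W.V1E.Wdat F c r D n M ar MB q₀ Q x u p e s qe o z g gc gT g₀ B G T H TH Ht)
    {ω : F.Ω} (hω : B ω) :
    |(Polynomial.derivative (Pool.V1E.nL c s r (o 1) (H 1 (Pool.KSAT.slam F (o 1) ω) r)
        (Pool.KSAT.slam F (o 1) ω))).eval (Pool.PB.Trl.rt F (o 1) ω) -
      (eval (Pool.V1E.frc c s r Q (Pool.V1E.trn r (G 0 (Pool.PB.ptr F J ω))) (Pool.GEN.bt F ω)) (Pool.V1E.PgR c s r (o 1) Q (Pool.GEN.bt F ω none)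
        (fun i => ⌊2 ^ Q * Pool.V1E.yp c s r (Pool.V1E.trn r (G 0 (Pool.PB.ptr F J ω))) (Pool.GEN.bt F ω) (some i)⌋)
        (Pool.V1E.trn r (G 0 (Pool.PB.ptr F J ω))) (G 2 (Pool.PB.ptr F J ω) r - G 1 (Pool.PB.ptr F J ω) r) 0) +
      ∑ i : Fin r, (Polynomial.derivative (Pool.V1E.hL c s r (o 1) (Pool.V1E.trn r (G 0 (Pool.PB.ptr F J ω)))
        (Pool.KSAT.slam F (o 1) ω) (some i))).eval (Pool.PB.Trl.rt F (o 1) ω) *
        eval (Pool.V1E.frc c s r Q (Pool.V1E.trn r (G 0 (Pool.PB.ptr F J ω))) (Pool.GEN.bt F ω)) (Pool.V1E.PgR c s r (o 1) Q (Pool.GEN.bt F ω none)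
        (fun i => ⌊2 ^ Q * Pool.V1E.yp c s r (Pool.V1E.trn r (G 0 (Pool.PB.ptr F J ω))) (Pool.GEN.bt F ω) (some i)⌋)
        (Pool.V1E.trn r (G 0 (Pool.PB.ptr F J ω))) (G 2 (Pool.PB.ptr F J ω) r - G 1 (Pool.PB.ptr F J ω) r) i.succ))| ≤
      2 ^ (u + x) / 2 ^ (MB - Q) := by
  have h1J : o 1 ≤ J := by have := W.oJ; have := W.o3; have := W.o2; omega
  have hR : Pool.GEN.DepC c r (G 2 (Pool.PB.ptr F J ω) r - G 1 (Pool.PB.ptr F J ω) r) := fun b b' h0 h1 => by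
    rw [map_sub, map_sub, W.pG 2 _ r b b' h0 h1, W.pG 1 _ r b b' h0 h1]
  -- the right side
  have h1 := Pool.V1E.der_own (s := s) (P := Pool.V1E.trn r (G 0 (Pool.PB.ptr F J ω))) W.hcr (Pool.V1E.trn_dep (W.pG 0 _)) h1J ω hR
  rw [Fintype.sum_option] at h1
  have e1 : (Polynomial.derivative (Pool.V1E.hL c s r (o 1) (Pool.V1E.trn r (G 0 (Pool.PB.ptr F J ω)))
      (Pool.KSAT.slam F (o 1) ω) none)).eval (Pool.PB.Trl.rt F (o 1) ω) = 1 / 2 ^ o 1 := by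
    show (Polynomial.derivative (Pool.GEN.lc (o 1) (Pool.KSAT.slam F (o 1) ω) none)).eval _ = _
    rw [Pool.GEN.der_lc, Polynomial.eval_C]
    show 1 / 2 ^ o 1 * 1 = _
    ring
  have e2 : (fun o' => (Pool.V1E.hL c s r (o 1) (Pool.V1E.trn r (G 0 (Pool.PB.ptr F J ω))) (Pool.KSAT.slam F (o 1) ω) o').eval
      (Pool.PB.Trl.rt F (o 1) ω)) = Pool.V1E.yp c s r (Pool.V1E.trn r (G 0 (Pool.PB.ptr F J ω))) (Pool.GEN.bt F ω) :=
    funext fun o' => Pool.V1E.hL_yp h1J _ ω o'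
  rw [e1, e2] at h1
  rw [Pool.V1E.pg0_frc]
  simp only [Pool.V1E.pgs_frc]
  have e3 : (2 ^ s r * (eval (Pool.V1E.yp c s r (Pool.V1E.trn r (G 0 (Pool.PB.ptr F J ω))) (Pool.GEN.bt F ω)) (pderiv none
      (Pool.D2G30.pull c s (Pool.V1E.trn r (G 0 (Pool.PB.ptr F J ω))) r (G 2 (Pool.PB.ptr F J ω) r - G 1 (Pool.PB.ptr F J ω) r))) *
        (1 / 2 ^ o 1)) +
      ∑ i : Fin r, (Polynomial.derivative (Pool.V1E.hL c s r (o 1) (Pool.V1E.trn r (G 0 (Pool.PB.ptr F J ω)))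
        (Pool.KSAT.slam F (o 1) ω) (some i))).eval (Pool.PB.Trl.rt F (o 1) ω) * (2 ^ s r *
        eval (Pool.V1E.yp c s r (Pool.V1E.trn r (G 0 (Pool.PB.ptr F J ω))) (Pool.GEN.bt F ω)) (pderiv (some i)
          (Pool.D2G30.pull c s (Pool.V1E.trn r (G 0 (Pool.PB.ptr F J ω))) r (G 2 (Pool.PB.ptr F J ω) r - G 1 (Pool.PB.ptr F J ω) r))))) =
      2 ^ s r * (1 / 2 ^ o 1 * Pool.D2R.dd (G 2 (Pool.PB.ptr F J ω) r - G 1 (Pool.PB.ptr F J ω) r) (Pool.GEN.bt F ω) (Pool.GEN.bd F ω)) := by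
    rw [h1, mul_add, Finset.mul_sum]
    congr 1
    refine Finset.sum_congr rfl fun i _ => ?_
    ring
  rw [e3, Pool.D2R.dd_sub]
  -- the left side
  have e4 : (Polynomial.derivative (Pool.V1E.nL c s r (o 1) (H 1 (Pool.KSAT.slam F (o 1) ω) r)
      (Pool.KSAT.slam F (o 1) ω))).eval (Pool.PB.Trl.rt F (o 1) ω) =
      2 ^ s r * (1 / 2 ^ o 1 * Pool.GEN.bd F ω (some (c r)) -
        1 / 2 ^ o 1 * Pool.D2R.dd (G 1 (Pool.PB.ptr F J ω) r) (Pool.GEN.bt F ω) (Pool.GEN.bd F ω)) := by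
    unfold Pool.V1E.nL
    rw [Polynomial.derivative_C_mul, Polynomial.eval_mul, Polynomial.eval_C,
      Polynomial.derivative_sub, Polynomial.eval_sub, Pool.GEN.der_lc, Polynomial.eval_C,
      Pool.D2R.dd_own h1J ω (H 1 (Pool.KSAT.slam F (o 1) ω) r), ← W.cl1 ω hω]
  rw [e4]
  have e5 : 2 ^ s r * (1 / 2 ^ o 1 * Pool.GEN.bd F ω (some (c r)) -
        1 / 2 ^ o 1 * Pool.D2R.dd (G 1 (Pool.PB.ptr F J ω) r) (Pool.GEN.bt F ω) (Pool.GEN.bd F ω)) -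
      2 ^ s r * (1 / 2 ^ o 1 * (Pool.D2R.dd (G 2 (Pool.PB.ptr F J ω) r) (Pool.GEN.bt F ω) (Pool.GEN.bd F ω) -
        Pool.D2R.dd (G 1 (Pool.PB.ptr F J ω) r) (Pool.GEN.bt F ω) (Pool.GEN.bd F ω))) =
      2 ^ s r * (1 / 2 ^ o 1) * (Pool.GEN.bd F ω (some (c r)) -
        Pool.D2R.dd (G 2 (Pool.PB.ptr F J ω) r) (Pool.GEN.bt F ω) (Pool.GEN.bd F ω)) := by ring
  rw [e5, abs_mul, abs_of_pos (show (0 : ℝ) < 2 ^ s r * (1 / 2 ^ o 1) by positivity)]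
  refine (mul_le_mul_of_nonneg_left (W.vel2 ω hω) (by positivity)).trans ?_
  have h2 : (2 : ℝ) ^ o 2 = 2 ^ o 1 * 2 ^ Q := by rw [W.o2, pow_add]
  have e6 : 2 ^ s r * (1 / 2 ^ o 1) * (2 ^ u * 2 ^ o 2 / 2 ^ g₀ 2 r) =
      2 ^ u * (2 ^ (s r + Q) / (2 : ℝ) ^ g₀ 2 r) := by
    rw [h2, pow_add]
    field_simp
  rw [e6, pow_add 2 u x, mul_div_assoc]
  refine mul_le_mul_of_nonneg_left ?_ (by positivity)
  rw [div_le_div_iff₀ (by positivity) (by positivity), ← pow_add, ← pow_add]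
  exact pow_le_pow_right₀ (by norm_num) (by have := W.m2; have := W.QM; omega)

end

/-- **The closed gradient.** -/
theorem W_cl (D r : ℕ) : ∃ C : ℕ, ∀ {m J : ℕ} {F : Pool.KA.Fam m J} {c : ℕ → Fin m}
    {n M ar MB q₀ Q x u p e : ℕ} {s : ℕ → ℕ} {qe : Fin r → ℕ} {o : ℕ → ℕ}
    {z g gc gT g₀ : ℕ → ℕ → ℕ} {B : F.Ω → Prop}
    {G T : ℕ → Pool.GEN.PtT F → ℕ → MvPolynomial (Option (Fin m)) ℝ}
    {H TH : ℕ → Pool.GEN.LnT F → ℕ → MvPolynomial (Option (Fin m)) ℝ}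
    {Ht : Pool.GEN.LnT F → MvPolynomial (Option (Fin m)) ℝ},
    Pool.W.V1E.Wdat F c r D n M ar MB q₀ Q x u p e s qe o z g gc gT g₀ B G T H TH Ht → ∀ ω, B ω →
    ∀ i : Fin r, |(Pool.V1E.gL c s r (o 1) (Pool.V1E.trn r (G 0 (Pool.PB.ptr F J ω)))
      (Ht (Pool.KSAT.slam F (o 1) ω) - H 1 (Pool.KSAT.slam F (o 1) ω) r) (Pool.KSAT.slam F (o 1) ω) i).eval (Pool.PB.Trl.rt F (o 1) ω) -
      eval (Pool.V1E.frc c s r Q (Pool.V1E.trn r (G 0 (Pool.PB.ptr F J ω))) (Pool.GEN.bt F ω)) (Pool.V1E.PgR c s r (o 1) Q (Pool.GEN.bt F ω none)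
        (fun i => ⌊2 ^ Q * Pool.V1E.yp c s r (Pool.V1E.trn r (G 0 (Pool.PB.ptr F J ω))) (Pool.GEN.bt F ω) (some i)⌋)
        (Pool.V1E.trn r (G 0 (Pool.PB.ptr F J ω))) (G 2 (Pool.PB.ptr F J ω) r - G 1 (Pool.PB.ptr F J ω) r) i.succ)| ≤
      2 ^ (C * (u + x + 1)) / 2 ^ (MB - Q) := by
  obtain ⟨C, hcl⟩ := Pool.W.V1E.cl_near D r
  refine ⟨C + 3, ?_⟩
  intro m J F c n M ar MB q₀ Q x u p e s qe o z g gc gT g₀ B G T H TH Ht W ω hω i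
  have h1J : o 1 ≤ J := by have := W.oJ; have := W.o3; have := W.o2; omega
  have h12 : o 1 ≤ o 2 := by have := W.o2; omega
  have h23 := W.o3
  have h01 : o 0 ≤ o 1 := by have := W.o1; omega
  obtain ⟨P, hP⟩ : ∃ P, P = Pool.V1E.trn r (G 0 (Pool.PB.ptr F J ω)) := ⟨_, rfl⟩
  rw [← hP]
  have hPp : ∀ l, Pool.GEN.DepC c l (P l) := fun l => by
    rw [hP]
    exact Pool.V1E.trn_dep (W.pG 0 _) l
  have hPe : ∀ l < r, P l = G 0 (Pool.PB.ptr F J ω) l := fun l hl => by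
    rw [hP]
    exact Pool.V1E.trn_eq hl
  obtain ⟨y, hy⟩ : ∃ y, y = Pool.V1E.yp c s r P (Pool.GEN.bt F ω) := ⟨_, rfl⟩
  obtain ⟨V, hV⟩ : ∃ V, V = Pool.D2G30.vec c s P y (some i) := ⟨_, rfl⟩
  obtain ⟨q0, q1⟩ := Pool.V1E.hp_yp (s := s) W.hcr hPp (Pool.GEN.bt F ω)
  rw [← hy] at q0 q1
  have e2 : (fun o' => (Pool.V1E.hL c s r (o 1) P (Pool.KSAT.slam F (o 1) ω) o').eval (Pool.PB.Trl.rt F (o 1) ω)) = y := by
    rw [hy]
    exact funext fun o' => Pool.V1E.hL_yp h1J _ ω o'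
  have hd1 : Pool.GEN.DepC c r (Ht (Pool.KSAT.slam F (o 1) ω) - H 1 (Pool.KSAT.slam F (o 1) ω) r) := fun b b' h0 h1 => by
    rw [map_sub, map_sub, W.pt _ b b' h0 h1, W.pH 1 _ r b b' h0 h1]
  have hd2 : Pool.GEN.DepC c r (G 2 (Pool.PB.ptr F J ω) r - G 1 (Pool.PB.ptr F J ω) r) := fun b b' h0 h1 => by
    rw [map_sub, map_sub, W.pG 2 _ r b b' h0 h1, W.pG 1 _ r b b' h0 h1]
  have e3 : (Pool.V1E.gL c s r (o 1) P (Ht (Pool.KSAT.slam F (o 1) ω) - H 1 (Pool.KSAT.slam F (o 1) ω) r)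
      (Pool.KSAT.slam F (o 1) ω) i).eval (Pool.PB.Trl.rt F (o 1) ω) =
      2 ^ s r * Pool.D2R.dd (Ht (Pool.KSAT.slam F (o 1) ω) - H 1 (Pool.KSAT.slam F (o 1) ω) r) (Pool.GEN.bt F ω) V := by
    unfold Pool.V1E.gL
    rw [Polynomial.eval_mul, Polynomial.eval_C, Pool.D2G30.eval_aev, e2, Pool.D2G30.pd_pull, ← hV,
      Pool.V1E.dd_pt hd1 q0 q1]
  have e4 : eval (Pool.V1E.frc c s r Q P (Pool.GEN.bt F ω)) (Pool.V1E.PgR c s r (o 1) Q (Pool.GEN.bt F ω none)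
        (fun i => ⌊2 ^ Q * Pool.V1E.yp c s r P (Pool.GEN.bt F ω) (some i)⌋) P
        (G 2 (Pool.PB.ptr F J ω) r - G 1 (Pool.PB.ptr F J ω) r) i.succ) =
      2 ^ s r * Pool.D2R.dd (G 2 (Pool.PB.ptr F J ω) r - G 1 (Pool.PB.ptr F J ω) r) (Pool.GEN.bt F ω) V := by
    rw [Pool.V1E.pgs_frc, ← hy, Pool.D2G30.pd_pull, ← hV, Pool.V1E.dd_pt hd2 q0 q1]
  rw [e3, e4, Pool.D2R.dd_sub, Pool.D2R.dd_sub, W.cl1 ω hω, ← mul_sub, sub_sub_sub_cancel_right, abs_mul,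
    abs_of_pos (show (0 : ℝ) < 2 ^ s r by positivity)]
  obtain ⟨q03, hq03, hz03⟩ := W.z03
  obtain ⟨q23, hq23, hz23⟩ := W.z23
  have hV0 : V none = 0 := by
    rw [hV, Pool.D2G30.vec_none, if_neg (by simp)]
  have hVc : ∀ j < r, |V (some (c j)) - Pool.D2R.dd (G 0 (Pool.PB.ptr F J ω) j) (Pool.GEN.bt F ω) V| ≤ 1 / 2 ^ s j := by
    intro j hj
    have h1 := Pool.D2G30.vec_nat (s := s) W.hcr hPp y (some i) hj
    rw [← hV, Pool.V1E.dd_pt (hPp j) q0 (fun l hl => q1 l (by omega)), hPe j hj] at h1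
    rw [h1]
    split_ifs
    · rw [abs_of_pos (by positivity)]
    · rw [abs_zero]
      positivity
  have hmain := hcl W.hcr W.bal W.n3 hq03 hq23 (by omega) (by omega) h23 W.oa W.oJ hz03 hz23
    W.dG W.pG W.ch3 W.ro W.hTH W.n3a W.n3b W.n3c ω hω V hV0 hVc
  refine (mul_le_mul_of_nonneg_left hmain (by positivity)).trans ?_
  have k1 : 2 ^ s r * (2 ^ (ar - o 1) / (2 : ℝ) ^ p) ≤ 2 ^ x / 2 ^ (MB - Q) := by
    rw [← mul_div_assoc, ← pow_add, div_le_div_iff₀ (by positivity) (by positivity), ← pow_add,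
      ← pow_add]
    exact pow_le_pow_right₀ (by norm_num) (by have := W.mp; omega)
  have k2 : 2 ^ s r * (2 ^ (o 3 - o 1) / (2 : ℝ) ^ g₀ 3 r) ≤ 2 ^ x / 2 ^ (MB - Q) := by
    rw [← mul_div_assoc, ← pow_add, div_le_div_iff₀ (by positivity) (by positivity), ← pow_add,
      ← pow_add]
    exact pow_le_pow_right₀ (by norm_num) (by have := W.m3; omega)
  have k3 : 2 ^ s r * (2 ^ (o 3 - o 1) / (2 : ℝ) ^ (g 2 r + (o 3 - o 2))) ≤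
      2 ^ x / 2 ^ (MB - Q) := by
    rw [← mul_div_assoc, ← pow_add, div_le_div_iff₀ (by positivity) (by positivity), ← pow_add,
      ← pow_add]
    exact pow_le_pow_right₀ (by norm_num) (by
      have := W.m2'
      have := W.o2
      have := W.QM
      omega)
  have hC0 : (0 : ℝ) ≤ 2 ^ (C * (u + x + 1)) := by positivity
  calc 2 ^ s r * (2 ^ (C * (u + x + 1)) * (2 ^ (ar - o 1) / 2 ^ p + 2 ^ (o 3 - o 1) / 2 ^ g₀ 3 r +
        2 ^ (o 3 - o 1) / 2 ^ (g 2 r + (o 3 - o 2)))) =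
      2 ^ (C * (u + x + 1)) * (2 ^ s r * (2 ^ (ar - o 1) / (2 : ℝ) ^ p) +
        2 ^ s r * (2 ^ (o 3 - o 1) / (2 : ℝ) ^ g₀ 3 r) +
        2 ^ s r * (2 ^ (o 3 - o 1) / (2 : ℝ) ^ (g 2 r + (o 3 - o 2)))) := by ring
    _ ≤ 2 ^ (C * (u + x + 1)) * (2 ^ x / 2 ^ (MB - Q) + 2 ^ x / 2 ^ (MB - Q) +
        2 ^ x / 2 ^ (MB - Q)) := mul_le_mul_of_nonneg_left (by linarith) hC0
    _ = 3 * 2 ^ (C * (u + x + 1) + x) / 2 ^ (MB - Q) := by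
        rw [pow_add]
        ring
    _ ≤ 2 ^ ((C + 3) * (u + x + 1)) / 2 ^ (MB - Q) := by
        refine div_le_div_of_nonneg_right ?_ (by positivity)
        calc (3 : ℝ) * 2 ^ (C * (u + x + 1) + x) ≤ 2 ^ 2 * 2 ^ (C * (u + x + 1) + x) :=
              mul_le_mul_of_nonneg_right (by norm_num) (by positivity)
          _ = 2 ^ (2 + (C * (u + x + 1) + x)) := by rw [← pow_add]
          _ ≤ _ := pow_le_pow_right₀ (by norm_num) (by nlinarith)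

end Pool.W.V1E
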