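import Pool.Agent.H73.D2.Tlo
import Pool.Agent.H31.W3.H73.D2.Tle
import Pool.Agent.H3.W.Nlp
import Pool.Agent.H31.W1.H80.GEN.Chn

/-!
# The heights in the tube, the corner, the gradient of the closed chart on the frame

`hL_near2`: the heights are almost affine for `|u| ≤ 2`. `W_tube`: own heights against the cell of
the tube. `W_crn`: corner and centre against the cell of the tube. `W_lip1`: the gradient of the closed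
chart of the window on the boxes of the frame.
-/

set_option autoImplicit false

namespace Pool.W.V1E

open Pool.V1E

open Finset Real MvPolynomial
open Pool.KA Pool.KSAT Pool.PB Pool.GEN Pool.D2R Pool.D2G30 Pool.ISO Pool.CHT Pool.CHX
open Pool.PB.Trl (rt rt_mem t_rt)


/-- **The own heights against the cell of the tube**, for `|u| ≤ 2`; **the corner and the centre.** -/
theorem W_tube (D : ℕ) : ∃ C : ℕ, ∀ {m J : ℕ} {F : Pool.KA.Fam m J} {c : ℕ → Fin m}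
    {r n M ar MB q₀ Q x u p e : ℕ} {s : ℕ → ℕ} {qe : Fin r → ℕ} {o : ℕ → ℕ}
    {z g gc gT g₀ : ℕ → ℕ → ℕ} {B : F.Ω → Prop}
    {G T : ℕ → Pool.GEN.PtT F → ℕ → MvPolynomial (Option (Fin m)) ℝ}
    {H TH : ℕ → Pool.GEN.LnT F → ℕ → MvPolynomial (Option (Fin m)) ℝ}
    {Ht : Pool.GEN.LnT F → MvPolynomial (Option (Fin m)) ℝ},
    Pool.W.V1E.Wdat F c r D n M ar MB q₀ Q x u p e s qe o z g gc gT g₀ B G T H TH Ht → ∀ ω, B ω →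
    ∀ i : Fin r, (∀ v : ℝ, |v| ≤ 2 →
      |2 ^ Q * (Pool.V1E.hL c s r (o 1) (Pool.V1E.frH F r q₀ (H 0) (Pool.KSAT.slam F (o 1) ω)) (Pool.KSAT.slam F (o 1) ω) (some i)).eval v -
        (Pool.V1E.cL c s r (o 1) Q (Pool.V1E.frH F r q₀ (H 0) (Pool.KSAT.slam F (o 1) ω)) (Pool.KSAT.slam F (o 1) ω) 0 i +
          2 ^ Q * (v * ((Pool.V1E.eL c s r (o 1) qe (Pool.V1E.frH F r q₀ (H 0) (Pool.KSAT.slam F (o 1) ω))
            (Pool.KSAT.slam F (o 1) ω) i : ℝ) / 2 ^ qe i))) -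
        Pool.V1E.xL c s r (o 1) Q (Pool.V1E.frH F r q₀ (H 0) (Pool.KSAT.slam F (o 1) ω)) (Pool.KSAT.slam F (o 1) ω) i| ≤
        2 ^ (C * (u + x + 1)) / 2 ^ MB) ∧
    |(Pool.V1E.crF F c s r (o 1) Q (G 0) ω i : ℝ) + Pool.V1E.scF F c s r (o 1) q₀ Q qe (G 0) (H 0) ω i -
      (Pool.V1E.cL c s r (o 1) Q (Pool.V1E.frH F r q₀ (H 0) (Pool.KSAT.slam F (o 1) ω)) (Pool.KSAT.slam F (o 1) ω) 0 i +
        2 ^ Q * (Pool.PB.Trl.rt F (o 1) ω * ((Pool.V1E.eL c s r (o 1) qe (Pool.V1E.frH F r q₀ (H 0) (Pool.KSAT.slam F (o 1) ω))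
          (Pool.KSAT.slam F (o 1) ω) i : ℝ) / 2 ^ qe i)))| ≤ 2 ^ (C * (u + x + 1)) / 2 ^ MB := by
  obtain ⟨C₃, hC₃, hhl⟩ := Pool.V1E.hL_near2 D
  obtain ⟨C₄, hC₄⟩ := pow_unbounded_of_one_lt C₃ (one_lt_two (α := ℝ))
  refine ⟨C₄ + 3, ?_⟩
  intro m J F c r n M ar MB q₀ Q x u p e s qe o z g gc gT g₀ B G T H TH Ht W ω hω i
  have h1J : o 1 ≤ J := by have := W.oJ; have := W.o3; have := W.o2; omega
  have hfr := W.fr hω
  obtain ⟨L, hL'⟩ : ∃ L, L = Pool.KSAT.slam F (o 1) ω := ⟨_, rfl⟩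
  have hco : Pool.D2R.co q₀ L = Pool.KSAT.slam F (o 0) ω := by
    have h2 := Pool.D2R.co_slam F (w := o 0) (a := o 1) (by rw [W.o1]; omega) h1J ω
    rw [hL']
    rwa [W.o1, Nat.add_sub_cancel_left, ← W.o1] at h2
  have hu := Pool.PB.Trl.rt_mem F (o 1) ω
  have hfs := fun v hv => hhl (c := c) (s := s) (d := r) (wb := o 0) (q₀ := q₀) (H₀ := H 0) (L := L)
    (M := 2 ^ u / 2 ^ g₀ 0 i) (i := i) (W.dH 0 _ _) (fun τ hτ => by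
      rw [hco]
      exact W.own0 ω hω i i.2 τ hτ) v hv
  rw [← W.o1, hL', hfr] at hfs
  rw [hfr]
  obtain ⟨Λ, hΛ⟩ : ∃ Λ : ℝ, Λ = C₃ * (2 ^ s i * (2 ^ u / 2 ^ g₀ 0 i) / 2 ^ q₀) := ⟨_, rfl⟩
  have hΛ1 : Λ ≤ 2 ^ (C₄ + u + x) := by
    have h2 : (2 : ℝ) ^ s i / 2 ^ (g₀ 0 i + q₀) ≤ 2 ^ x := Pool.V1E.p2_div (W.n0 i i.2)
    have e1 : Λ = C₃ * (2 ^ u * (2 ^ s i / 2 ^ (g₀ 0 i + q₀))) := by
      rw [hΛ, pow_add]
      field_simp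
    have e2 : (2 : ℝ) ^ (C₄ + u + x) = 2 ^ C₄ * (2 ^ u * 2 ^ x) := by
      rw [pow_add, pow_add, mul_assoc]
    rw [e1, e2]
    exact mul_le_mul hC₄.le (mul_le_mul_of_nonneg_left h2 (by positivity)) (by positivity)
      (by positivity)
  have hq0 : Λ / 2 ^ q₀ ≤ 2 ^ (C₄ + u + x) / 2 ^ (MB + Q) :=
    div_le_div₀ (by positivity) hΛ1 (by positivity) (pow_le_pow_right₀ (by norm_num) W.q0M)
  have hqe : (1 : ℝ) / 2 ^ qe i ≤ 1 / 2 ^ (MB + Q) :=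
    one_div_le_one_div_of_le (by positivity) (pow_le_pow_right₀ (by norm_num) (W.qeM i))
  have hsum : Λ / 2 ^ q₀ + 2 * (1 / 2 ^ qe i) ≤ 2 ^ (C₄ + u + x + 2) / 2 ^ (MB + Q) := by
    refine (add_le_add hq0 (mul_le_mul_of_nonneg_left hqe (by norm_num))).trans ?_
    rw [mul_one_div, ← add_div]
    refine div_le_div_of_nonneg_right ?_ (by positivity)
    have h1 : (1 : ℝ) ≤ 2 ^ (C₄ + u + x) := one_le_pow₀ (by norm_num)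
    rw [pow_add 2 (C₄ + u + x) 2]
    linarith
  have hexp : C₄ + u + x + 2 ≤ (C₄ + 3) * (u + x + 1) := by nlinarith
  have hY : (2 : ℝ) ^ (C₄ + u + x + 2) ≤ 2 ^ ((C₄ + 3) * (u + x + 1)) :=
    pow_le_pow_right₀ (by norm_num) hexp
  have hQ : (0 : ℝ) < 2 ^ Q := by positivity
  have hfin : ∀ {y : ℝ}, y ≤ 2 ^ Q * (Λ / 2 ^ q₀ + 2 * (1 / 2 ^ qe i)) →
      y ≤ 2 ^ ((C₄ + 3) * (u + x + 1)) / 2 ^ MB := by
    intro y hy
    refine hy.trans ((mul_le_mul_of_nonneg_left hsum hQ.le).trans ?_)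
    have e1 : (2 : ℝ) ^ Q * (2 ^ (C₄ + u + x + 2) / 2 ^ (MB + Q)) =
        2 ^ (C₄ + u + x + 2) / 2 ^ MB := by
      rw [pow_add 2 MB Q]
      field_simp
    rw [e1]
    exact div_le_div_of_nonneg_right hY (by positivity)
  obtain ⟨h, hh⟩ : ∃ h, h = Pool.V1E.hL c s r (o 1) (Pool.V1E.trn r (G 0 (Pool.PB.ptr F J ω))) (Pool.KSAT.slam F (o 1) ω) (some i) :=
    ⟨_, rfl⟩
  rw [← hh] at hfs ⊢
  obtain ⟨v0, hv0⟩ : ∃ v0 : ℝ, v0 = (Polynomial.derivative h).eval 0 := ⟨_, rfl⟩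
  rw [← hv0] at hfs
  have hfs' : ∀ v : ℝ, |v| ≤ 2 → |h.eval v - h.eval 0 - v * v0| ≤ Λ / 2 ^ q₀ := by
    intro v hv
    refine (hfs v hv).trans (le_of_eq ?_)
    rw [hΛ]
    ring
  have hcL : (Pool.V1E.cL c s r (o 1) Q (Pool.V1E.trn r (G 0 (Pool.PB.ptr F J ω))) (Pool.KSAT.slam F (o 1) ω) 0 i : ℝ) =
      ((⌊2 ^ Q * h.eval 0⌋ : ℤ) : ℝ) := by rw [hh]; rfl
  have hxL : Pool.V1E.xL c s r (o 1) Q (Pool.V1E.trn r (G 0 (Pool.PB.ptr F J ω))) (Pool.KSAT.slam F (o 1) ω) i =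
      Int.fract (2 ^ Q * h.eval 0) := by rw [hh]; rfl
  have heL : (Pool.V1E.eL c s r (o 1) qe (Pool.V1E.trn r (G 0 (Pool.PB.ptr F J ω))) (Pool.KSAT.slam F (o 1) ω) i : ℝ) =
      ((⌊2 ^ qe i * v0⌋ : ℤ) : ℝ) := by rw [hv0, hh]; rfl
  rw [hcL, hxL, heL]
  have hv : |((⌊2 ^ qe i * v0⌋ : ℤ) : ℝ) / 2 ^ qe i - v0| ≤ 1 / 2 ^ qe i := by
    have h1 := Int.floor_le ((2 : ℝ) ^ qe i * v0)
    have h2 := Int.lt_floor_add_one ((2 : ℝ) ^ qe i * v0)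
    have hp : (0 : ℝ) < 2 ^ qe i := by positivity
    have e1 : ((⌊2 ^ qe i * v0⌋ : ℤ) : ℝ) / 2 ^ qe i - v0 =
        (((⌊2 ^ qe i * v0⌋ : ℤ) : ℝ) - 2 ^ qe i * v0) / 2 ^ qe i := by
      field_simp
    rw [e1, abs_div, abs_of_pos hp]
    refine div_le_div_of_nonneg_right ?_ hp.le
    rw [abs_le]
    constructor <;> linarith
  have f0 := Int.floor_add_fract ((2 : ℝ) ^ Q * h.eval 0)
  have key : ∀ v : ℝ, |v| ≤ 2 → |2 ^ Q * h.eval v - (((⌊2 ^ Q * h.eval 0⌋ : ℤ) : ℝ) +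
      2 ^ Q * (v * (((⌊2 ^ qe i * v0⌋ : ℤ) : ℝ) / 2 ^ qe i))) - Int.fract (2 ^ Q * h.eval 0)| ≤
      2 ^ Q * (Λ / 2 ^ q₀ + 2 * (1 / 2 ^ qe i)) := by
    intro v hv'
    have e1 : 2 ^ Q * h.eval v - (((⌊2 ^ Q * h.eval 0⌋ : ℤ) : ℝ) +
        2 ^ Q * (v * (((⌊2 ^ qe i * v0⌋ : ℤ) : ℝ) / 2 ^ qe i))) - Int.fract (2 ^ Q * h.eval 0) =
        2 ^ Q * ((h.eval v - h.eval 0 - v * v0) - v * (((⌊2 ^ qe i * v0⌋ : ℤ) : ℝ) / 2 ^ qe i -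
          v0)) := by
      linear_combination -f0
    rw [e1, abs_mul, abs_of_pos hQ]
    refine mul_le_mul_of_nonneg_left ((abs_sub _ _).trans (add_le_add (hfs' v hv') ?_)) hQ.le
    rw [abs_mul]
    exact mul_le_mul hv' hv (abs_nonneg _) (by norm_num)
  refine ⟨fun v hv' => hfin (key v hv'), ?_⟩
  -- the corner
  have hrt2 : |Pool.PB.Trl.rt F (o 1) ω| ≤ 2 := by rw [abs_of_nonneg hu.1]; linarith [hu.2]
  have k1 := key (Pool.PB.Trl.rt F (o 1) ω) hrt2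
  have hcr : (Pool.V1E.crF F c s r (o 1) Q (G 0) ω i : ℝ) = ((⌊2 ^ Q * h.eval (Pool.PB.Trl.rt F (o 1) ω)⌋ : ℤ) : ℝ) := by
    rw [hh]; rfl
  have hsc : Pool.V1E.scF F c s r (o 1) q₀ Q qe (G 0) (H 0) ω i = max (-1) (min 1
      (((⌊2 ^ Q * h.eval 0⌋ : ℤ) : ℝ) + 2 ^ Q * (Pool.PB.Trl.rt F (o 1) ω *
        (((⌊2 ^ qe i * v0⌋ : ℤ) : ℝ) / 2 ^ qe i)) -
        ((⌊2 ^ Q * h.eval (Pool.PB.Trl.rt F (o 1) ω)⌋ : ℤ) : ℝ))) := by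
    rw [hh, hv0, hh]
    unfold Pool.V1E.scF Pool.V1E.sC
    rw [hfr]
    rfl
  rw [hcr, hsc]
  have fu := Int.floor_add_fract ((2 : ℝ) ^ Q * h.eval (Pool.PB.Trl.rt F (o 1) ω))
  have g0 := Int.fract_nonneg ((2 : ℝ) ^ Q * h.eval 0)
  have g1 := (Int.fract_lt_one ((2 : ℝ) ^ Q * h.eval 0)).le
  have g2 := Int.fract_nonneg ((2 : ℝ) ^ Q * h.eval (Pool.PB.Trl.rt F (o 1) ω))
  have g3 := (Int.fract_lt_one ((2 : ℝ) ^ Q * h.eval (Pool.PB.Trl.rt F (o 1) ω))).le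
  obtain ⟨η, hη⟩ : ∃ η : ℝ, η = 2 ^ Q * (Λ / 2 ^ q₀ + 2 * (1 / 2 ^ qe i)) := ⟨_, rfl⟩
  rw [← hη] at k1
  obtain ⟨y, hy⟩ : ∃ y : ℝ, y = ((⌊2 ^ Q * h.eval 0⌋ : ℤ) : ℝ) + 2 ^ Q * (Pool.PB.Trl.rt F (o 1) ω *
      (((⌊2 ^ qe i * v0⌋ : ℤ) : ℝ) / 2 ^ qe i)) := ⟨_, rfl⟩
  rw [← hy] at k1 ⊢
  refine hfin ?_
  rw [← hη]
  have hη0 : 0 ≤ η := (abs_nonneg _).trans k1
  rw [abs_le] at k1
  obtain ⟨k1a, k1b⟩ := k1
  obtain ⟨w, hw⟩ : ∃ w : ℝ, w = y - ((⌊2 ^ Q * h.eval (Pool.PB.Trl.rt F (o 1) ω)⌋ : ℤ) : ℝ) := ⟨_, rfl⟩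
  have e2 : ((⌊2 ^ Q * h.eval (Pool.PB.Trl.rt F (o 1) ω)⌋ : ℤ) : ℝ) +
      max (-1) (min 1 (y - ((⌊2 ^ Q * h.eval (Pool.PB.Trl.rt F (o 1) ω)⌋ : ℤ) : ℝ))) - y =
      max (-1) (min 1 w) - w := by
    rw [← hw]
    linarith
  rw [e2]
  rcases le_total w 1 with hx1 | hx1
  · rw [min_eq_right hx1]
    rcases le_total (-1) w with hx2 | hx2
    · rw [max_eq_right hx2, sub_self, abs_zero]
      exact hη0
    · rw [max_eq_left hx2, abs_le]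
      constructor <;> linarith
  · rw [min_eq_left hx1, max_eq_right (by norm_num), abs_le]
    constructor <;> linarith

/-- **The gradient of the closed chart of the window** on the boxes of the frame of the ball. -/
theorem W_lip1 (D r : ℕ) : ∃ C : ℕ, ∀ {m J : ℕ} {F : Pool.KA.Fam m J} {c : ℕ → Fin m}
    {n M ar MB q₀ Q x u p e : ℕ} {s : ℕ → ℕ} {qe : Fin r → ℕ} {o : ℕ → ℕ}
    {z g gc gT g₀ : ℕ → ℕ → ℕ} {B : F.Ω → Prop}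
    {G T : ℕ → Pool.GEN.PtT F → ℕ → MvPolynomial (Option (Fin m)) ℝ}
    {H TH : ℕ → Pool.GEN.LnT F → ℕ → MvPolynomial (Option (Fin m)) ℝ}
    {Ht : Pool.GEN.LnT F → MvPolynomial (Option (Fin m)) ℝ},
    Pool.W.V1E.Wdat F c r D n M ar MB q₀ Q x u p e s qe o z g gc gT g₀ B G T H TH Ht → 4 * x ≤ Q →
    ∀ ω, B ω → ∀ b : Option (Fin m) → ℝ,
    Pool.GEN.NBx c (fun l => Pool.GEN.Gno (c l) J J (fun y => G 0 y l) (Pool.PB.ptr F J ω)) (fun l => g 0 l + (o 2 - o 0))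
      (o 2) (F.t ω) r b → ∀ l < r,
    |eval b (pderiv (some (c l)) (H 1 (Pool.KSAT.slam F (o 1) ω) r))| ≤
      2 ^ (C * (u + x + 1)) * 2 ^ (e + Pool.W.GEN.nlp (g₀ 1) l r) := by
  obtain ⟨C, hfb⟩ := Pool.V1E.frm_box D r
  refine ⟨2 * C, ?_⟩
  intro m J F c n M ar MB q₀ Q x u p e s qe o z g gc gT g₀ B G T H TH Ht W hxQ ω hω b hb l hl
  rw [← W.cl1 ω hω]
  have h01 : o 0 ≤ o 1 := by have := W.o1; omega
  have h12 : o 1 ≤ o 2 := by have := W.o2; omega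
  obtain ⟨q, hq, hz⟩ := W.z01
  have h4 : ∀ i : ℕ, Pool.GEN.DepC c i (Pool.GEN.Gno (c i) J J (fun y => G 0 y i) (Pool.PB.ptr F J ω)) := fun i =>
    W.rad0.depG (Pool.PB.ptr F J ω) i
  have h1 := hfb (c := c) (a := o 1) (p := u + x) (q := 0) (t := F.t ω)
    (Gb := G 1 (Pool.PB.ptr F J ω)) (ψ := fun l => Pool.GEN.Gno (c l) J J (fun y => G 0 y l) (Pool.PB.ptr F J ω))
    (gb := g₀ 1) (g' := g₀ 1) (R := pderiv (some (c l)) (G 1 (Pool.PB.ptr F J ω) r))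
    (M := 2 ^ (e + Pool.W.GEN.nlp (g₀ 1) l r)) W.hcr (fun i => W.dG 1 _ i) (fun i => W.pG 1 _ i)
    (fun i => W.rad0.degG (Pool.PB.ptr F J ω) i) h4 ((W.pG 1 _ r).pderiv l)
    ((Pool.V1E.pd_deg _ _).trans (W.dG 1 _ r)) (by positivity) (fun i _ => le_rfl)
    (fun i _ => le_rfl) (fun i hi b' hb' => by
      refine (W.bal.bal 0 (by have := W.n3; omega) 1 (by have := W.n3; omega) q hq h01 hz ω hω i
        hi.le b' hb').trans ?_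
      rw [div_le_div_iff₀ (by positivity) (by positivity), ← pow_add, ← pow_add]
      refine pow_le_pow_right₀ (by norm_num) ?_
      have := W.n1c i hi
      omega)
    (fun b' hb' => W.ch1.lip ω hω r (Nat.lt_succ_self r) b' hb' l hl) b ?_
  · refine h1.trans (mul_le_mul_of_nonneg_right (pow_le_pow_right₀ (by norm_num) ?_)
      (by positivity))
    nlinarith
  · refine ⟨hb.1.trans (one_div_le_one_div_of_le (by positivity)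
      (pow_le_pow_right₀ (by norm_num) h12)), fun i hi => (hb.2 i hi).trans
      (one_div_le_one_div_of_le (by positivity) (pow_le_pow_right₀ (by norm_num) ?_))⟩
    have := W.n1d i hi
    have := W.n2b i hi
    have := W.n2c i hi
    show g₀ 1 i ≤ g 0 i + (o 2 - o 0)
    omega

end Pool.W.V1E
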