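import Pool.Agent.H73.D2.Tlp
import Pool.Agent.H31.W3.H18.D2.Enf
import Pool.Agent.H31.W3.H73.D2.Tlj
import Pool.Agent.H31.W3.H73.D2.Tlo
import Pool.Agent.H3.W.Nlp
import Pool.Agent.H31.W.H46.D2.NoLb
import Pool.Agent.H31.W1.H80.GEN.Chn

/-!
# The end, from the data of four windows

`wd_eh`: `EH` from `Wdat`. `wd_end`: `end_fam` for the letters of `tl_det`.
-/

set_option autoImplicit false

namespace Pool.W.V1E

open Pool.V1E

open Finset Real MvPolynomial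
open Pool.KA Pool.KSAT Pool.PB Pool.GEN Pool.D2R Pool.D2G30 Pool.ISO Pool.CHT Pool.CHX
open Pool.PB.Trl (rt rt_mem t_rt)
open Pool.Agent.H49.Ent Pool.K2S Pool.END18
open Pool.NLB46 (Lab)

section letters

variable {m : ℕ} (c : ℕ → Fin m) (s : ℕ → ℕ) (d w Q : ℕ) (qe : Fin d → ℕ) {ζ : Type}


end letters

/-- **`EH` from `Wdat`.** -/
theorem wd_eh (D r : ℕ) (hD : 1 ≤ D) : ∃ C : ℕ, ∀ {m J : ℕ} {F : Pool.KA.Fam m J} {c : ℕ → Fin m}
    {n M ar MB q₀ Q x u p e : ℕ} {s : ℕ → ℕ} {qe : Fin r → ℕ} {o : ℕ → ℕ}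
    {z g gc gT g₀ : ℕ → ℕ → ℕ} {B : F.Ω → Prop}
    {G T : ℕ → Pool.GEN.PtT F → ℕ → MvPolynomial (Option (Fin m)) ℝ}
    {H TH : ℕ → Pool.GEN.LnT F → ℕ → MvPolynomial (Option (Fin m)) ℝ}
    {Ht : Pool.GEN.LnT F → MvPolynomial (Option (Fin m)) ℝ},
    Pool.W.V1E.Wdat F c r D n M ar MB q₀ Q x u p e s qe o z g gc gT g₀ B G T H TH Ht → 4 * x ≤ Q →
    C * (u + x + 1) ≤ MB →
    Pool.W.END18.EH F c s (fun l => g 0 l + (o 2 - o 0)) r D (o 1) q₀ Q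
      (e + C * (u + x + 1) + (g₀ 2 r - g₀ 1 r)) (2 * x) (g₀ 2 r) B (G 0) (fun y => G 2 y r) (H 0)
      (fun L => H 1 L r) (fun L => H 2 L r)
      (fun L => Pool.V1E.z0L c s r (o 1) Q (Pool.V1E.frH F r q₀ (H 0) L) L)
      (fun L => Pool.V1E.z1L c s r (o 1) Q qe (Pool.V1E.frH F r q₀ (H 0) L) L) ∧
    (∀ {V V' : Type} (v : F.Ω → V) (v' : F.Ω → V') (ω : F.Ω), B ω →
      Pool.V1E.Pfz c s r Q J D (Pool.V1E.kzF F c s r (o 1) Q v v' (G 0) (fun y => G 1 y r) (fun y => G 2 y r) ω) =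
      MvPolynomial.C (2 ^ s r) * Pool.D2G30.tub (F.t ω) (fun i => (Pool.V1E.crF F c s r (o 1) Q (G 0) ω i : ℝ) / 2 ^ Q) (1 / 2 ^ Q)
        (Pool.D2G30.pull c s (Pool.V1E.frH F r q₀ (H 0) (Pool.KSAT.slam F (o 1) ω)) r
          (H 2 (Pool.KSAT.slam F (o 1 + Q) ω) r - H 1 (Pool.KSAT.slam F (o 1) ω) r))) ∧
    (∀ ω, B ω → ∀ i : Fin r, |(Pool.V1E.crF F c s r (o 1) Q (G 0) ω i : ℝ) +
        Pool.V1E.scF F c s r (o 1) q₀ Q qe (G 0) (H 0) ω i -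
      (Pool.V1E.z0L c s r (o 1) Q (Pool.V1E.frH F r q₀ (H 0) (Pool.KSAT.slam F (o 1) ω)) (Pool.KSAT.slam F (o 1) ω) i +
        Pool.V1E.z1L c s r (o 1) Q qe (Pool.V1E.frH F r q₀ (H 0) (Pool.KSAT.slam F (o 1) ω)) (Pool.KSAT.slam F (o 1) ω) i *
          Pool.PB.Trl.rt F (o 1) ω)| ≤ 2 ^ (C * (u + x + 1)) / 2 ^ MB) := by
  obtain ⟨C₁, htu⟩ := Pool.W.V1E.W_tube D
  obtain ⟨C₂, hli⟩ := Pool.W.V1E.W_lip1 D r
  refine ⟨C₁ + C₂, ?_⟩
  intro m J F c n M ar MB q₀ Q x u p e s qe o z g gc gT g₀ B G T H TH Ht W hxQ hMB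
  have h1J : o 1 + Q ≤ J := by have := W.oJ; have := W.o3; have := W.o2; omega
  have ho2 : o 1 + Q = o 2 := W.o2.symm
  have hm1 := W.m1u
  have hm2 := W.m2
  have hQM := W.QM
  have hY : ∀ {C' : ℕ}, C' ≤ C₁ + C₂ → (2 : ℝ) ^ (C' * (u + x + 1)) ≤
      2 ^ ((C₁ + C₂) * (u + x + 1)) := fun h => pow_le_pow_right₀ (by norm_num)
    (Nat.mul_le_mul_right _ h)
  refine ⟨?_, ?_, ?_⟩
  · refine
      { inj := W.hcr
        Dc1 := hD
        wQ := h1J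
        qw := by have := W.o1; omega
        cl := fun ω hω => by rw [ho2]; exact W.cl2 ω hω
        dG₀ := fun y l => W.dG 0 y l
        dH₀ := fun L l => W.dH 0 L l
        pH₀ := fun L l => W.pH 0 L l
        dH₁ := fun L => W.dH 1 L r
        pH₁ := fun L => W.pH 1 L r
        dG₂ := fun y => W.dG 2 y r
        pG₂ := fun y => W.pG 2 y r
        dH₂ := fun L => W.dH 2 L r
        pH₂ := fun L => W.pH 2 L r
        pos := W.pos2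
        top := ?_
        gcs := fun l hl => ?_
        own := fun ω hω v hv i => ?_
        grd := fun ω hω b hb l hl => ?_ }
    · have e0 : o 1 - q₀ = o 0 := by have := W.o1; omega
      rw [ho2, e0]
      exact W.rad0.mono (Nat.le_succ r) (fun _ => le_rfl) le_rfl (by omega)
    · have := W.n2b l hl
      have := W.n2c l hl
      show Q + s l ≤ g 0 l + (o 2 - o 0) + 2 * x
      omega
    · have h1 := (htu W ω hω i).1 v hv
      obtain ⟨y, hy⟩ : ∃ y : ℝ, y = 2 ^ Q * (Pool.V1E.hL c s r (o 1) (Pool.V1E.frH F r q₀ (H 0) (Pool.KSAT.slam F (o 1) ω))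
        (Pool.KSAT.slam F (o 1) ω) (some i)).eval v := ⟨_, rfl⟩
      rw [← hy] at h1 ⊢
      have h2 : (2 : ℝ) ^ (C₁ * (u + x + 1)) / 2 ^ MB ≤ 1 := by
        rw [div_le_one (by positivity)]
        refine (hY (Nat.le_add_right _ _)).trans (pow_le_pow_right₀ (by norm_num) hMB)
      have h3 := Int.fract_nonneg ((2 : ℝ) ^ Q * (Pool.V1E.hL c s r (o 1) (Pool.V1E.frH F r q₀ (H 0)
        (Pool.KSAT.slam F (o 1) ω)) (Pool.KSAT.slam F (o 1) ω) (some i)).eval 0)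
      have h4 := (Int.fract_lt_one ((2 : ℝ) ^ Q * (Pool.V1E.hL c s r (o 1) (Pool.V1E.frH F r q₀ (H 0)
        (Pool.KSAT.slam F (o 1) ω)) (Pool.KSAT.slam F (o 1) ω) (some i)).eval 0)).le
      have h5 : Pool.V1E.xL c s r (o 1) Q (Pool.V1E.frH F r q₀ (H 0) (Pool.KSAT.slam F (o 1) ω)) (Pool.KSAT.slam F (o 1) ω) i =
        Int.fract (2 ^ Q * (Pool.V1E.hL c s r (o 1) (Pool.V1E.frH F r q₀ (H 0)
          (Pool.KSAT.slam F (o 1) ω)) (Pool.KSAT.slam F (o 1) ω) (some i)).eval 0) := rfl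
      rw [h5] at h1
      have h6 := abs_le.1 (h1.trans h2)
      show |y - ((Pool.V1E.cL c s r (o 1) Q (Pool.V1E.frH F r q₀ (H 0) (Pool.KSAT.slam F (o 1) ω)) (Pool.KSAT.slam F (o 1) ω) 0 i : ℝ) +
        2 ^ Q * ((Pool.V1E.eL c s r (o 1) qe (Pool.V1E.frH F r q₀ (H 0) (Pool.KSAT.slam F (o 1) ω)) (Pool.KSAT.slam F (o 1) ω) i : ℝ) /
          2 ^ qe i) * v)| ≤ 2
      rw [abs_le]
      constructor <;> linarith [h6.1, h6.2]
    · have hb' : Pool.GEN.NBx c (fun l => Pool.GEN.Gno (c l) J J (fun y => G 0 y l) (Pool.PB.ptr F J ω))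
          (fun l => g 0 l + (o 2 - o 0)) (o 2) (F.t ω) r b := by
        rw [ho2] at hb
        exact hb
      refine (hli W hxQ ω hω b hb' l hl).trans ?_
      rw [← pow_add]
      refine pow_le_pow_right₀ (by norm_num) ?_
      obtain ⟨S₁, hS₁⟩ : ∃ S₁, S₁ = (Finset.range (r + 1)).sup (g₀ 1) := ⟨_, rfl⟩
      obtain ⟨S₂, hS₂⟩ : ∃ S₂, S₂ = (Finset.range (r + 1)).sup
        (fun j => if j < r then g 0 j + (o 2 - o 0) else g₀ 2 r) := ⟨_, rfl⟩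
      have k1 : S₁ ≤ S₂ := by
        rw [hS₁, hS₂]
        refine Finset.sup_mono_fun fun j hj => ?_
        rcases lt_or_ge j r with hjr | hjr
        · rw [if_pos hjr]
          have := W.n1d j hjr
          have := W.n2b j hjr
          have := W.n2c j hjr
          omega
        · rw [if_neg (not_lt.2 hjr)]
          have hj' : j = r := le_antisymm (Nat.lt_succ_iff.1 (Finset.mem_range.1 hj)) hjr
          rw [hj']
          omega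
      have k2 : g₀ 1 r ≤ S₁ := by
        rw [hS₁]
        exact Finset.le_sup (f := g₀ 1) (Finset.mem_range.2 (by omega))
      have k3 : g₀ 2 r ≤ S₂ := by
        rw [hS₂]
        have := Finset.le_sup (f := fun j => if j < r then g 0 j + (o 2 - o 0) else g₀ 2 r)
          (Finset.mem_range.2 (show r < r + 1 by omega))
        beta_reduce at this
        rwa [if_neg (lt_irrefl r)] at this
      have k4 : C₂ * (u + x + 1) ≤ (C₁ + C₂) * (u + x + 1) := Nat.mul_le_mul_right _ (by omega)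
      have k5 : Pool.W.GEN.nlp (g₀ 1) l r = S₁ - g₀ 1 r := by rw [hS₁]; rfl
      have k6 : Pool.W.GEN.nlp (fun j => if j < r then g 0 j + (o 2 - o 0) else g₀ 2 r) l r =
          S₂ - g₀ 2 r := by
        rw [hS₂]
        unfold Pool.W.GEN.nlp
        beta_reduce
        rw [if_neg (lt_irrefl r)]
      rw [k5, k6]
      omega
  · intro V V' v v' ω hω
    have h1 := W.pfz v v' ω
    rw [h1, W.fr hω, ho2, ← W.cl2 ω hω, ← W.cl1 ω hω, ← W.crn ω]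
    rfl
  · intro ω hω i
    have h1 := (htu W ω hω i).2
    refine le_trans (le_of_eq ?_) (h1.trans (div_le_div_of_nonneg_right
      (hY (Nat.le_add_right _ _)) (by positivity)))
    congr 1
    unfold Pool.V1E.z0L Pool.V1E.z1L
    ring

/-- **The end for the letters of `tl_det`.** -/
theorem wd_end (D r K D' : ℕ) (hr : 1 ≤ r) (hD : 1 ≤ D) (hK : 1 ≤ K) (hDK : D * (D + 1) ^ r ≤ K)
    (hD1 : K * (D + 1) ≤ D') (hD2 : D + 1 ≤ D') {ε : ℝ} (hε : 0 < ε) :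
    ∃ C₀ C₁ : ℕ, ∃ δ : ℝ, 0 < δ ∧ δ ≤ ε ∧ ∃ Q₀ : ℕ, ∀ {m J : ℕ} {F : Pool.KA.Fam m J} {c : ℕ → Fin m}
    {n M ar MB q₀ Q x u p e : ℕ} {s : ℕ → ℕ} {qe : Fin r → ℕ} {o : ℕ → ℕ}
    {z g gc gT g₀ : ℕ → ℕ → ℕ} {A : F.Ω → Prop}
    {G T : ℕ → Pool.GEN.PtT F → ℕ → MvPolynomial (Option (Fin m)) ℝ}
    {H TH : ℕ → Pool.GEN.LnT F → ℕ → MvPolynomial (Option (Fin m)) ℝ}
    {Ht : Pool.GEN.LnT F → MvPolynomial (Option (Fin m)) ℝ}
    {V V' : Type} {v : F.Ω → V} {v' : F.Ω → V'}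
    {ξ : Pool.GEN.LnT F → Fin r → ℝ} {np : Pool.GEN.LnT F → Polynomial ℝ} {Pt : Pool.GEN.LnT F → Pool.V1E.Gr K r → Polynomial ℝ}
    {e' p' : ℕ},
    Pool.W.V1E.Wdat F c r D n M ar MB q₀ Q x u p e s qe o z g gc gT g₀ A G T H TH Ht → Q₀ ≤ Q →
    (C₁ : ℝ) * (u + x + 1) ≤ δ * Q → o 1 + 2 * Q ≤ J → 0 < Pool.K2S.Pe F.p A →
    Pool.V1E.ImC K r D' Q MB (2 ^ (J - o 1)) δ (Pool.Agent.H49.Ent.cond F.p A True) (Pool.KSAT.slam F (o 1))
      (Pool.V1E.twF F (o 1)) (Pool.V1E.kzF F c s r (o 1) Q v v' (G 0) (fun y => G 1 y r) (fun y => G 2 y r))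
      (Pool.V1E.Pfz c s r Q J D) (Pool.V1E.scF F c s r (o 1) q₀ Q qe (G 0) (H 0)) ξ np Pt →
    (J : ℝ) * Real.log 2 - δ * Q ≤ Pool.Agent.H49.Ent.CH (Pool.Agent.H49.Ent.cond F.p A True) F.T
      (fun ω => (F.l ω, F.Z ω)) →
    p' ≤ g₀ 2 r → e + C₁ * (u + x + 1) + (g₀ 2 r - g₀ 1 r) + 1 ≤ e' →
    (p' : ℝ) + (2 * x * K * r + C₀ : ℕ) + ε * Q ≤ s r + MB →
    ((e + C₁ * (u + x + 1) + (g₀ 2 r - g₀ 1 r) : ℕ) : ℝ) + p' + (2 * x * K * r + C₀ : ℕ) + ε * Q ≤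
      e' + s r →
    ∃ B : F.Ω → Prop, Pool.K2S.Sub B A ∧ Pool.K2S.Pe F.p A ≤ 2 * Pool.K2S.Pe F.p B ∧
      Pool.W.GEN.ChOK F c r (fun _ => D) (o 1 + Q + 1) (o 1) e' (fun l => g 0 l + (o 2 - o 0)) B
        (Pool.END18.Gf F c (G 0)) (fun L l => Pool.END18.Hf F c (H 0) (Pool.D2R.co q₀ L) l) ∧
      Pool.W.NLB46.Lab F c r (D + r * (K * D) + D') (o 1 + Q + 1) (o 1) e' p' (fun l => g 0 l + (o 2 - o 0))
        (Pool.END18.Gf F c (G 0)) B (fun y => G 2 y r)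
        (Pool.END18.Ht F c s K r (o 1) q₀ Q (H 0) (fun L => H 1 L r)
          (fun L => Pool.V1E.z0L c s r (o 1) Q (Pool.V1E.frH F r q₀ (H 0) L) L)
          (fun L => Pool.V1E.z1L c s r (o 1) Q qe (Pool.V1E.frH F r q₀ (H 0) L) L) Pt) := by
  obtain ⟨C₂, heh⟩ := Pool.W.V1E.wd_eh D r hD
  obtain ⟨C₃, htl⟩ := Pool.W.V1E.tl_det D r K hK hDK
  have hε1 : 0 < min ε 1 := lt_min hε one_pos
  obtain ⟨C₀, δ, hδ0, hδε, Q₀, hend⟩ := Pool.W.END18.end_fam r D K D' hr hK hDK hε1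
  refine ⟨C₀, C₂ + C₃ + 4, δ, hδ0, hδε.trans (min_le_left _ _), Q₀, ?_⟩
  intro m J F c n M ar MB q₀ Q x u p e s qe o z g gc gT g₀ A G T H TH Ht V V' v v' ξ np Pt e' p' W
    hQ hC hJ2 hA hIm htf hp he h1 h2
  have hQ0 : (0 : ℝ) ≤ Q := Nat.cast_nonneg Q
  have hδ1 : δ * Q ≤ Q := by
    have := hδε.trans (min_le_right ε 1)
    nlinarith
  have hN : (0 : ℝ) ≤ (u : ℝ) + x + 1 := by positivity
  have hCN : ((C₂ + C₃ + 4 : ℕ) : ℝ) * ((u : ℝ) + x + 1) ≤ δ * Q := hC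
  have hk : ∀ {k : ℕ}, k ≤ C₂ + C₃ + 4 → ((k * (u + x + 1) : ℕ) : ℝ) ≤ δ * Q := by
    intro k hk
    have h3 : (k : ℝ) ≤ ((C₂ + C₃ + 4 : ℕ) : ℝ) := by exact_mod_cast hk
    push_cast at h3 hCN ⊢
    exact (mul_le_mul_of_nonneg_right h3 hN).trans hCN
  have hkQ : ∀ {k : ℕ}, k ≤ C₂ + C₃ + 4 → k * (u + x + 1) ≤ Q := by
    intro k hk'
    exact_mod_cast (hk hk').trans hδ1
  have hkδ : ∀ {k : ℕ}, k ≤ C₂ + C₃ + 4 → (2 : ℝ) ^ (k * (u + x + 1)) ≤ 2 ^ (δ * Q) := by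
    intro k hk'
    rw [← Real.rpow_natCast]
    exact Real.rpow_le_rpow_of_exponent_le (by norm_num) (hk hk')
  have hx4 : 4 * x ≤ Q := by
    have := hkQ (k := 4) (by omega)
    omega
  obtain ⟨g1, g2, g3⟩ := heh W hx4 ((hkQ (k := C₂) (by omega)).trans W.QM)
  obtain ⟨ω₀, hω₀⟩ : ∃ ω, A ω := by
    by_contra hne
    push Not at hne
    have : Pool.K2S.Pe F.p A = 0 := by
      classical
      unfold Pool.K2S.Pe
      exact Finset.sum_eq_zero fun ω _ => if_neg fun h => hne ω (of_eq_true h)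
    linarith
  have ht := htl W v v' (fun _ : Pool.GEN.LnT F => v ω₀) D' hD1 hD2
  have h1' : (p' : ℝ) + (2 * x * K * r + C₀ : ℕ) + min ε 1 * Q ≤ s r + MB := by
    have := mul_le_mul_of_nonneg_right (min_le_left ε 1) hQ0
    linarith
  have e1 : e + C₂ * (u + x + 1) + (g₀ 2 r - g₀ 1 r) ≤
      e + (C₂ + C₃ + 4) * (u + x + 1) + (g₀ 2 r - g₀ 1 r) := by
    have : C₂ * (u + x + 1) ≤ (C₂ + C₃ + 4) * (u + x + 1) := Nat.mul_le_mul_right _ (by omega)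
    omega
  have h2' : ((e + C₂ * (u + x + 1) + (g₀ 2 r - g₀ 1 r) : ℕ) : ℝ) + p' +
      (2 * x * K * r + C₀ : ℕ) + min ε 1 * Q ≤ e' + s r := by
    have h3 := mul_le_mul_of_nonneg_right (min_le_left ε 1) hQ0
    have h4 : ((e + C₂ * (u + x + 1) + (g₀ 2 r - g₀ 1 r) : ℕ) : ℝ) ≤
      ((e + (C₂ + C₃ + 4) * (u + x + 1) + (g₀ 2 r - g₀ 1 r) : ℕ) : ℝ) := by exact_mod_cast e1
    linarith
  exact hend (k := fun ω i => (Pool.V1E.crF F c s r (o 1) Q (G 0) ω i : ℝ)) hQ W.QM hJ2 hA g1 ht.dgf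
    (fun ω hω _ β => (ht.bdf ω hω β).trans (hkδ (by omega))) (fun ω hω _ i => ht.s1 ω hω i)
    (fun ω hω _ => g2 v v' ω hω)
    (fun ω hω _ i => (g3 ω hω i).trans (div_le_div_of_nonneg_right (hkδ (by omega))
      (by positivity))) hIm htf hp (by omega) h1' h2'

end Pool.W.V1E
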