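import Pool.Agent.H73.D2.Tlq
import Pool.Agent.H31.W3.H73.D2.Tlp
import Pool.Agent.H31.W.H46.D2.NoLb
import Pool.Agent.H31.W1.H80.GEN.Chn

/-!
# The code of the tube is few bits given velocity and corner; the end on one event

`wd_cfew`: the code of the tube, given the velocity and the record with time and corner. `wd_tl`: the
structure `TL` from `Wdat`, `TlO` and the spanning field. `x10_law`: with a dead velocity, the label
of the target.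
-/

set_option autoImplicit false

namespace Pool.W.V1E

open Pool.V1E

open Finset Real MvPolynomial
open Pool.KA Pool.KSAT Pool.PB Pool.GEN Pool.D2R Pool.D2G30 Pool.ISO Pool.CHT Pool.CHX
open Pool.PB.Trl (rt rt_mem t_rt)
open Pool.Agent.H49.Ent Pool.Agent.H32.Dense Pool.STK Pool.K2S Pool.END18 Pool.D2Con
open Pool.NLB46 (Lab)
open Pool.LA91 (TlO)


/-- **The code of the tube** is few bits given the velocity, the record, the time and the corner. -/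
theorem wd_cfew (D r : ℕ) : ∃ C : ℕ, ∀ {m J : ℕ} {F : Pool.KA.Fam m J} {c : ℕ → Fin m}
    {n M ar MB q₀ Q x u p e : ℕ} {s : ℕ → ℕ} {qe : Fin r → ℕ} {o : ℕ → ℕ}
    {z g gc gT g₀ : ℕ → ℕ → ℕ} {A : F.Ω → Prop}
    {G T : ℕ → Pool.GEN.PtT F → ℕ → MvPolynomial (Option (Fin m)) ℝ}
    {H TH : ℕ → Pool.GEN.LnT F → ℕ → MvPolynomial (Option (Fin m)) ℝ}
    {Ht : Pool.GEN.LnT F → MvPolynomial (Option (Fin m)) ℝ},
    Pool.W.V1E.Wdat F c r D n M ar MB q₀ Q x u p e s qe o z g gc gT g₀ A G T H TH Ht →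
    C * (u + x + 1) ≤ MB → ∀ {V : Type} {v : F.Ω → V} {vL : Pool.GEN.LnT F → V},
    (∀ ω, A ω → v ω = vL (Pool.KSAT.slam F (o 1) ω)) → ∀ {q : F.Ω → ℝ}, Pool.STK.IsLaw q → (∀ ω, 0 < q ω → A ω) →
    Pool.Agent.H49.Ent.CH q (fun ω => Pool.V1E.ctF F c s r (o 1) q₀ Q qe (H 0) (fun L => H 1 L r) vL (Pool.KSAT.slam F (o 1) ω))
      (fun ω => (Pool.V1E.eL c s r (o 1) qe (Pool.V1E.frH F r q₀ (H 0) (Pool.KSAT.slam F (o 1) ω)) (Pool.KSAT.slam F (o 1) ω),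
        Pool.V1E.kaF F c s r (o 1) Q v (G 0) (fun y => G 1 y r) ω)) ≤ r * Real.log 13 := by
  obtain ⟨C₁, htu⟩ := Pool.W.V1E.W_tube D
  refine ⟨C₁, ?_⟩
  intro m J F c n M ar MB q₀ Q x u p e s qe o z g gc gT g₀ A G T H TH Ht W hMB V v vL hvL q hq hqA
  have h1J : o 1 ≤ J := by have := W.oJ; have := W.o3; have := W.o2; omega
  obtain ⟨N, hN⟩ : ∃ N : F.Ω → Fin r → ℤ, N = fun ω =>
    Pool.V1E.cL c s r (o 1) Q (Pool.V1E.frH F r q₀ (H 0) (Pool.KSAT.slam F (o 1) ω)) (Pool.KSAT.slam F (o 1) ω) 0 := ⟨_, rfl⟩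
  -- the code is a function of the cell and of the condition
  have h1 := Pool.Agent.H32.Dense.CH_mono_left hq.nonneg (X' := N) (X := fun ω => Pool.V1E.ctF F c s r (o 1) q₀ Q qe (H 0)
    (fun L => H 1 L r) vL (Pool.KSAT.slam F (o 1) ω)) (W := fun ω =>
      (Pool.V1E.eL c s r (o 1) qe (Pool.V1E.frH F r q₀ (H 0) (Pool.KSAT.slam F (o 1) ω)) (Pool.KSAT.slam F (o 1) ω),
        Pool.V1E.kaF F c s r (o 1) Q v (G 0) (fun y => G 1 y r) ω)) (by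
    intro ω ω' hω hω' h
    simp only [Prod.mk.injEq] at h
    obtain ⟨hNN, hE, hk⟩ := h
    have k0 : v ω = v ω' := congrArg (fun y => y.1.1) hk
    have k1 : Pool.V1E.trn r (G 0 (Pool.PB.ptr F J ω)) = Pool.V1E.trn r (G 0 (Pool.PB.ptr F J ω')) :=
      congrArg (fun y => y.1.2.1) hk
    have k2 : G 1 (Pool.PB.ptr F J ω) r = G 1 (Pool.PB.ptr F J ω') r := congrArg (fun y => y.1.2.2) hk
    have k3 : F.T ω = F.T ω' := congrArg (fun y => y.2.1) hk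
    have k4 : (Pool.KSAT.slam F (o 1) ω).2.2 = (Pool.KSAT.slam F (o 1) ω').2.2 := by
      show F.T1 (o 1) ω = F.T1 (o 1) ω'
      unfold Pool.KA.Fam.T1
      rw [k3]
    have k5 : Pool.V1E.frH F r q₀ (H 0) (Pool.KSAT.slam F (o 1) ω) = Pool.V1E.frH F r q₀ (H 0) (Pool.KSAT.slam F (o 1) ω') := by
      rw [W.fr (hqA ω hω), W.fr (hqA ω' hω'), k1]
    have k6 : H 1 (Pool.KSAT.slam F (o 1) ω) r = H 1 (Pool.KSAT.slam F (o 1) ω') r := by
      rw [← W.cl1 ω (hqA ω hω), ← W.cl1 ω' (hqA ω' hω'), k2]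
    have k7 : vL (Pool.KSAT.slam F (o 1) ω) = vL (Pool.KSAT.slam F (o 1) ω') := by
      rw [← hvL ω (hqA ω hω), ← hvL ω' (hqA ω' hω'), k0]
    have k8 : Pool.V1E.cL c s r (o 1) Q (Pool.V1E.frH F r q₀ (H 0) (Pool.KSAT.slam F (o 1) ω)) (Pool.KSAT.slam F (o 1) ω) 0 =
        Pool.V1E.cL c s r (o 1) Q (Pool.V1E.frH F r q₀ (H 0) (Pool.KSAT.slam F (o 1) ω')) (Pool.KSAT.slam F (o 1) ω') 0 := by
      rw [hN] at hNN
      exact hNN
    show Pool.V1E.ctF F c s r (o 1) q₀ Q qe (H 0) (fun L => H 1 L r) vL (Pool.KSAT.slam F (o 1) ω) =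
      Pool.V1E.ctF F c s r (o 1) q₀ Q qe (H 0) (fun L => H 1 L r) vL (Pool.KSAT.slam F (o 1) ω')
    unfold Pool.V1E.ctF
    beta_reduce
    rw [k7, k6, k4, hE, k8, k5])
  refine h1.trans ?_
  have h2 := Pool.Agent.H32.Dense.CH_le_vec hq.nonneg hq.sum_one N (fun ω =>
      (Pool.V1E.eL c s r (o 1) qe (Pool.V1E.frH F r q₀ (H 0) (Pool.KSAT.slam F (o 1) ω)) (Pool.KSAT.slam F (o 1) ω),
        Pool.V1E.kaF F c s r (o 1) Q v (G 0) (fun y => G 1 y r) ω)) (fun _ => 6) (by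
    intro ω ω' hω hω' h i
    simp only [Prod.mk.injEq] at h
    obtain ⟨hE, hk⟩ := h
    have k3 : F.T ω = F.T ω' := congrArg (fun y => y.2.1) hk
    have k4 : Pool.V1E.crF F c s r (o 1) Q (G 0) ω = Pool.V1E.crF F c s r (o 1) Q (G 0) ω' :=
      congrArg (fun y => y.2.2) hk
    have k5 := Pool.V1E.rt_congr F h1J k3
    have hb : (2 : ℝ) ^ (C₁ * (u + x + 1)) / 2 ^ MB ≤ 1 := by
      rw [div_le_one (by positivity)]
      exact pow_le_pow_right₀ (by norm_num) hMB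
    have e1 := abs_le.1 (((htu W ω (hqA ω hω) i).2).trans hb)
    have e2 := abs_le.1 (((htu W ω' (hqA ω' hω') i).2).trans hb)
    have hs1 : |Pool.V1E.scF F c s r (o 1) q₀ Q qe (G 0) (H 0) ω i| ≤ 1 := by
      unfold Pool.V1E.scF
      exact Pool.V1E.sC_le _ _ _ _ _ _ _
    have hs2 : |Pool.V1E.scF F c s r (o 1) q₀ Q qe (G 0) (H 0) ω' i| ≤ 1 := by
      unfold Pool.V1E.scF
      exact Pool.V1E.sC_le _ _ _ _ _ _ _
    rw [← hE, ← k4, ← k5] at e2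
    have a1 := abs_le.1 hs1
    have a2 := abs_le.1 hs2
    rw [hN]
    push_cast
    rw [abs_le]
    constructor <;> linarith [e1.1, e1.2, e2.1, e2.2, a1.1, a1.2, a2.1, a2.2])
  refine h2.trans (le_of_eq ?_)
  rw [Pool.Agent.H32.Dense.Ex_const hq.sum_one]
  norm_num

/-- **`TL` from `Wdat`, `TlO` and the spanning field.** -/
theorem wd_tl (D r K D' CM : ℕ) (hr : 1 ≤ r) (hK : 1 ≤ K) (hDK : D * (D + 1) ^ r ≤ K)
    (hD1 : K * (D + 1) ≤ D') (hD2 : D + 1 ≤ D') : ∃ C : ℕ, ∀ {m J : ℕ} {F : Pool.KA.Fam m J} {c : ℕ → Fin m}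
    {n M ar MB q₀ Q x u p e : ℕ} {s : ℕ → ℕ} {qe : Fin r → ℕ} {o : ℕ → ℕ}
    {z g gc gT g₀ : ℕ → ℕ → ℕ} {A : F.Ω → Prop}
    {G T : ℕ → Pool.GEN.PtT F → ℕ → MvPolynomial (Option (Fin m)) ℝ}
    {H TH : ℕ → Pool.GEN.LnT F → ℕ → MvPolynomial (Option (Fin m)) ℝ}
    {Ht : Pool.GEN.LnT F → MvPolynomial (Option (Fin m)) ℝ} {V V' : Type} {v : F.Ω → V} {v' : F.Ω → V'}
    {vL : Pool.GEN.LnT F → V} {k : ℕ} {δ : ℝ} {q : F.Ω → ℝ},
    Pool.W.V1E.Wdat F c r D n M ar MB q₀ Q x u p e s qe o z g gc gT g₀ A G T H TH Ht →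
    Pool.STK.IsLaw q → (∀ ω, 0 < q ω → A ω) → 0 ≤ δ → (C : ℝ) * (u + x + 1) ≤ δ * Q → MB ≤ CM * Q →
    MB ≤ k → o 1 + Q ≤ J →
    Pool.LA91.TlO F q c s r (o 0) (o 1) Q k qe v vL v' (G 0) (fun y => G 1 y r) (fun y => G 2 y r) (H 0)
      (fun L => H 1 L r) (δ * Q) →
    Pool.D2Con.NoHyp q (fun ω => Pool.V1E.Xe r qe (Pool.V1E.eL c s r (o 1) qe (Pool.V1E.frH F r q₀ (H 0) (Pool.KSAT.slam F (o 1) ω))
      (Pool.KSAT.slam F (o 1) ω))) (Pool.V1E.kzF F c s r (o 1) Q v v' (G 0) (fun y => G 1 y r) (fun y => G 2 y r))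
      (2 ^ (-(δ * Q))) δ →
    Pool.V1E.TL K r D' CM Q MB k (2 ^ (J - o 1)) δ q (Pool.KSAT.slam F (o 1)) (Pool.V1E.twF F (o 1))
      (Pool.V1E.kzF F c s r (o 1) Q v v' (G 0) (fun y => G 1 y r) (fun y => G 2 y r))
      (Pool.V1E.kaF F c s r (o 1) Q v (G 0) (fun y => G 1 y r))
      (fun ω => Pool.V1E.eL c s r (o 1) qe (Pool.V1E.frH F r q₀ (H 0) (Pool.KSAT.slam F (o 1) ω)) (Pool.KSAT.slam F (o 1) ω))
      (Pool.V1E.Xe r qe) (Pool.V1E.Pfz c s r Q J D) (Pool.V1E.Pgz c s r (o 1) Q J D)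
      (Pool.V1E.ctF F c s r (o 1) q₀ Q qe (H 0) (fun L => H 1 L r) vL)
      (Pool.V1E.scF F c s r (o 1) q₀ Q qe (G 0) (H 0))
      (fun L => Pool.V1E.xL c s r (o 1) Q (Pool.V1E.frH F r q₀ (H 0) L) L)
      (fun L => Pool.V1E.nL c s r (o 1) (H 1 L r) L)
      (fun L => Pool.V1E.gL c s r (o 1) (Pool.V1E.frH F r q₀ (H 0) L) (Ht L - H 1 L r) L) := by
  obtain ⟨C, htl⟩ := Pool.W.V1E.tl_det D r K hK hDK
  refine ⟨C, ?_⟩
  intro m J F c n M ar MB q₀ Q x u p e s qe o z g gc gT g₀ A G T H TH Ht V V' v v' vL k δ q W hq hqA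
    hδ hC hMB hk hJQ hO hnh
  have hq0 : o 1 - o 0 = q₀ := by have := W.o1; omega
  have hfr := hO.fr
  have hT := hO.Tfull
  have haf := hO.afew
  have hfu := hO.full
  rw [hq0] at hfr haf hfu
  refine (htl W v v' vL D' hD1 hD2).toTL hq hqA ?_ hδ hK hr W.QM hMB hk
    (Nat.pow_le_pow_right (by norm_num) (by omega)) hT hnh hfr haf hfu
  rw [← Real.rpow_natCast]
  refine Real.rpow_le_rpow_of_exponent_le (by norm_num) ?_
  push_cast
  exact hC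


end Pool.W.V1E
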