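import Pool.Agent.H73.D2.Tmb
import Pool.Agent.H31.W3.H73.D2.Tma

/-!
# The hypotheses of the end with the frame and the ball in a chain

`HImF`: the labels of the tubes of the precision of the balls. `NhF`: the velocities are in no
hyperplane of the record. `VfW`: the velocity of the target is dead. All for the windows `WF`: `o 0`
the window of the target, `o 1` deep, `o 2` the frame, `o 3` the ball.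
-/

set_option autoImplicit false

namespace Pool.W.V1E

open Pool.V1E

open Finset Real MvPolynomial
open Pool.KA Pool.KSAT Pool.PB Pool.GEN Pool.D2R Pool.D2G30 Pool.ISO Pool.CHT Pool.CHX
open Pool.PB.Trl (rt rt_mem t_rt)
open Pool.Agent.H49.Ent Pool.Agent.H32.Dense Pool.STK Pool.K2S Pool.LA91 Pool.OWN68
open Pool.UNJ (ceI)
open Pool.S6C Pool.RCD Pool.D2Con

variable {m : ℕ}

/-- **The labels of the tubes of the precision of the balls** exist on a part of mass at least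
`1 / K₂` of each event with the windows `WF`. -/
def HImF (S : Pool.PB.PCl m) (c : ℕ → Fin m) (r D Dr K D' N₂ : ℕ) (C a Eb ε₀ η₀ ζ mb : ℝ)
    (Pt : ℝ → ℝ → ℝ) (o : ℕ → ℝ) (lv be : ℕ → ℕ → ℝ) (κ : ℝ) (qf : ℕ → Fin r → ℕ)
    (δ K₂ : ℝ) : Prop :=
  Pool.S6C.Bas S (fun J F B => ∀ (b : ℕ → ℕ → ℝ) (z : ℕ → ℕ → ℕ) (gc gT g₀ : ℕ → ℕ → ℕ)
    (G : ℕ → Pool.GEN.PtT F → ℕ → MvPolynomial (Option (Fin m)) ℝ)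
    (H : ℕ → Pool.GEN.LnT F → ℕ → MvPolynomial (Option (Fin m)) ℝ)
    (T : ℕ → Pool.GEN.PtT F → ℕ → MvPolynomial (Option (Fin m)) ℝ)
    (TH : ℕ → Pool.GEN.LnT F → ℕ → MvPolynomial (Option (Fin m)) ℝ)
    (Gt : ℕ → Pool.GEN.PtT F → MvPolynomial (Option (Fin m)) ℝ)
    (Ht : ℕ → Pool.GEN.LnT F → MvPolynomial (Option (Fin m)) ℝ),
    Pool.W.V1E.WF c r D Dr N₂ C a Eb ε₀ η₀ ζ mb Pt o lv be F b κ z (qf J) B gc gT g₀ G H T TH Gt Ht →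
    ∃ (B₂ : F.Ω → Prop) (V V' : Type) (v : F.Ω → V) (v' : F.Ω → V') (ξ : Pool.GEN.LnT F → Fin r → ℝ)
      (np : Pool.GEN.LnT F → Polynomial ℝ) (Pn : Pool.GEN.LnT F → Pool.V1E.Gr K r → Polynomial ℝ), Pool.K2S.Sub B₂ B ∧
      Pool.K2S.Pe F.p B ≤ K₂ * Pool.K2S.Pe F.p B₂ ∧
      Pool.V1E.ImC K r D' (⌊o 3 * J⌋₊ - ⌊o 0 * J⌋₊) ⌊mb * J⌋₊ (2 ^ (J - ⌊o 0 * J⌋₊)) δ
        (Pool.Agent.H49.Ent.cond F.p B₂ True) (Pool.KSAT.slam F ⌊o 0 * J⌋₊) (Pool.V1E.twF F ⌊o 0 * J⌋₊)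
        (Pool.V1E.kzF F c (fun l => ⌊lv 0 l * J⌋₊) r ⌊o 0 * J⌋₊ (⌊o 3 * J⌋₊ - ⌊o 0 * J⌋₊) v v' (G 2)
          (fun y => G 0 y r) (fun y => G 3 y r))
        (Pool.V1E.Pfz c (fun l => ⌊lv 0 l * J⌋₊) r (⌊o 3 * J⌋₊ - ⌊o 0 * J⌋₊) J D)
        (Pool.V1E.scF F c (fun l => ⌊lv 0 l * J⌋₊) r ⌊o 0 * J⌋₊ (⌊o 0 * J⌋₊ - ⌊o 2 * J⌋₊)
          (⌊o 3 * J⌋₊ - ⌊o 0 * J⌋₊) (qf J) (G 2) (H 2)) ξ np Pn)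

/-- **The velocities are in no hyperplane of the record.** -/
def NhF (S : Pool.PB.PCl m) (c : ℕ → Fin m) (r D Dr N₂ : ℕ) (C a Eb ε₀ η₀ ζ mb : ℝ) (Pt : ℝ → ℝ → ℝ)
    (o : ℕ → ℝ) (lv be : ℕ → ℕ → ℝ) (κ : ℝ) (qf : ℕ → Fin r → ℕ) (δ : ℝ) : Prop :=
  Pool.S6C.Bas S (fun J F A => ∀ (b : ℕ → ℕ → ℝ) (z : ℕ → ℕ → ℕ) (gc gT g₀ : ℕ → ℕ → ℕ)
    (G : ℕ → Pool.GEN.PtT F → ℕ → MvPolynomial (Option (Fin m)) ℝ)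
    (H : ℕ → Pool.GEN.LnT F → ℕ → MvPolynomial (Option (Fin m)) ℝ)
    (T : ℕ → Pool.GEN.PtT F → ℕ → MvPolynomial (Option (Fin m)) ℝ)
    (TH : ℕ → Pool.GEN.LnT F → ℕ → MvPolynomial (Option (Fin m)) ℝ)
    (Gt : ℕ → Pool.GEN.PtT F → MvPolynomial (Option (Fin m)) ℝ)
    (Ht : ℕ → Pool.GEN.LnT F → MvPolynomial (Option (Fin m)) ℝ),
    Pool.W.V1E.WF c r D Dr N₂ C a Eb ε₀ η₀ ζ mb Pt o lv be F b κ z (qf J) A gc gT g₀ G H T TH Gt Ht →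
    ∀ (V V' : Type) (v : F.Ω → V) (v' : F.Ω → V'), Pool.RCD.Cl2 (Pool.PB.ptr F J) (Pool.RCD.vg (o 0) J F) A v →
    Pool.RCD.Cl2 (Pool.PB.ptr F J) (Pool.RCD.vg (o 3) J F) A v' →
    Pool.D2Con.NoHyp (Pool.Agent.H49.Ent.cond F.p A True) (fun ω => Pool.V1E.Xe r (qf J)
      (Pool.V1E.eL c (fun l => ⌊lv 0 l * J⌋₊) r ⌊o 0 * J⌋₊ (qf J)
        (Pool.V1E.frH F r (⌊o 0 * J⌋₊ - ⌊o 2 * J⌋₊) (H 2) (Pool.KSAT.slam F ⌊o 0 * J⌋₊ ω)) (Pool.KSAT.slam F ⌊o 0 * J⌋₊ ω)))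
      (Pool.V1E.kzF F c (fun l => ⌊lv 0 l * J⌋₊) r ⌊o 0 * J⌋₊ (⌊o 3 * J⌋₊ - ⌊o 0 * J⌋₊) v v' (G 2)
        (fun y => G 0 y r) (fun y => G 3 y r))
      (2 ^ (-(δ * (⌊o 3 * J⌋₊ - ⌊o 0 * J⌋₊ : ℕ)))) δ)

/-- **The velocity of the target is dead** on a part of mass at least `1 / K₂` of each event with the
windows `WF`, for all almost maximal records `v` of the window `o 0`. `kk`: the precision of the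
positions, `kk ≥ mb`. -/
def VfW (S : Pool.PB.PCl m) (c : ℕ → Fin m) (r D Dr N₂ : ℕ) (C a Eb ε₀ η₀ ζ mb kk : ℝ) (Pt : ℝ → ℝ → ℝ)
    (o : ℕ → ℝ) (lv be : ℕ → ℕ → ℝ) (κ : ℝ) (qf : ℕ → Fin r → ℕ) (δ K₂ : ℝ) : Prop :=
  ∃ k₂ : ℝ, 0 < k₂ ∧ Pool.S6C.Bas S (fun J F B => ∀ (b : ℕ → ℕ → ℝ) (z : ℕ → ℕ → ℕ) (gc gT g₀ : ℕ → ℕ → ℕ)
    (G : ℕ → Pool.GEN.PtT F → ℕ → MvPolynomial (Option (Fin m)) ℝ)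
    (H : ℕ → Pool.GEN.LnT F → ℕ → MvPolynomial (Option (Fin m)) ℝ)
    (T : ℕ → Pool.GEN.PtT F → ℕ → MvPolynomial (Option (Fin m)) ℝ)
    (TH : ℕ → Pool.GEN.LnT F → ℕ → MvPolynomial (Option (Fin m)) ℝ)
    (Gt : ℕ → Pool.GEN.PtT F → MvPolynomial (Option (Fin m)) ℝ)
    (Ht : ℕ → Pool.GEN.LnT F → MvPolynomial (Option (Fin m)) ℝ),
    Pool.W.V1E.WF c r D Dr N₂ C a Eb ε₀ η₀ ζ mb Pt o lv be F b κ z (qf J) B gc gT g₀ G H T TH Gt Ht →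
    ∃ B₂ : F.Ω → Prop, Pool.K2S.Sub B₂ B ∧ Pool.K2S.Pe F.p B ≤ K₂ * Pool.K2S.Pe F.p B₂ ∧
      ∀ (V : Type) (v : F.Ω → V) (vL : Pool.GEN.LnT F → V),
      Pool.LA91.Mx (fun J F => Pool.PB.ptr F J) (Pool.RCD.vg (o 0)) k₂ F B₂ v →
      (∀ ω, B₂ ω → v ω = vL (Pool.KSAT.slam F ⌊o 0 * J⌋₊ ω)) → (∀ ω ω', v ω = v ω' → F.Z ω = F.Z ω') →
      Pool.V1E.VelF (⌊o 3 * J⌋₊ - ⌊o 0 * J⌋₊) ⌊mb * J⌋₊ ⌊kk * J⌋₊ (2 ^ (J - ⌊o 0 * J⌋₊)) δ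
        (Pool.Agent.H49.Ent.cond F.p B₂ True) (Pool.KSAT.slam F ⌊o 0 * J⌋₊) (Pool.V1E.twF F ⌊o 0 * J⌋₊)
        (Pool.V1E.kaF F c (fun l => ⌊lv 0 l * J⌋₊) r ⌊o 0 * J⌋₊ (⌊o 3 * J⌋₊ - ⌊o 0 * J⌋₊) v (G 2)
          (fun y => G 0 y r))
        (fun ω => Pool.V1E.eL c (fun l => ⌊lv 0 l * J⌋₊) r ⌊o 0 * J⌋₊ (qf J)
          (Pool.V1E.frH F r (⌊o 0 * J⌋₊ - ⌊o 2 * J⌋₊) (H 2) (Pool.KSAT.slam F ⌊o 0 * J⌋₊ ω)) (Pool.KSAT.slam F ⌊o 0 * J⌋₊ ω))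
        (Pool.V1E.ctF F c (fun l => ⌊lv 0 l * J⌋₊) r ⌊o 0 * J⌋₊ (⌊o 0 * J⌋₊ - ⌊o 2 * J⌋₊)
          (⌊o 3 * J⌋₊ - ⌊o 0 * J⌋₊) (qf J) (H 2) (fun L => H 0 L r) vL)
        (fun L => Pool.V1E.xL c (fun l => ⌊lv 0 l * J⌋₊) r ⌊o 0 * J⌋₊ (⌊o 3 * J⌋₊ - ⌊o 0 * J⌋₊)
          (Pool.V1E.frH F r (⌊o 0 * J⌋₊ - ⌊o 2 * J⌋₊) (H 2) L) L)
        (fun L => Pool.V1E.nL c (fun l => ⌊lv 0 l * J⌋₊) r ⌊o 0 * J⌋₊ (H 0 L r) L))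

end Pool.W.V1E
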