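import Pool.Agent.H73.D2.Tmc
import Pool.Agent.H31.W3.H73.D2.Tlp
import Pool.Agent.H31.W3.H73.D2.Tmb
import Pool.Agent.H3.W.Bas
import Pool.Agent.H31.W.H23.D2.Bln
import Pool.Agent.H31.W.H23.D2.Bwj
import Pool.Agent.H31.W.H46.D2.NoLb
import Pool.Agent.H31.W1.H2.GEN.ChT
import Pool.Agent.H31.W1.H80.GEN.Chn

/-!
# The end in a class, the frame and the ball in a chain

`x10f_con`: as `x10_con`, for the windows `WF` and the labels of the tubes `HImF`.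
-/

set_option autoImplicit false

namespace Pool.W.V1E

open Pool.V1E

open Finset Real MvPolynomial
open Pool.Agent.H49.Ent Pool.Agent.H32.Dense Pool.STK Pool.KA Pool.KSAT Pool.K2S Pool.PB Pool.S6C
open Pool.GEN Pool.CHT Pool.CHX Pool.ISO Pool.D2R Pool.D2G30 Pool.END18 Pool.D2Con
open Pool.LBT (ThrOf)
open Pool.LEV (Law)
open Pool.NLB46 (Lab lab_no)

variable {m : ℕ}

/-- **The end, in a class**, the frame and the ball in a chain. -/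
theorem x10f_con (m r S₀ : ℕ) (hr : 1 ≤ r) (hS₀ : 1 ≤ S₀) : ∃ D : ℕ, 1 ≤ D ∧ ∀ Dr : ℕ, D ≤ Dr →
    ∃ (K D' : ℕ) (C : ℝ), 1 ≤ K ∧ 1 ≤ C ∧ D * (D + 1) ^ r ≤ K ∧ K * (D + 1) ≤ D' ∧
    D + 1 ≤ D' ∧ ∀ ε : ℝ, 0 < ε → ε ≤ 1 / 2 → ∃ δ C' : ℝ, 0 < δ ∧ δ ≤ 1 / 4 ∧ 1 ≤ C' ∧
    ∀ {S : Pool.PB.PCl m} {P P₂ : List (Fin m) × Fin m → ℝ → ℝ → ℝ} {θ θ₂ : ℝ} {c : ℕ → Fin m}
    {Pt : ℝ → ℝ → ℝ} {a Eb ε₀ η₀ mb ζ h e₂ κ K₂ : ℝ} {o : ℕ → ℝ} {a₂ w₂ : ℚ}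
    {qf : ℕ → Fin r → ℕ} (N₂ : ℕ), 3 ≤ N₂ → S.Ne → Pool.LBT.ThrOf (Pool.W.CHT.chsys m θ) S P →
    Pool.LBT.ThrOf (Pool.W.CHT.chsys m θ₂) S P₂ → 0 < θ → Pool.CHT.TmH S → Set.InjOn c (Set.Iio (r + 1)) → Pool.LEV.Law Pt → 0 ≤ Eb →
    (∀ k ≤ 1, Pool.W.ISO.WinD S P θ c r Pt a (o k) S₀ Eb ε₀ (fun _ => True)) →
    (∀ k, 1 < k → k ≤ N₂ → Pool.W.D2R.BalD S P θ c r Pt a (o k) S₀ Eb) → C * ε₀ < η₀ →
    (∀ k ≤ 1, 3 * (C * η₀) ≤ o k ∧ 3 * (C * η₀) ≤ Pt a (o k) ∧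
      3 * (C * η₀) ≤ Pool.ISO.lvN P c r Pt r (o k) (o k)) → (∀ k ≤ N₂, o k + 4 * (C * η₀) ≤ a) → a ≤ 1 →
    (∀ k ≤ 1, ∀ l ≤ r, Pool.ISO.lvN P c r Pt l (o k) (o k) + (a - o k) + (Eb + 2 * η₀) < 1) →
    (∀ k ≤ 1, ∀ l < r, Pool.CHT.bet P c l a (o k) + (Eb + 2 * η₀) < 1) →
    mb + (o 3 - o 0) < o 0 - o 2 → o 3 - o 0 < mb → η₀ ≤ o 1 - o 3 → 0 ≤ ζ →
    (∀ k ≤ 3, ∀ j < r, |Pool.ISO.lvN P c r Pt j (o k) (o k) - o k -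
      (Pool.ISO.lvN P c r Pt j (o 0) (o 0) - o 0)| ≤ ζ) →
    |Pool.ISO.lvN P c r Pt r (o 3) (o 3) - Pool.ISO.lvN P c r Pt r (o 0) (o 0) - mb| ≤ ζ →
    Pool.ISO.lvN P c r Pt r (o 0) (o 0) + (o 1 - o 0) + (mb - (o 3 - o 0)) ≤
      Pool.ISO.lvN P c r Pt r (o 1) (o 1) + ζ →
    Pool.ISO.lvN P c r Pt r (o 0) (o 0) + (a - o 0) + (mb - (o 3 - o 0)) ≤ Pt a (o 0) + ζ →
    C' * (ζ + η₀) < δ * (o 3 - o 0) → o 0 ≤ w₂ → o 3 < a₂ → w₂ ≤ a₂ → a₂ ≤ 1 → e₂ < θ₂ * w₂ →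
    0 < h → Pool.CHT.bet P₂ c r a₂ w₂ + h ≤ 1 → Eb + 2 * mb + C' * (ζ + η₀) ≤ e₂ →
    (∀ l < r, Pool.ISO.lvN P c r Pt l (o 0) (o 0) + (o 3 - o 0) + C' * (ζ + η₀) ≤ 1) →
    Pool.ISO.lvN P c r Pt r (o 0) (o 0) + mb ≤ 1 → o 0 + 2 * (o 3 - o 0) + η₀ ≤ 1 →
    Pool.CHT.bet P₂ c r a₂ w₂ + h + o 3 + ε * (o 3 - o 0) + C' * (ζ + η₀) ≤
      Pool.ISO.lvN P c r Pt r (o 0) (o 0) + mb + a₂ →
    (∀ (J : ℕ) (i : Fin r), ⌊mb * J⌋₊ + (⌊o 3 * J⌋₊ - ⌊o 0 * J⌋₊) ≤ qf J i) → 0 < κ → 0 ≤ K₂ →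
    ¬ Pool.W.V1E.HImF S c r D Dr K D' N₂ C a Eb ε₀ η₀ ζ mb Pt o (fun k l => Pool.ISO.lvN P c r Pt l (o k) (o k))
      (fun k l => Pool.CHT.bet P c l a (o k)) κ qf δ K₂ := by
  obtain ⟨D, hD, hwin⟩ := Pool.W.V1E.wf_con m r S₀ hr hS₀
  refine ⟨D, hD, fun Dr hDr => ?_⟩
  obtain ⟨C, hC, hwin⟩ := hwin Dr hDr
  obtain ⟨K, hK⟩ : ∃ K, K = D * (D + 1) ^ r := ⟨_, rfl⟩
  have hK1 : 1 ≤ K := by
    rw [hK]
    exact Nat.one_le_iff_ne_zero.2 (Nat.mul_ne_zero (by omega) (pow_ne_zero _ (by omega)))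
  obtain ⟨D', hD'⟩ : ∃ D', D' = K * (D + 1) := ⟨_, rfl⟩
  have hD2 : D + 1 ≤ D' := by
    rw [hD']
    exact Nat.le_mul_of_pos_left _ hK1
  refine ⟨K, D', C, hK1, hC, hK.ge, hD'.ge, hD2, fun ε hε hε2 => ?_⟩
  obtain ⟨C₀, C₁, δ₀, δ₀0, δ₀ε, Q₀, hend⟩ := Pool.W.V1E.wd_end D r K D' hr hD hK1 hK.ge hD'.ge hD2 hε
  obtain ⟨δ, hδ⟩ : ∃ δ : ℝ, δ = min δ₀ (1 / 4) := ⟨_, rfl⟩
  have δ0 : 0 < δ := by rw [hδ]; exact lt_min δ₀0 (by norm_num)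
  have δ4 : δ ≤ 1 / 4 := by rw [hδ]; exact min_le_right _ _
  have δδ₀ : δ ≤ δ₀ := by rw [hδ]; exact min_le_left _ _
  obtain ⟨C', hC'⟩ : ∃ C' : ℝ, C' = 8 * C * (C₁ + 2 * (K * r) + 4) + 8 := ⟨_, rfl⟩
  have hC₁0 : (0 : ℝ) ≤ C₁ := Nat.cast_nonneg _
  have hKr0 : (0 : ℝ) ≤ K * r := by positivity
  have hC'1 : 1 ≤ C' := by
    rw [hC']
    have : 0 ≤ 8 * C * (C₁ + 2 * (K * r) + 4) := by positivity
    linarith
  refine ⟨δ, C', δ0, δ4, hC'1, ?_⟩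
  intro S P P₂ θ θ₂ c Pt a Eb ε₀ η₀ mb ζ h e₂ κ K₂ o a₂ w₂ qf N₂ hN hne hP hP₂ hθ hS hinj hPt hEb
    hW hWb hεη h3o hoa ha1 htop hbet h01 h12 h23 hζ hn h2 h3 hPa hsm h1w h2a hwa ha₂ he₂ hh hb2 hE
    hrm hrm' h1J hlab hqf hκ hK₂ hIm
  have hε₀ : 0 ≤ ε₀ := (hW 0 (by norm_num)).ε0
  have hη0 : 0 < η₀ := lt_of_le_of_lt (mul_nonneg (by linarith) hε₀) hεη
  have hCη : η₀ ≤ C * η₀ := le_mul_of_one_le_left hη0.le hC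
  have ho0' : ∀ k ≤ 3, 0 < o k := fun k hk => by
    rcases Nat.lt_or_ge 1 k with h | h
    · obtain ⟨ρ, vs, e, e₀, E, sg, Q, d1, -⟩ := (hWb k h (by omega)).dw
      exact d1.w0
    · obtain ⟨ρ, vs, e, e₀, E, sg, Q, d1, -⟩ := (hW k h).dw
      exact d1.w0
  have hoa0 := hoa 0 (by omega)
  have hoa1 := hoa 1 (by omega)
  have hoa2 := hoa 2 (by omega)
  have hoa3 := hoa 3 (by omega)
  obtain ⟨X, hX⟩ : ∃ X : ℝ, X = ζ + η₀ := ⟨_, rfl⟩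
  have hX0 : 0 < X := by rw [hX]; linarith
  have hηX : η₀ ≤ X := by rw [hX]; linarith
  have hζX : ζ ≤ X := by rw [hX]; linarith
  have hCX : X ≤ C * X := le_mul_of_one_le_left hX0.le hC
  have hCηX : C * η₀ ≤ C * X := mul_le_mul_of_nonneg_left hηX (by linarith)
  rw [← hX] at hsm hE hlab
  simp only [← hX] at hrm
  have hQ12 : 0 < o 3 - o 0 := by
    by_contra hcon
    push Not at hcon
    have h4 : δ * (o 3 - o 0) ≤ 0 := mul_nonpos_of_nonneg_of_nonpos δ0.le hcon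
    have h5 : 0 < C' * X := by positivity
    linarith
  have hδQ4 : δ * (o 3 - o 0) ≤ (o 3 - o 0) / 4 := by
    have h4 := mul_le_mul_of_nonneg_right δ4 hQ12.le
    linarith
  have hη12 : η₀ ≤ o 3 - o 0 := by
    have h4 : η₀ ≤ C' * X := hηX.trans (le_mul_of_one_le_left hX0.le hC'1)
    linarith
  obtain ⟨K₁, b, hK₁, hwin⟩ := hwin N₂ hN hP hθ hS hinj hPt hEb hW hWb hεη h3o hoa ha1 htop hbet
    h01 h12 hη12 h23 hζ hn h2 h3 hPa hqf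
  obtain ⟨lv, hlv⟩ : ∃ lv : ℕ → ℕ → ℝ, lv = fun k l => Pool.ISO.lvN P c r Pt l (o k) (o k) := ⟨_, rfl⟩
  have hlve : ∀ k l, Pool.ISO.lvN P c r Pt l (o k) (o k) = lv k l := fun k l => by rw [hlv]
  simp only [hlve] at h3o htop hn h2 h3 hPa hrm hrm' hlab
  have h2' := abs_le.1 h2
  -- the constants
  have hC'X : C' * X = 8 * C * C₁ * X + 16 * (K * r) * (C * X) + 32 * (C * X) + 8 * X := by
    rw [hC']
    ring
  have hC'a : 8 * C * C₁ * X + 16 * (K * r) * (C * X) + 32 * (C * X) ≤ C' * X := by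
    linarith
  have hKrX : 0 ≤ 16 * (K * r) * (C * X) := by positivity
  have hC₁X : 0 ≤ 8 * C * C₁ * X := by positivity
  -- the events
  have hw₂0 : (0 : ℝ) ≤ w₂ := le_trans (ho0' 0 (by norm_num)).le h1w
  have hdq : 0 < δ * (o 3 - o 0) / 2 := by positivity
  obtain ⟨δl, hδl, hln⟩ := Pool.W.NLB46.lab_no hP₂ c r (D + r * (K * D) + D') a₂ w₂ e₂ h
    (by exact_mod_cast hw₂0) hwa ha₂ he₂ hh hb2
  obtain ⟨τ, hτ, J₁, hall⟩ := ((hwin κ hκ).and (Pool.V1E.bas_big hIm K₁)).and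
    ((Pool.V1E.bas_big (Pool.V1E.tmh_cond hS hdq) (K₁ * K₂)).and (Pool.V1E.bas_big hln (K₁ * K₂)))
  obtain ⟨W₀, hW₀⟩ : ∃ W₀ : ℝ, W₀ = 22 * C₁ + 40 * (K * r) + C₀ + Q₀ + 100 := ⟨_, rfl⟩
  have big : ∀ {x y : ℝ}, 0 < x → ∃ J₀ : ℕ, ∀ J : ℕ, J₀ ≤ J → y ≤ x * J := by
    intro x y hx
    refine ⟨⌈y / x⌉₊, fun J hJ => ?_⟩
    have h1 : y / x ≤ J := (Nat.le_ceil _).trans (by exact_mod_cast hJ)
    rw [div_le_iff₀ hx] at h1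
    linarith
  obtain ⟨J₂, hJ₂⟩ := big (x := η₀) (y := W₀) hη0
  obtain ⟨J₃, hJ₃⟩ := big (x := (a₂ : ℝ) - o 3) (y := 2) (by linarith)
  obtain ⟨J₄, hJ₄⟩ := big (x := δl) (y := Real.log 2) hδl
  obtain ⟨J, hJ, F, A, hA⟩ := hne τ hτ (max J₁ (max J₂ (max J₃ J₄)))
  obtain ⟨⟨w1, w2⟩, w3, w4⟩ := hall J ((le_max_left _ _).trans hJ) F A hA
  have j2 := hJ₂ J ((le_max_left _ _).trans ((le_max_right _ _).trans hJ))
  have j3 := hJ₃ J ((le_max_left _ _).trans ((le_max_right _ _).trans ((le_max_right _ _).trans hJ)))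
  have j4 := hJ₄ J ((le_max_right _ _).trans ((le_max_right _ _).trans ((le_max_right _ _).trans hJ)))
  have hJ0 : (0 : ℝ) ≤ J := Nat.cast_nonneg J
  have mulJ : ∀ {x y : ℝ}, x ≤ y → x * J ≤ y * J := fun h => mul_le_mul_of_nonneg_right h hJ0
  have hC₀0 : (0 : ℝ) ≤ C₀ := Nat.cast_nonneg _
  have hQ₀0 : (0 : ℝ) ≤ Q₀ := Nat.cast_nonneg _
  have ho0 : ∀ k ≤ 3, 0 ≤ o k * J := fun k hk =>
    mul_nonneg (ho0' k hk).le hJ0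
  have fo := fun k hk => Pool.V1E.flo (ho0 k hk)
  have f0 := fo 2 (by norm_num)
  have f1 := fo 0 (by norm_num)
  have f2 := fo 3 (by norm_num)
  have f3 := fo 1 (by norm_num)
  have fa := Pool.V1E.flo (mul_nonneg (by linarith [ho0' 0 (by norm_num)] : (0 : ℝ) ≤ a) hJ0)
  have l01 : ⌊o 2 * J⌋₊ ≤ ⌊o 0 * J⌋₊ := Nat.floor_le_floor (mulJ (by linarith))
  have l12 : ⌊o 0 * J⌋₊ ≤ ⌊o 3 * J⌋₊ := Nat.floor_le_floor (mulJ (by linarith))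
  have l23 : ⌊o 3 * J⌋₊ ≤ ⌊o 1 * J⌋₊ := Nat.floor_le_floor (mulJ (by linarith))
  have l3a : ⌊o 1 * J⌋₊ ≤ ⌊a * J⌋₊ := Nat.floor_le_floor (mulJ (by linarith))
  obtain ⟨B, z, gc, gT, g₀, G, H, T, TH, Gt, Ht, hB, hPB, W⟩ := w1
  obtain ⟨B₂, V, V', v, v', ξ, np, Pn, hB₂, hPB₂, him⟩ := w2 B hB hPB b z gc gT g₀ G H T TH Gt Ht W
  have hB₂A : Pool.K2S.Sub B₂ A := fun ω hω => hB ω (hB₂ ω hω)
  have hPA : Pool.K2S.Pe F.p A ≤ K₁ * K₂ * Pool.K2S.Pe F.p B₂ := by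
    rw [mul_assoc]
    exact hPB.trans (mul_le_mul_of_nonneg_left hPB₂ hK₁.le)
  obtain ⟨hP0, htf⟩ := w3 B₂ hB₂A hPA
  have Wd' := W.wd.sub hB₂
  obtain ⟨Q, hQ⟩ : ∃ Q : ℕ, Q = ⌊o 3 * J⌋₊ - ⌊o 0 * J⌋₊ := ⟨_, rfl⟩
  obtain ⟨x, hx⟩ : ∃ x : ℕ, x = ⌊(2 * (ζ + 3 * (C * η₀)) + η₀) * J⌋₊ + 20 := ⟨_, rfl⟩
  obtain ⟨u, hu⟩ : ∃ u : ℕ, u = ⌊C * (η₀ * J)⌋₊ + 1 := ⟨_, rfl⟩
  obtain ⟨e, he⟩ : ∃ e : ℕ, e = ⌊(Eb + 2 * η₀) * J⌋₊ := ⟨_, rfl⟩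
  obtain ⟨MB, hMB⟩ : ∃ MB : ℕ, MB = ⌊mb * J⌋₊ := ⟨_, rfl⟩
  obtain ⟨sr, hsr⟩ : ∃ sr : ℕ, sr = ⌊Pool.ISO.lvN P c r Pt r (o 0) (o 0) * J⌋₊ := ⟨_, rfl⟩
  rw [← hQ, ← hx, ← hu, ← he, ← hMB] at Wd'
  rw [← hQ, ← hMB] at him
  have hQr : (Q : ℝ) = ⌊o 3 * J⌋₊ - ⌊o 0 * J⌋₊ := by rw [hQ, Nat.cast_sub l12]
  have hQl : (o 3 - o 0) * J - 1 ≤ Q := by rw [hQr]; linarith [f1.2, f2.2, f1.1, f2.1]
  have hQu : (Q : ℝ) ≤ (o 3 - o 0) * J + 1 := by rw [hQr]; linarith [f1.2, f2.2, f1.1, f2.1]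
  have hMl : mb * J - 1 ≤ MB := by
    rw [hMB]
    exact (Pool.V1E.flo (mul_nonneg (by linarith) hJ0)).2
  have hMu : (MB : ℝ) ≤ mb * J := by
    rw [hMB]
    exact (Pool.V1E.flo (mul_nonneg (by linarith) hJ0)).1
  have hCJ : η₀ * J ≤ C * X * J := mulJ (hηX.trans hCX)
  have hW0J : W₀ ≤ C * X * J := j2.trans hCJ
  have hKr40 : 0 ≤ 40 * ((K : ℝ) * r) := by positivity
  have h22 : 0 ≤ 22 * (C₁ : ℝ) := by positivity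
  have hxu : (x : ℝ) ≤ 8 * (C * X) * J + 20 := by
    rw [hx]
    push_cast
    have h4 := (Pool.V1E.flo (mul_nonneg (by linarith : (0 : ℝ) ≤ 2 * (ζ + 3 * (C * η₀)) + η₀) hJ0)).1
    have h5 : 2 * (ζ + 3 * (C * η₀)) + η₀ ≤ 8 * (C * X) := by
      have h6 : C * X = C * ζ + C * η₀ := by rw [hX]; ring
      have h7 : ζ ≤ C * ζ := le_mul_of_one_le_left hζ hC
      linarith
    linarith [mulJ h5]
  have huu : (u : ℝ) + x + 1 ≤ 8 * (C * X) * J + 22 := by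
    rw [hx, hu]
    push_cast
    have h4 := (Pool.V1E.flo (mul_nonneg (by linarith : (0 : ℝ) ≤ 2 * (ζ + 3 * (C * η₀)) + η₀) hJ0)).1
    have h8 := (Pool.V1E.flo (mul_nonneg (by linarith : (0 : ℝ) ≤ C) (mul_nonneg hη0.le hJ0))).1
    have h5 : C * η₀ + (2 * (ζ + 3 * (C * η₀)) + η₀) ≤ 8 * (C * X) := by
      have h6 : C * X = C * ζ + C * η₀ := by rw [hX]; ring
      have h7 : ζ ≤ C * ζ := le_mul_of_one_le_left hζ hC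
      linarith
    have h9 := mulJ h5
    linarith
  have hC1u : (C₁ : ℝ) * (u + x + 1) ≤ 8 * C * C₁ * X * J + 22 * C₁ := by
    have h4 := mul_le_mul_of_nonneg_left huu hC₁0
    linarith
  have hsmJ : C' * X * J ≤ δ * (o 3 - o 0) * J := mulJ hsm.le
  have hC'aJ := mulJ hC'a
  have hδQl : δ * (o 3 - o 0) * J - 1 ≤ δ * Q := by
    have h4 := mul_le_mul_of_nonneg_left hQl δ0.le
    linarith
  have hδ0Q : δ * Q ≤ δ₀ * Q := mul_le_mul_of_nonneg_right δδ₀ (Nat.cast_nonneg _)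
  have hKXJ : 0 ≤ 16 * (K * r) * (C * X) * J := mul_nonneg hKrX hJ0
  have hCXJ : 0 ≤ C * X * J := by positivity
  have c1 : Q₀ ≤ Q := by
    have h4 : (Q₀ : ℝ) ≤ Q := by
      have h5 := mulJ hη12
      rw [hW₀] at j2
      linarith
    exact_mod_cast h4
  have c2 : (C₁ : ℝ) * (u + x + 1) ≤ δ₀ * Q := by
    rw [hW₀] at hW0J
    linarith
  have c3 : ⌊o 0 * J⌋₊ + 2 * Q ≤ J := by
    have h4 : ((⌊o 0 * J⌋₊ + 2 * Q : ℕ) : ℝ) ≤ J := by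
      push_cast
      have h5 := mulJ h1J
      rw [hW₀] at j2
      linarith [f1.1]
    exact_mod_cast h4
  have c6 : (J : ℝ) * Real.log 2 - δ₀ * Q ≤ Pool.Agent.H49.Ent.CH (Pool.Agent.H49.Ent.cond F.p B₂ True) F.T
      (fun ω => (F.l ω, F.Z ω)) := by
    refine le_trans ?_ htf
    have h5 := mulJ hη12
    rw [hW₀] at j2
    have h6 : (o 3 - o 0) * J / 2 ≤ Q := by linarith
    have h7 := mul_le_mul_of_nonneg_left h6 δ0.le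
    linarith
  obtain ⟨εQ, hεQ⟩ : ∃ k : ℕ, k = ⌈ε * Q⌉₊ := ⟨_, rfl⟩
  have hεQ0 : 0 ≤ ε * (Q : ℝ) := by positivity
  have hεQl : ε * (Q : ℝ) ≤ εQ := by rw [hεQ]; exact Nat.le_ceil _
  have hεQu : (εQ : ℝ) ≤ ε * Q + 1 := by rw [hεQ]; exact (Nat.ceil_lt_add_one hεQ0).le
  have hεu : ε * (Q : ℝ) ≤ ε * (o 3 - o 0) * J + 1 := by
    have h4 := mul_le_mul_of_nonneg_left hQu hε.le
    linarith
  have hε2u : ε * (o 3 - o 0) * J ≤ (o 3 - o 0) * J / 2 := by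
    have h4 := mul_le_mul_of_nonneg_right hε2 (mul_nonneg hQ12.le hJ0)
    linarith
  obtain ⟨sm, hsm'⟩ : ∃ k : ℕ, k = 2 * x * K * r + C₀ := ⟨_, rfl⟩
  have hsmu : (sm : ℝ) ≤ 16 * (K * r) * (C * X) * J + 40 * (K * r) + C₀ := by
    rw [hsm']
    push_cast
    have h4 := mul_le_mul_of_nonneg_left hxu hKr0
    linarith
  obtain ⟨p', hp'⟩ : ∃ p' : ℕ, p' = sr + MB - (sm + εQ) := ⟨_, rfl⟩
  have hδJ : δ * (o 3 - o 0) * J ≤ (o 3 - o 0) * J / 4 := by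
    have h4 := mulJ hδQ4
    linarith
  have hple : sm + εQ ≤ sr + MB := by
    have h4 : ((sm + εQ : ℕ) : ℝ) ≤ ((sr + MB : ℕ) : ℝ) := by
      push_cast
      have h5 := mulJ h12.le
      have h6 : (0 : ℝ) ≤ sr := Nat.cast_nonneg _
      have h7 : 0 ≤ 8 * C * C₁ * X * J := mul_nonneg hC₁X hJ0
      rw [hW₀] at hW0J
      linarith
    exact_mod_cast h4
  have hpe : (p' : ℝ) + (sm + εQ) = sr + MB := by
    have : p' + (sm + εQ) = sr + MB := by rw [hp']; omega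
    exact_mod_cast this
  obtain ⟨e', he'⟩ : ∃ e' : ℕ, e' = e + C₁ * (u + x + 1) + (g₀ 3 r - g₀ 0 r) + MB + 1 := ⟨_, rfl⟩
  have hxKr : x ≤ 2 * x * K * r := by
    have h4 : x ≤ x * K := Nat.le_mul_of_pos_right _ hK1
    have h5 : x * K ≤ x * K * r := Nat.le_mul_of_pos_right _ hr
    have h6 : 2 * x * K * r = 2 * (x * K * r) := by ring
    omega
  have c7 : p' ≤ g₀ 3 r := by
    have h4 : sr + MB ≤ g₀ 3 r + x := by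
      have := Wd'.m2
      rw [← hsr] at this
      exact this
    omega
  have c8 : e + C₁ * (u + x + 1) + (g₀ 3 r - g₀ 0 r) + 1 ≤ e' := by omega
  have c9 : (p' : ℝ) + (2 * x * K * r + C₀ : ℕ) + ε * Q ≤ sr + MB := by
    rw [← hsm']
    linarith
  have c10 : ((e + C₁ * (u + x + 1) + (g₀ 3 r - g₀ 0 r) : ℕ) : ℝ) + p' +
      (2 * x * K * r + C₀ : ℕ) + ε * Q ≤ e' + sr := by
    have h4 : (e' : ℝ) = ((e + C₁ * (u + x + 1) + (g₀ 3 r - g₀ 0 r) : ℕ) : ℝ) + MB + 1 := by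
      rw [he']
      push_cast
      ring
    rw [h4]
    linarith
  obtain ⟨B₃, hB₃, hPB₃, hch, hla⟩ := hend (e' := e') (p' := p') Wd' c1 c2 c3 hP0
    (him.mono (Pool.Agent.H49.Ent.cond_nonneg F.isLaw.nonneg _ True) δδ₀) c6 c7 c8
    (by
      show _ ≤ ((⌊Pool.ISO.lvN P c r Pt r (o 0) (o 0) * (J : ℝ)⌋₊ : ℕ) : ℝ) + MB
      rw [← hsr]
      exact c9)
    (by
      show _ ≤ (e' : ℝ) + ((⌊Pool.ISO.lvN P c r Pt r (o 0) (o 0) * (J : ℝ)⌋₊ : ℕ) : ℝ)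
      rw [← hsr]
      exact c10)
  -- the contradiction
  have g1 : sr ≤ g₀ 0 r + x := by
    have := Wd'.m1'
    rw [hsr]
    exact this
  obtain ⟨-, -, g2l, g2u⟩ := W.wb.g_num (k := 3) (l := r) (by omega) le_rfl
  obtain ⟨-, -, g1l, g1u⟩ := W.wb.g_num (k := 0) (l := r) (by omega) le_rfl
  rw [hlve] at g2l g2u g1l g1u
  have hlv1r : η₀ ≤ lv 0 r := by linarith [(h3o 0 (by norm_num)).2.2]
  have hsrl : lv 0 r * J - 1 ≤ sr := by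
    rw [hsr, hlve]
    exact (Pool.V1E.flo (mul_nonneg (by linarith) hJ0)).2
  have hsru : (sr : ℝ) ≤ lv 0 r * J := by
    rw [hsr, hlve]
    exact (Pool.V1E.flo (mul_nonneg (by linarith) hJ0)).1
  have hηXJ : η₀ * J ≤ X * J := mulJ hηX
  have hXCJ : X * J ≤ C * X * J := mulJ hCX
  have hδlJ : Real.exp (-(δl * J)) ≤ 1 / 2 := by
    rw [Real.exp_neg, inv_eq_one_div]
    refine one_div_le_one_div_of_le two_pos ?_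
    have h4 := Real.exp_le_exp.2 j4
    rwa [Real.exp_log two_pos] at h4
  refine w4 B₂ hB₂A hPA (⌊o 0 * J⌋₊ + Q + 1) ⌊o 0 * J⌋₊ e' p' (fun _ => D) _ _ _ _ _ (by omega)
    ?_ ?_ ?_ (fun _ => by omega) ?_ ?_ ?_ B₃ hB₃ ?_ hch hla
  · refine Nat.le_floor ?_
    push_cast
    rw [hQr]
    linarith [f2.1]
  · exact Nat.floor_le_floor (mulJ h1w)
  · refine Nat.le_floor ?_
    have h4 : ((g₀ 3 r - g₀ 0 r : ℕ) : ℝ) ≤ (mb + ζ + η₀) * J := by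
      rcases le_total (g₀ 0 r) (g₀ 3 r) with h5 | h5
      · rw [Nat.cast_sub h5]
        have h6 : lv 3 r ≤ lv 0 r + mb + ζ := by linarith
        linarith [mulJ h6]
      · rw [Nat.sub_eq_zero_of_le h5, Nat.cast_zero]
        exact mul_nonneg (by linarith) hJ0
    have h5 : (e : ℝ) ≤ (Eb + 2 * η₀) * J := by
      rw [he]
      exact (Pool.V1E.flo (mul_nonneg (by linarith) hJ0)).1
    rw [he']
    push_cast
    have h6 : C' * X * J ≥ (8 * C * C₁ * X + 16 * (K * r) * (C * X) + 32 * (C * X)) * J := hC'aJ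
    have h7 := mulJ hE
    have h8 := mulJ hζX
    rw [hW₀] at hW0J
    linarith
  · intro l hl
    have h4 := Wd'.n2d l hl
    have h5 := mulJ (hrm l hl)
    have h6 : ((⌊Pool.ISO.lvN P c r Pt l (o 0) (o 0) * J⌋₊ : ℕ) : ℝ) ≤ lv 0 l * J ∨
        ((⌊Pool.ISO.lvN P c r Pt l (o 0) (o 0) * J⌋₊ : ℕ) : ℝ) ≤ 0 := by
      rw [hlve]
      rcases le_or_gt 0 (lv 0 l * J) with h7 | h7
      · exact Or.inl (Pool.V1E.flo h7).1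
      · refine Or.inr ?_
        rw [Nat.floor_of_nonpos h7.le, Nat.cast_zero]
    have h8 : (((⌊Pool.ISO.lvN P c r Pt l (o 0) (o 0) * J⌋₊ + Q + x : ℕ) : ℕ) : ℝ) ≤ J := by
      push_cast
      have h9 : 0 ≤ 8 * C * C₁ * X * J := mul_nonneg hC₁X hJ0
      have h10 := mulJ h1J
      have h11 := mulJ hCη
      have h12 := mulJ (h3o 0 (by norm_num)).1
      rw [hW₀] at hW0J
      rcases h6 with h6 | h6
      · linarith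
      · linarith
    have h9 : ⌊Pool.ISO.lvN P c r Pt l (o 0) (o 0) * J⌋₊ + Q + x ≤ J := by exact_mod_cast h8
    exact h4.trans h9
  · have h4 : (p' : ℝ) ≤ J := by
      have h5 := mulJ hrm'
      have h6 : (0 : ℝ) ≤ sm := Nat.cast_nonneg _
      have h7 : (0 : ℝ) ≤ εQ := Nat.cast_nonneg _
      linarith
    exact_mod_cast h4
  · have ha2l : (a₂ : ℝ) * J - 1 ≤ (⌊(a₂ : ℝ) * J⌋₊ : ℝ) := by
      linarith [Nat.lt_floor_add_one ((a₂ : ℝ) * J)]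
    have ha0 : ⌊o 0 * J⌋₊ + Q + 1 ≤ ⌊(a₂ : ℝ) * J⌋₊ := by
      refine Nat.le_floor ?_
      push_cast
      rw [hQr]
      linarith [f2.1]
    rcases le_or_gt 0 ((Pool.CHT.bet P₂ c r a₂ w₂ + h) * (J : ℝ)) with h4 | h4
    · have h5 : ((⌊(Pool.CHT.bet P₂ c r a₂ w₂ + h) * J⌋₊ + (⌊o 0 * J⌋₊ + Q + 1) : ℕ) : ℝ) ≤
          ((p' + ⌊(a₂ : ℝ) * J⌋₊ : ℕ) : ℝ) := by
        push_cast
        have h6 := (Pool.V1E.flo h4).1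
        have h7 := mulJ hlab
        rw [hQr]
        have h8 : 0 ≤ 8 * C * C₁ * X * J := mul_nonneg hC₁X hJ0
        rw [hW₀] at hW0J
        linarith [f2.1]
      exact_mod_cast h5
    · rw [Nat.floor_of_nonpos h4.le]
      omega
  · refine le_trans (mul_le_mul_of_nonneg_right hδlJ (Pool.K2S.Pe_nonneg F.isLaw B₂)) ?_
    linarith

end Pool.W.V1E
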