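import Pool.Agent.H73.D2.Tmd
import Pool.Agent.H31.W3.H73.D2.Tmc
import Pool.Agent.H3.W.Bas
import Pool.Agent.H31.W.H23.D2.Bln
import Pool.Agent.H31.W1.H2.GEN.ChT

/-!
# The end at one scale, the frame and the ball in a chain

`RecFr`: as `RecE`, with rows only at `t` and `t + 3 q / 2`; the frame `t - k₁ q`, the ball `t + q` and
further windows `t + vw k q`, `4 ≤ k ≤ N₂`, have balls only. `x10f_q`: with the labels of the tubes
(`HImF`) the closed labels are as good as the balls.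
-/

set_option autoImplicit false

namespace Pool.W.V1E

open Pool.V1E

open Finset Real MvPolynomial
open Pool.Agent.H49.Ent Pool.Agent.H32.Dense Pool.STK Pool.KA Pool.KSAT Pool.K2S Pool.PB Pool.S6C
open Pool.GEN Pool.CHT Pool.CHX Pool.ISO Pool.D2R Pool.D2G30 Pool.END18 Pool.D2Con
open Pool.LBT (ThrOf)
open Pool.LEV (Law)


/-- **The record of the end** at one scale `q`, the frame and the ball in a chain. -/
structure RecFr {m : ℕ} (S : Pool.PB.PCl m) (P P₂ : List (Fin m) × Fin m → ℝ → ℝ → ℝ) (θ θ₂ : ℝ)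
    (c : ℕ → Fin m) (r : ℕ) (Pt : ℝ → ℝ → ℝ) (S₂ N₂ : ℕ) (vw : ℕ → ℝ)
    (s k₁ K Eb e₂ ε q t : ℝ) : Prop where
  ne : S.Ne
  thr : Pool.LBT.ThrOf (Pool.W.CHT.chsys m θ) S P
  th0 : 0 < θ
  thr₂ : Pool.LBT.ThrOf (Pool.W.CHT.chsys m θ₂) S P₂
  tmh : Pool.CHT.TmH S
  inj : Set.InjOn c (Set.Iio (r + 1))
  law : Pool.LEV.Law Pt
  Eb0 : 0 ≤ Eb
  q0 : 0 < q
  ε0 : 0 ≤ ε
  kk : s + 2 ≤ k₁
  kK : 2 * s + k₁ + 6 ≤ K
  t0 : 0 < t - K * q
  t1 : t + K * q < 1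
  n3 : 3 ≤ N₂
  win : ∀ k ≤ 1, Pool.W.ISO.WinD S P θ c r Pt (t + (s + 1) * q) (t + Pool.V1E.vF k₁ vw k * q) S₂ Eb (3 * ε * q)
    (fun _ => True)
  bal : ∀ k, 1 < k → k ≤ N₂ → Pool.W.D2R.BalD S P θ c r Pt (t + (s + 1) * q) (t + Pool.V1E.vF k₁ vw k * q) S₂ Eb
  vw2 : ∀ k, 4 ≤ k → k ≤ N₂ → vw k ≤ 2
  lv : ∀ l < r, ∀ x : ℝ, |x - t| ≤ K * q →
    |Pool.ISO.lvN P c r Pt l x x - Pool.ISO.lvN P c r Pt l t t - (x - t)| ≤ ε * q
  lvr : ∀ x : ℝ, |x - t| ≤ K * q → |Pt x x - Pt t t - s * (x - t)| ≤ ε * q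
  room : ∀ l ≤ r, ∀ x : ℝ, |x - t| ≤ K * q → Pool.ISO.lvN P c r Pt l x x + Eb + 3 * K * q < 1
  e₂θ : ∀ x : ℝ, |x - t| ≤ K * q → e₂ < θ₂ * x
  Ebe : Eb + 3 * K * q < e₂
  stp : Pt t t + 2 * ((s + 1) * q) ≤ Pt (t + (s + 1) * q) t + 2 * (ε * q)
  low : ∀ k ≤ 1, t + Pool.V1E.vF k₁ vw k * q ≤ Pt (t + Pool.V1E.vF k₁ vw k * q) (t + Pool.V1E.vF k₁ vw k * q) ∧
    t + (s + 1) * q ≤ Pt (t + (s + 1) * q) (t + Pool.V1E.vF k₁ vw k * q)
  rat : ∀ e : ℝ, 0 < e → ∃ d : ℝ, 0 < d ∧ ∀ a' w' : ℝ, t + q ≤ a' → a' ≤ t + q + d → t ≤ w' →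
    w' ≤ t + d → w' ≤ a' → Pool.CHT.bet P₂ c r a' w' ≤ Pt (t + q) t + e

/-- **The end at one scale**, the frame and the ball in a chain. -/
theorem x10f_q (m r S₂ : ℕ) (hr : 1 ≤ r) (hS₂ : 1 ≤ S₂) (s : ℝ) (hs : 2 < s) : ∃ D : ℕ, 1 ≤ D ∧
    ∀ Dr : ℕ, D ≤ Dr → ∃ (K' D' : ℕ) (C : ℝ), 1 ≤ K' ∧ 1 ≤ C ∧
    D * (D + 1) ^ r ≤ K' ∧ K' * (D + 1) ≤ D' ∧ D + 1 ≤ D' ∧ ∀ del : ℝ, 0 < del → ∃ δ : ℝ, 0 < δ ∧ δ ≤ 1 / 4 ∧
    ∃ h₀ : ℝ, 0 < h₀ ∧ ∀ h : ℝ, 0 < h → h ≤ h₀ →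
    ∀ {S : Pool.PB.PCl m} {P P₂ : List (Fin m) × Fin m → ℝ → ℝ → ℝ} {θ θ₂ : ℝ} {c : ℕ → Fin m}
    {Pt : ℝ → ℝ → ℝ} {N₂ : ℕ} {vw : ℕ → ℝ} {k₁ K Eb e₂ ε q t κ K₂ : ℝ} {qf : ℕ → Fin r → ℕ},
    Pool.W.V1E.RecFr S P P₂ θ θ₂ c r Pt S₂ N₂ vw s k₁ K Eb e₂ ε q t → 3 * C * ε < h → 2 * ε ≤ h →
    (∀ (J : ℕ) (i : Fin r), ⌊s * q * J⌋₊ + (⌊(t + q) * J⌋₊ - ⌊t * J⌋₊) ≤ qf J i) → 0 < κ →
    0 ≤ K₂ →
    Pool.W.V1E.HImF S c r D Dr K' D' N₂ C (t + (s + 1) * q) Eb (3 * ε * q) (h * q) (h * q) (s * q) Pt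
      (fun k => t + Pool.V1E.vF k₁ vw k * q)
      (fun k l => Pool.ISO.lvN P c r Pt l (t + Pool.V1E.vF k₁ vw k * q) (t + Pool.V1E.vF k₁ vw k * q))
      (fun k l => Pool.CHT.bet P c l (t + (s + 1) * q) (t + Pool.V1E.vF k₁ vw k * q)) κ qf δ K₂ →
    Pt (t + q) (t + q) ≤ Pt (t + q) t + del * q := by
  obtain ⟨D, hD, hx⟩ := Pool.W.V1E.x10f_con m r S₂ hr hS₂
  refine ⟨D, hD, fun Dr hDr => ?_⟩
  obtain ⟨K', D', C, hK', hC, hDK, hKD, hDD, hx⟩ := hx Dr hDr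
  refine ⟨K', D', C, hK', hC, hDK, hKD, hDD, fun del hdel => ?_⟩
  obtain ⟨δ, C', hδ, hδ4, hC', hx⟩ := hx (min (del / 4) (1 / 2))
    (lt_min (by linarith) (by norm_num)) (min_le_right _ _)
  have hC0 : 0 < C := by linarith
  have hC'0 : 0 < C' := by linarith
  refine ⟨δ, hδ, hδ4, min (δ / (4 * C')) (min (del / (16 * C')) (1 / (4 * C))), by positivity,
    fun h hh hh0 => ?_⟩
  have a1 : 4 * C' * h ≤ δ := by
    have := hh0.trans (min_le_left _ _)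
    rw [le_div_iff₀ (by positivity)] at this
    linarith
  have a2 : 16 * C' * h ≤ del := by
    have := hh0.trans ((min_le_right _ _).trans (min_le_left _ _))
    rw [le_div_iff₀ (by positivity)] at this
    linarith
  have a3 : 4 * C * h ≤ 1 := by
    have := hh0.trans ((min_le_right _ _).trans (min_le_right _ _))
    rw [le_div_iff₀ (by positivity)] at this
    linarith
  have a4 : h ≤ C * h := le_mul_of_one_le_left hh.le hC
  have a5 : h ≤ C' * h := le_mul_of_one_le_left hh.le hC'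
  intro S P P₂ θ θ₂ c Pt N₂ vw k₁ K Eb e₂ ε q t κ K₂ qf R hε1 hε2 hqf hκ hK₂ hIm
  by_contra hcon
  push Not at hcon
  have hq := R.q0
  have hε0 := R.ε0
  have hkk := R.kk
  have hkK := R.kK
  have hsq : 2 * q < s * q := mul_lt_mul_of_pos_right hs hq
  have hk1q : s * q + 2 * q ≤ k₁ * q := by
    have := mul_le_mul_of_nonneg_right hkk hq.le
    linarith
  have hKq : 2 * (s * q) + k₁ * q + 6 * q ≤ K * q := by
    have := mul_le_mul_of_nonneg_right hkK hq.le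
    linarith
  have hεq : 0 ≤ ε * q := mul_nonneg hε0 hq.le
  have hεq2 : 2 * (ε * q) ≤ h * q := by
    have := mul_le_mul_of_nonneg_right hε2 hq.le
    linarith
  have hhq : 0 < h * q := mul_pos hh hq
  have b1 : 4 * (C' * (h * q)) ≤ δ * q := by
    have := mul_le_mul_of_nonneg_right a1 hq.le
    linarith
  have b2 : 16 * (C' * (h * q)) ≤ del * q := by
    have := mul_le_mul_of_nonneg_right a2 hq.le
    linarith
  have b3 : 4 * (C * (h * q)) ≤ q := by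
    have := mul_le_mul_of_nonneg_right a3 hq.le
    linarith
  have b4 : h * q ≤ C * (h * q) := by
    have := mul_le_mul_of_nonneg_right a4 hq.le
    linarith
  have b5 : h * q ≤ C' * (h * q) := by
    have := mul_le_mul_of_nonneg_right a5 hq.le
    linarith
  have b6 : δ * q ≤ q / 4 := by
    have := mul_le_mul_of_nonneg_right hδ4 hq.le
    linarith
  have hdq : 0 < del * q := mul_pos hdel hq
  obtain ⟨o, ho⟩ : ∃ o : ℕ → ℝ, o = fun k => t + Pool.V1E.vF k₁ vw k * q := ⟨_, rfl⟩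
  have hoE : ∀ k, o k = t + Pool.V1E.vF k₁ vw k * q := fun k => by rw [ho]
  have o2 : o 2 = t - k₁ * q := by rw [hoE 2]; simp [Pool.V1E.vF]; ring
  have o0 : o 0 = t := by rw [hoE 0]; simp [Pool.V1E.vF]
  have o3 : o 3 = t + q := by rw [hoE 3]; simp [Pool.V1E.vF]
  have o1 : o 1 = t + 3 / 2 * q := by rw [hoE 1]; simp [Pool.V1E.vF]
  obtain ⟨a, ha⟩ : ∃ a : ℝ, a = t + (s + 1) * q := ⟨_, rfl⟩
  have ha' : a = t + s * q + q := by rw [ha]; ring
  have R1 : ∀ k ≤ 1, Pool.W.ISO.WinD S P θ c r Pt a (o k) S₂ Eb (3 * ε * q) (fun _ => True) := fun k hk => by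
    rw [hoE k, ha]
    exact R.win k hk
  have R2 : ∀ k ≤ 1, o k ≤ Pt (o k) (o k) ∧ a ≤ Pt a (o k) := fun k hk => by
    rw [hoE k, ha]
    exact R.low k hk
  have R4 : ∀ k, 1 < k → k ≤ N₂ → Pool.W.D2R.BalD S P θ c r Pt a (o k) S₂ Eb := fun k hk hk' => by
    rw [hoE k, ha]
    exact R.bal k hk hk'
  have R3 := R.stp
  have hot : ∀ k, t + Pool.V1E.vF k₁ vw k * q = o k := fun k => by rw [ho]
  have hot2 : (fun k => t + Pool.V1E.vF k₁ vw k * q) = o := ho.symm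
  rw [hot2] at hIm
  simp only [hot, ← ha] at R3 hIm
  have hlr : ∀ x y : ℝ, Pool.ISO.lvN P c r Pt r x y = Pt x y := fun x y => by
    unfold Pool.ISO.lvN
    rw [if_neg (lt_irrefl r)]
  have hlb : ∀ l < r, ∀ x y : ℝ, Pool.ISO.lvN P c r Pt l x y = Pool.CHT.bet P c l x y := fun l hl x y => by
    unfold Pool.ISO.lvN
    rw [if_pos hl]
  have hbx : ∀ k ≤ 3, |o k - t| ≤ K * q := by
    intro k hk
    rw [abs_le]
    interval_cases k
    · rw [o0]; constructor <;> linarith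
    · rw [o1]; constructor <;> linarith
    · rw [o2]; constructor <;> linarith
    · rw [o3]; constructor <;> linarith
  have hol : ∀ k ≤ 3, t - k₁ * q ≤ o k ∧ o k ≤ t + 3 / 2 * q := by
    intro k hk
    interval_cases k
    · rw [o0]; constructor <;> linarith
    · rw [o1]; constructor <;> linarith
    · rw [o2]; constructor <;> linarith
    · rw [o3]; constructor <;> linarith
  have hax : |a - t| ≤ K * q := by
    rw [abs_le, ha']
    constructor <;> linarith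
  have ht0 := R.t0
  have ht1 := R.t1
  have hlt := R.lvr
  have e1 := abs_le.1 (hlt (o 3) (hbx 3 (by norm_num)))
  have e2 := abs_le.1 (hlt (o 1) (hbx 1 (by norm_num)))
  rw [o3] at e1
  rw [o1] at e2
  have hrt := R.room r le_rfl (t + q) (by rw [← o3]; exact hbx 3 (by norm_num))
  have hr1 := R.room r le_rfl t (by rw [sub_self, abs_zero]; linarith)
  rw [hlr] at hrt hr1
  have hEb0 := R.Eb0
  -- the rational pair
  obtain ⟨d, hd, hrat⟩ := R.rat (del * q / 8) (by positivity)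
  have hmd : 0 < min d q := lt_min hd hq
  obtain ⟨a₂, ha1, ha2⟩ : ∃ x : ℚ, t + q < x ∧ (x : ℝ) < t + q + min d q :=
    exists_rat_btwn (by linarith)
  obtain ⟨w₂, hw1, hw2⟩ : ∃ x : ℚ, t < x ∧ (x : ℝ) < t + min d q :=
    exists_rat_btwn (by linarith)
  have md1 := min_le_left d q
  have md2 := min_le_right d q
  have hb := hrat a₂ w₂ ha1.le (by linarith) hw1.le (by linarith) (by linarith)
  refine hx (S := S) (P := P) (P₂ := P₂) (θ := θ) (θ₂ := θ₂) (c := c) (Pt := Pt) (a := a)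
    (Eb := Eb) (ε₀ := 3 * ε * q) (η₀ := h * q) (mb := s * q) (κ := κ) (ζ := h * q)
    (h := del * q / 8) (e₂ := e₂) (K₂ := K₂) (o := o) (a₂ := a₂) (w₂ := w₂) (qf := qf) N₂ R.n3 R.ne
    R.thr R.thr₂ R.th0 R.tmh R.inj R.law hEb0 R1 R4 ?_ ?_ ?_ ?_ ?_ ?_ ?_ ?_ ?_ hhq.le ?_ ?_ ?_ ?_ ?_ ?_ ?_
    ?_ ?_ ?_ ?_ ?_ ?_ ?_ ?_ ?_ ?_ ?_ hκ hK₂ hIm
  · have := mul_lt_mul_of_pos_right hε1 hq
    linarith
  · intro k hk
    obtain ⟨k1, k2⟩ := hol k (by omega)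
    obtain ⟨k3, k4⟩ := R2 k hk
    rw [hlr]
    refine ⟨by linarith, by linarith, by linarith⟩
  · intro k hk
    have k1 : o k ≤ t + 2 * q := by
      rcases Nat.lt_or_ge 3 k with h4 | h4
      · rw [hoE k, Pool.V1E.vF_ge (by omega)]
        have := mul_le_mul_of_nonneg_right (R.vw2 k (by omega) hk) hq.le
        linarith
      · linarith [(hol k h4).2]
    linarith
  · linarith
  · intro k hk l hl
    have := R.room l hl (o k) (hbx k (by omega))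
    obtain ⟨k1, k2⟩ := hol k (by omega)
    linarith
  · intro k hk l hl
    have k0 := R.room l hl.le a hax
    obtain ⟨k1, k2⟩ := hol k (by omega)
    rw [hlb l hl] at k0
    have k3 : Pool.CHT.bet P c l a (o k) ≤ Pool.CHT.bet P c l a a := (R.thr.law _).mono_w a (o k) a (by linarith)
      (by linarith) le_rfl (by linarith)
    linarith
  · rw [o2, o0, o3]; linarith
  · rw [o0, o3]; linarith
  · rw [o1, o3]; linarith
  · intro k hk j hj
    have k0 := abs_le.1 (R.lv j hj (o k) (hbx k hk))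
    rw [o0, abs_le]
    constructor <;> linarith
  · rw [hlr, hlr, o0, o3, abs_le]
    constructor <;> linarith
  · rw [hlr, hlr, o0, o3, o1]
    linarith
  · rw [hlr, o0, o3]
    linarith
  · rw [o0, o3]
    linarith
  · rw [o0]; exact hw1.le
  · rw [o3]; exact ha1
  · have : (w₂ : ℝ) ≤ a₂ := by linarith
    exact_mod_cast this
  · have : (a₂ : ℝ) ≤ ((1 : ℚ) : ℝ) := by
      push_cast
      linarith
    exact_mod_cast this
  · refine R.e₂θ w₂ ?_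
    rw [abs_le]
    constructor <;> linarith
  · positivity
  · linarith
  · have := R.Ebe
    linarith
  · intro l hl
    have k0 := R.room l hl.le t (by rw [sub_self, abs_zero]; linarith)
    rw [o0, o3]
    linarith
  · rw [hlr, o0]
    linarith
  · rw [o0, o3]
    linarith
  · rw [hlr, o0, o3]
    have : min (del / 4) (1 / 2) * (t + q - t) ≤ del / 4 * q := by
      rw [add_sub_cancel_left]
      exact mul_le_mul_of_nonneg_right (min_le_left _ _) hq.le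
    linarith
  · intro J i
    rw [o0, o3]
    exact hqf J i

end Pool.W.V1E
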