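import Pool.Agent.H73.D2.Tmq
import Pool.Agent.H31.W3.H73.D2.Tmd
import Pool.Agent.H3.W.Bas
import Pool.Agent.H31.W.H23.D2.Bln
import Pool.Agent.H31.W.H3.D2G.RecG
import Pool.Agent.H31.W1.H1.GEN.One
import Pool.Agent.H31.W1.H2.GEN.ChT

/-!
# The record of the end at any place of the record of a window

`RecG.balAt`: the data of a ball window of the target at the place `i`. `RecG.recFr`: the record `RecFr`
from `RecG` for the target at the place `r` over coordinates of slope one.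
-/

set_option autoImplicit false

namespace Pool.W.PKG

open Pool.PKG

open Finset Real
open Pool.Agent.H49.Ent Pool.Agent.H32.Dense Pool.STK Pool.KA Pool.KSAT Pool.K2S Pool.PB
open Pool.GEN Pool.S6C Pool.STAT Pool.CHT Pool.GRW Pool.ONE Pool.STA
open Pool.LBT (LSys ThrOf)
open Pool.LEV (Law)
open Pool.ALL (RateOf)
open Pool.ISO (PtD lvN WinD)
open Pool.V1E (RecFr vF vF_ge)
open Pool.D2R (BalD)

section

variable {m : ℕ} {S : Pool.PB.PCl m} {al : ℝ} {g₀ : ℝ → ℝ} {P : List (Fin m) × Fin m → ℝ → ℝ → ℝ}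
  {θ : ℝ} {P₂ : ℕ → List (Fin m) × Fin m → ℝ → ℝ → ℝ} {θ₂ Eb e₂ : ℕ → ℝ}
  {c : ℕ → Fin m} {Pt : ℝ → ℝ → ℝ} {rt : ℝ → ℝ} {h K₀ g : ℝ} {L T : ℕ → ℝ → ℝ → ℝ}
  {Sl : ℕ → ℝ} {κ : ℕ → Pool.PKG.Kg} {G : Set ℝ} {S₀ N : ℕ} {A V : ℕ → ℝ} {S₂ N' : ℕ} {V' : ℕ → ℝ}
  {K ε q t : ℝ}
  (R : Pool.W.PKG.RecG S al g₀ P θ P₂ θ₂ Eb e₂ c Pt rt h K₀ g L T Sl κ G S₀ N A V S₂ N' V' K ε q t)
include R

/-- **The data of a ball window** of the chain, for the target at the place `i`. -/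
theorem RecG.balAt {i : ℕ} (hi1 : 1 ≤ i) (hi : i < m) (hS : S₀ ≤ S₂) {k : ℕ} (hk : k < N') {x : ℝ}
    (hx : V' k < x) (hxK : x - V' k ≤ K) (hVK : |V' k| ≤ K) :
    Pool.W.D2R.BalD S P θ c i (L i) (t + x * q) (t + V' k * q) S₂ (Eb i) := by
  have W := R.tg i hi1 hi
  have hq := R.q0
  have h1 : V' k * q < x * q := mul_lt_mul_of_pos_right hx hq
  obtain ⟨ρ, vs, e, e₀, E, sg, Q, k1, k2, -⟩ := (W.ptc k hk).mono hS
  refine ⟨by linarith, ⟨ρ, vs, e, e₀, E, sg, Q, k1, k2⟩, fun l hl => ?_⟩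
  have h3 := W.room l hl (t + V' k * q) (by
    rw [add_sub_cancel_left, abs_mul, abs_of_pos hq]
    exact mul_le_mul_of_nonneg_right hVK hq.le)
  have h5 : (x - V' k) * q ≤ K * q := mul_le_mul_of_nonneg_right hxK hq.le
  have h6 : 0 ≤ K * q := by
    have := (abs_nonneg (V' k)).trans hVK
    positivity
  rw [← R.lv_at hi hl]
  linarith

/-- **The record of the end** for the target at the place `r`. -/
theorem RecG.recFr {r : ℕ} (hr1 : 1 ≤ r) (hr : r < m) (hlast : r + 1 = m) (hκ : ∀ l < r, κ l = .one)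
    (hκt : κ r = .stp) {k₁ : ℝ} {vw : ℕ → ℝ} {N₂ : ℕ} (hN3 : 3 ≤ N₂)
    (hrow : ∀ k ≤ 1, ∃ j < N, A j = Sl r + 1 ∧ V j = Pool.V1E.vF k₁ vw k)
    (hpair : ∃ j < N, A j = 1 ∧ V j = 0)
    (hbal : ∀ k, 1 < k → k ≤ N₂ → ∃ j < N', V' j = Pool.V1E.vF k₁ vw k)
    (hvw2 : ∀ k, 4 ≤ k → k ≤ N₂ → vw k ≤ 2)
    (hvwl : ∀ k, 4 ≤ k → k ≤ N₂ → -k₁ ≤ vw k) (hS : S₀ ≤ S₂) (hε : 0 ≤ ε)
    (hkk : Sl r + 2 ≤ k₁) (hkK : 2 * Sl r + k₁ + 6 ≤ K) :
    Pool.W.V1E.RecFr S P (P₂ r) θ (θ₂ r) c r (L r) S₂ N₂ vw (Sl r) k₁ K (Eb r) (e₂ r) ε q t := by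
  have W := R.tg r hr1 hr
  have hkd := R.kd r hr
  rw [hκt] at hkd
  have hs2 : 2 < Sl r := hkd.1
  have hq := R.q0
  have hlvL : ∀ l ≤ r, ∀ a w : ℝ, Pool.ISO.lvN P c r (L r) l a w = L l a w := fun l hl a w => by
    rw [← R.lv_at hr hl]
  have hVb : ∀ k ≤ N₂, -k₁ ≤ Pool.V1E.vF k₁ vw k ∧ Pool.V1E.vF k₁ vw k ≤ 2 := by
    intro k hk
    rcases Nat.lt_or_ge k 4 with h4 | h4
    · interval_cases k
      · simp only [Pool.V1E.vF, if_true]
        constructor <;> linarith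
      · norm_num [Pool.V1E.vF]
        linarith
      · norm_num [Pool.V1E.vF]
        linarith
      · norm_num [Pool.V1E.vF]
        linarith
    · rw [Pool.V1E.vF_ge h4]
      exact ⟨hvwl k h4 hk, hvw2 k h4 hk⟩
  have hK0 : 0 ≤ K := by linarith
  have hkq : k₁ * q + 2 * (Sl r * q) + 6 * q ≤ K * q := by
    have := mul_le_mul_of_nonneg_right hkK hq.le
    linarith
  have hs2q : 2 * q < Sl r * q := mul_lt_mul_of_pos_right hs2 hq
  have hk₁q : Sl r * q + 2 * q ≤ k₁ * q := by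
    have := mul_le_mul_of_nonneg_right hkk hq.le
    linarith
  have hVq : ∀ k ≤ N₂, -(k₁ * q) ≤ Pool.V1E.vF k₁ vw k * q ∧ Pool.V1E.vF k₁ vw k * q ≤ 2 * q := fun k hk => by
    have h1 := mul_le_mul_of_nonneg_right (hVb k hk).1 hq.le
    have h2 := mul_le_mul_of_nonneg_right (hVb k hk).2 hq.le
    exact ⟨by linarith, h2⟩
  have htt : |t - t| ≤ K * q := by
    rw [sub_self, abs_zero]
    exact mul_nonneg hK0 hq.le
  have ht0 := R.t0
  have ht1 := R.t1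
  have v0 : Pool.V1E.vF k₁ vw 0 = 0 := by simp [Pool.V1E.vF]
  have hpt : ∀ a w : ℝ, 0 < w → w ≤ a → a ≤ 1 → a ≤ L r a w := fun a w h1 h2 h3 => by
    by_cases h4 : r + 1 < m
    · rw [R.lv_lt h4]
      exact R.thr.low _ _ _ h1.le h2 h3
    · have h5 : r = m - 1 := by omega
      rw [h5, R.lv_last (by omega)]
      exact R.tgs.low () _ _ h1.le h2 h3
  refine ⟨R.ne, R.thr, R.th0, W.thr₂, R.tmh, R.inj.mono fun x hx => ?_, R.lawL r hr, W.Eb0.le, hq,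
    hε, hkk, hkK, ht0, ht1, hN3, fun k hk => ?_, fun k hk hk' => ?_, hvw2, fun l hl x hx => ?_,
    fun x hx => ?_, fun l hl x hx => ?_, W.eθ, W.Ebe, ?_, fun k hk => ?_, fun e he => ?_⟩
  · rw [Set.mem_Iio] at hx ⊢
    omega
  · obtain ⟨j, hj, hA, hV⟩ := hrow k hk
    have h1 := R.winD (i := r) hr1 hr (k := j) hj
      (by rw [hV]; linarith [(hVb k (by omega)).1])
      (by rw [hA, hV]; linarith [(hVb k (by omega)).2])
      (by rw [hA]; linarith) (ε' := 3 * ε * q) le_rfl hε (Rg := fun _ => True)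
      (fun l hl _ => Or.inl (hκ l hl))
    rw [hA, hV] at h1
    exact h1
  · obtain ⟨j, hj, hV⟩ := hbal k hk hk'
    have h1 := R.balAt hr1 hr hS hj (x := Sl r + 1)
      (by rw [hV]; linarith [(hVb k hk').2]) (by rw [hV]; linarith [(hVb k hk').1])
      (by
        rw [hV, abs_le]
        constructor
        · linarith [(hVb k hk').1]
        · linarith [(hVb k hk').2])
    rw [hV] at h1
    exact h1
  · have h1 := R.dL l (by omega) x hx
    have h2 := R.kd l (by omega)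
    rw [hκ l hl] at h2
    have h3 : Sl l = 1 := h2
    rw [h3, one_mul] at h1
    rw [hlvL l hl.le, hlvL l hl.le]
    exact h1
  · exact R.dL r hr x hx
  · rw [hlvL l hl]
    exact W.room l hl x hx
  · obtain ⟨j, hj, hA, hV⟩ := hrow 0 (by omega)
    have h1 := hkd.2 (t + (Sl r + 1) * q) t (by linarith) (by linarith) (by linarith)
    have h2 := (R.TL j hj r hr).1
    have h3 := abs_le.1 (R.dT r hr t htt)
    rw [hA, hV, v0] at h2
    simp only [zero_mul, add_zero] at h2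
    linarith [h3.1]
  · have h1 := hVq k (by omega)
    exact ⟨hpt _ _ (by linarith) le_rfl (by linarith), hpt _ _ (by linarith) (by linarith)
      (by linarith)⟩
  · obtain ⟨j, hj, hA, hV⟩ := hpair
    obtain ⟨d, hd, h1⟩ := W.ratN (k := j) hj e he
    refine ⟨d, hd, fun a' w' k1 k2 k3 k4 k5 => ?_⟩
    rw [hA, hV, one_mul, zero_mul, add_zero] at h1
    exact h1 a' w' k1 k2 k3 k4 k5

end

end Pool.W.PKG
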