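import Pool.Agent.H73.D2.Tmr
import Pool.Agent.H31.W3.H18.PN.Hif
import Pool.Agent.H31.W3.H42.D2.Nhf
import Pool.Agent.H31.W3.H73.D2.Tmd
import Pool.Agent.H31.W.H92.D2.Him
import Pool.Agent.H31.W1.H2.GEN.ChT

/-!
# The end at one scale, frame and ball in a chain, from the velocity of the target

`x10f_fin`: `x10f_q` with the labels of the tubes from the time line (`TlW`), the velocity of the target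
(`VfW`) and the numbers.
-/

set_option autoImplicit false

namespace Pool.W.V1E

open Pool.V1E

open Finset Real MvPolynomial
open Pool.Agent.H49.Ent Pool.Agent.H32.Dense Pool.STK Pool.KA Pool.KSAT Pool.K2S Pool.PB Pool.S6C
open Pool.GEN Pool.CHT Pool.CHX Pool.ISO Pool.D2R Pool.D2G30 Pool.END18 Pool.D2Con
open Pool.LBT (ThrOf)
open Pool.LEV (Law)
open Pool.NHZ (NhNF nhF_cls)


/-- **The end at one scale**, frame and ball in a chain, from the time line and the velocity. -/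
theorem x10f_fin (m r S₂ CM : ℕ) (hr : 1 ≤ r) (hS₂ : 1 ≤ S₂) (s : ℝ) (hs : 2 < s) :
    ∃ D : ℕ, 1 ≤ D ∧ ∀ Dr : ℕ, D ≤ Dr → ∃ C : ℝ, 1 ≤ C ∧
    ∀ del : ℝ, 0 < del → ∃ δ C' : ℝ, 0 < δ ∧ δ ≤ 1 ∧ 1 ≤ C' ∧ ∃ h₀ : ℝ, 0 < h₀ ∧
    ∀ h : ℝ, 0 < h → h ≤ h₀ →
    ∀ {S : Pool.PB.PCl m} {P P₂ : List (Fin m) × Fin m → ℝ → ℝ → ℝ} {θ θ₂ : ℝ} {c : ℕ → Fin m}
    {Pt : ℝ → ℝ → ℝ} {N₂ : ℕ} {vw : ℕ → ℝ} {k₁ K Eb e₂ ε q t kk κ K₂ : ℝ}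
    {qf : ℕ → Fin r → ℕ} {nt : ℕ → ℝ} {P₁ P₃ : Fin r → ℝ} {oo : ℝ} {fr : ℕ → ℝ} {hT κT : ℝ}
    {aq : ℚ} {e₃ h₃ gn : ℝ},
    Pool.W.V1E.RecFr S P P₂ θ θ₂ c r Pt S₂ N₂ vw s k₁ K Eb e₂ ε q t → 3 * C * ε < h → 2 * ε ≤ h →
    (∀ (J : ℕ) (i : Fin r), ⌊s * q * J⌋₊ + (⌊(t + q) * J⌋₊ - ⌊t * J⌋₊) ≤ qf J i) → 0 < κ →
    0 < K₂ → 4 ≤ N₂ →
    Pool.W.V1E.VfW S c r D Dr N₂ C (t + (s + 1) * q) Eb (3 * ε * q) (h * q) (h * q) (s * q) kk Pt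
      (fun k => t + Pool.V1E.vF k₁ vw k * q)
      (fun k l => Pool.ISO.lvN P c r Pt l (t + Pool.V1E.vF k₁ vw k * q) (t + Pool.V1E.vF k₁ vw k * q))
      (fun k l => Pool.CHT.bet P c l (t + (s + 1) * q) (t + Pool.V1E.vF k₁ vw k * q)) κ qf δ K₂ →
    Pool.W.V1E.TlW S c r nt P₁ P₃ (t + Pool.V1E.vF k₁ vw 2 * q) (t + Pool.V1E.vF k₁ vw 0 * q) (t + Pool.V1E.vF k₁ vw 3 * q) oo fr
      hT κT →
    Pool.V1E.HfN r CM C Eb (h * q) (h * q) (s * q) kk δ C' (fun k => t + Pool.V1E.vF k₁ vw k * q)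
      (fun k l => Pool.ISO.lvN P c r Pt l (t + Pool.V1E.vF k₁ vw k * q) (t + Pool.V1E.vF k₁ vw k * q)) qf nt P₁ P₃ oo
      fr hT κT →
    Pool.NHZ.NhNF r P₂ c θ₂ C Eb (h * q) (h * q) δ C' (fun k => t + Pool.V1E.vF k₁ vw k * q)
      (fun k l => Pool.ISO.lvN P c r Pt l (t + Pool.V1E.vF k₁ vw k * q) (t + Pool.V1E.vF k₁ vw k * q)) aq e₃ h₃ gn →
    Pt (t + q) (t + q) ≤ Pt (t + q) t + del * q := by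
  obtain ⟨D, hD, hx⟩ := Pool.W.V1E.x10f_q m r S₂ hr hS₂ s hs
  refine ⟨D, hD, fun Dr hDr => ?_⟩
  obtain ⟨K', D', C, hK', hC, hDK, hKD, hDD, hx⟩ := hx Dr hDr
  refine ⟨C, hC, fun del hdel => ?_⟩
  obtain ⟨δ₁, hδ₁, hδ₁4, h₀, hh₀, hx⟩ := hx del hdel
  obtain ⟨δ, C₁, hδ, hδ1, hC₁, hhi⟩ := Pool.W.V1E.him_f D r K' D' CM hr hK' hDK hKD hDD hδ₁
  obtain ⟨C₂, hC₂, hnh⟩ := Pool.W.NHZ.nhF_cls D r hr
  refine ⟨δ, max C₁ C₂, hδ, hδ1, hC₁.trans (le_max_left _ _), h₀, hh₀, ?_⟩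
  intro h hh hhX S P P₂ θ θ₂ c Pt N₂ vw k₁ K Eb e₂ ε q t kk κ K₂ qf nt P₁ P₃ oo
    fr hT κT aq e₃ h₃ gn Rc hε hε2 hqf hκ hK₂ hN4 hVf hTl Hn Nh
  have htm := fun (ψ : ℝ) (hψ : 0 < ψ) => Pool.V1E.tmh_cond Rc.tmh hψ
  exact hx h hh hhX Rc hε hε2 hqf hκ hK₂.le
    (hhi htm hTl (hnh hN4 Rc.thr₂ htm (Nh.mono (le_max_right _ _))) hVf hK₂ hκ.le le_rfl
      (Hn.mono (le_max_left _ _)))

end Pool.W.V1E
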