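import Pool.Agent.H73.D2.Tms
import Pool.Agent.H3.W.Bas
import Pool.Agent.H31.W.H3.D2G.RecG
import Pool.Agent.H31.W.H73.D2.Tms

/-!
# The numbers of the hyperplanes at one scale

`RecG.nhNN`, `RecG.nhNF`: the numbers of `nhN_cls`, `nhF_cls` from the record of a window, the deeper
window `t + (1 + ρ) q` in the chain.
-/

set_option autoImplicit false

namespace Pool.W.PKG

open Pool.PKG

open Finset Real
open Pool.Agent.H49.Ent Pool.Agent.H32.Dense Pool.STK Pool.KA Pool.KSAT Pool.K2S Pool.PB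
open Pool.GEN Pool.S6C Pool.STAT Pool.CHT Pool.GRW Pool.ONE Pool.STA
open Pool.LBT (LSys ThrOf)
open Pool.LEV (Law)
open Pool.ALL (RateOf)
open Pool.ISO (PtD lvN WinD)
open Pool.V1E (vF vF_ge)
open Pool.NHN (NhNN)
open Pool.NHZ (NhNF)

section

variable {m : ℕ} {S : Pool.PB.PCl m} {al : ℝ} {g₀ : ℝ → ℝ} {P : List (Fin m) × Fin m → ℝ → ℝ → ℝ}
  {θ : ℝ} {P₂ : ℕ → List (Fin m) × Fin m → ℝ → ℝ → ℝ} {θ₂ Eb e₂ : ℕ → ℝ}
  {c : ℕ → Fin m} {Pt : ℝ → ℝ → ℝ} {rt : ℝ → ℝ} {h K₀ g : ℝ} {L T : ℕ → ℝ → ℝ → ℝ}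
  {Sl : ℕ → ℝ} {κ : ℕ → Pool.PKG.Kg} {G : Set ℝ} {S₀ N : ℕ} {A V : ℕ → ℝ} {S₂ N' : ℕ} {V' : ℕ → ℝ}
  {K ε q t : ℝ}
  (R : Pool.W.PKG.RecG S al g₀ P θ P₂ θ₂ Eb e₂ c Pt rt h K₀ g L T Sl κ G S₀ N A V S₂ N' V' K ε q t)
include R


/-- **The numbers of `nhF_cls`.** -/
theorem RecG.nhNF {r : ℕ} (hr1 : 1 ≤ r) (hr : r < m) (hκ : ∀ l < r, κ l = .one)
    {j : ℕ} (hj : j < N') {C δ C' ρ v₀ k₁ : ℝ} {vw : ℕ → ℝ} (hV' : V' j = 1 + ρ)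
    (hvw : vw 4 = 1 + ρ) (hC : 1 ≤ C) (hC' : 1 ≤ C') (hδ : 0 < δ) (hδ1 : δ ≤ 1)
    (hv : 0 < v₀) (hρ0 : 0 < ρ) (hρ1 : ρ ≤ 1 / 2) (hρv : (C + 2) * v₀ < ρ)
    (hs : C' * (2 * (C * v₀) + (ρ + 3 * v₀)) < δ) (hε0 : 0 ≤ ε) (hε : 2 * ε ≤ v₀)
    (hk₁ : 0 ≤ k₁) (hK : k₁ + 6 ≤ K) : ∃ aq : ℚ,
    Pool.NHZ.NhNF r (P₂ r) c (θ₂ r) C (Eb r) (v₀ * q) (v₀ * q) δ C' (fun k => t + Pool.V1E.vF k₁ vw k * q)
      (fun k l => Pool.ISO.lvN P c r (L r) l (t + Pool.V1E.vF k₁ vw k * q) (t + Pool.V1E.vF k₁ vw k * q)) aq (e₂ r) (v₀ * q)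
      ((ρ + 3 * v₀) * q) := by
  have hq := R.q0
  have W := R.tg r hr1 hr
  have hv1 : v₀ ≤ 1 / 2 := by
    have h1 : C' * (2 * (C * v₀) + (ρ + 3 * v₀)) ≤ 1 := by linarith
    have h2 : 2 * (C * v₀) + (ρ + 3 * v₀) ≤ C' * (2 * (C * v₀) + (ρ + 3 * v₀)) :=
      le_mul_of_one_le_left (by positivity) hC'
    have h3 : 0 ≤ C * v₀ := by positivity
    linarith
  obtain ⟨aq, n1, n2, n3, n4⟩ := R.nh_num hr1 hr le_rfl hκ hj hV' hv hv1 hρ0 hρ1 hε0 hε hk₁ hK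
  have hlf : ∀ l < r, ∀ y : ℝ, Pool.ISO.lvN P c r (L r) l y y = L l y y := fun l hl y => by
    rw [← R.lv_at hr hl.le]
  have e0 : t + Pool.V1E.vF k₁ vw 0 * q = t := by simp [Pool.V1E.vF]
  have e2 : t + Pool.V1E.vF k₁ vw 2 * q = t - k₁ * q := by simp [Pool.V1E.vF]; ring
  have e3 : t + Pool.V1E.vF k₁ vw 3 * q = t + q := by simp [Pool.V1E.vF]
  have e4 : t + Pool.V1E.vF k₁ vw 4 * q = t + q + ρ * q := by rw [Pool.V1E.vF_ge le_rfl, hvw]; ring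
  obtain ⟨X, hX⟩ : ∃ X : ℝ, X = C' * (2 * (C * v₀) + (ρ + 3 * v₀)) := ⟨_, rfl⟩
  have hXq : X * q < δ * q := by
    rw [hX]
    exact mul_lt_mul_of_pos_right hs hq
  have hXe : C' * (C * (v₀ * q + v₀ * q) + (ρ + 3 * v₀) * q) = X * q := by rw [hX]; ring
  have hδq : δ * q ≤ q := by
    have := mul_le_mul_of_nonneg_right hδ1 hq.le
    linarith
  have hvq : 0 < v₀ * q := mul_pos hv hq
  have hvq1 : v₀ * q ≤ q / 2 := by
    have := mul_le_mul_of_nonneg_right hv1 hq.le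
    linarith
  have hρq : 0 < ρ * q := mul_pos hρ0 hq
  have hk₁q : 0 ≤ k₁ * q := mul_nonneg hk₁ hq.le
  have hKq : k₁ * q + 6 * q ≤ K * q := by
    have := mul_le_mul_of_nonneg_right hK hq.le
    linarith
  have ht0 := R.t0
  have hEb := W.Eb0
  refine ⟨aq, ⟨hC, hvq.le, hvq.le, hEb.le, by positivity, ?_, ?_, hδ, hδ1, fun l hl => ?_, ?_,
    n2, n3, hvq, fun l hl => ?_, fun l hl => ?_, fun l hl => ?_, fun l hl => ?_, ?_, ?_, ?_, ?_,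
    fun l hl => ?_⟩⟩
  · simp only [e0]; linarith
  · simp only [e0, e3]; linarith
  · simp only [e0, hlf l hl]
    linarith [(n4 l hl).2.2.1]
  · simp only [e4]; exact n1
  · exact (n4 l hl).1
  · simp only [e0, e3, e4, hlf l hl]
    linarith [(n4 l hl).2.1]
  · simp only [e0, e2, hlf l hl]
    exact (abs_le.1 (n4 l hl).2.2.2.1).2
  · simp only [e0, e4, hlf l hl]
    exact (abs_le.1 (n4 l hl).2.2.2.2.1).2
  · simp only [e2, e4]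
    linarith
  · simp only [e3, e4]
    have := mul_lt_mul_of_pos_right hρv hq
    linarith
  · simp only [e0, e3, hXe]
    linarith
  · rw [hXe]
    linarith [W.Ebe]
  · simp only [e0, e3, hXe, hlf l hl]
    linarith [(n4 l hl).2.2.2.2.2]


end

end Pool.W.PKG
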